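import Init

/-!
# The kernel checker for the enumeration
-/

set_option autoImplicit false

namespace Pool.Agent.Helper36.P6

noncomputable section

/-- bit `k` of `g` -/
def bit (g k : Nat) : Bool := Nat.beq (Nat.land (Nat.shiftRight g k) 1) 1

/-- adjacency in the graph coded by `g` -/
def adj (g i j : Nat) : Bool :=
  cond (Nat.blt i j) (bit g (32 * i + j)) (cond (Nat.blt j i) (bit g (32 * j + i)) false)

/-- `f i` for all `i < n` -/
def allN (n : Nat) (f : Nat → Bool) : Bool :=
  Nat.rec (motive := fun _ => Bool) true (fun i r => cond (f i) r false) n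

/-- `f i` for some `i < n` -/
def anyN (n : Nat) (f : Nat → Bool) : Bool :=
  Nat.rec (motive := fun _ => Bool) false (fun i r => cond (f i) true r) n

/-- number of `i < n` with `f i` -/
def cntN (n : Nat) (f : Nat → Bool) : Nat :=
  Nat.rec (motive := fun _ => Nat) 0 (fun i r => cond (f i) (Nat.succ r) r) n

/-- membership in a triple -/
def in3 (a b c x : Nat) : Bool := Nat.beq x a || (Nat.beq x b || Nat.beq x c)

/-- membership in a quadruple -/
def in4 (a b c d x : Nat) : Bool := Nat.beq x a || (Nat.beq x b || (Nat.beq x c || Nat.beq x d))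

/-- a new vertex `m` joined to `a, b, c` -/
def extT (g m a b c x y : Nat) : Bool :=
  cond (Nat.beq x m) (in3 a b c y) (cond (Nat.beq y m) (in3 a b c x) (adj g x y))

/-- the edge `ac` is removed and a new vertex `m` is joined to `a, b, c, d` -/
def extQ (g m a c b d x y : Nat) : Bool :=
  cond (Nat.beq x m) (in4 a b c d y) (cond (Nat.beq y m) (in4 a b c d x)
    (cond ((Nat.beq x a && Nat.beq y c) || (Nat.beq x c && Nat.beq y a)) false (adj g x y)))

/-- the `i`-th entry of the code `s` -/
def ent (s i : Nat) : Nat := Nat.land (Nat.shiftRight s (5 * i)) 31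

/-- `s` codes an induced path with six vertices in the graph `A` on `0, ..., m` -/
def ckP (A : Nat → Nat → Bool) (m s : Nat) : Bool :=
  allN 6 (fun j => Nat.ble (ent s j) m && allN j (fun i =>
    !(Nat.beq (ent s i) (ent s j)) &&
      cond (Nat.beq (Nat.succ i) j) (A (ent s i) (ent s j)) (!(A (ent s i) (ent s j)))))

/-- `s` codes an isomorphism of the graph `A` on `0, ..., n-1` to the graph coded by `h` -/
def ckI (A : Nat → Nat → Bool) (n h s : Nat) : Bool :=
  allN n (fun j => Nat.blt (ent s j) n && allN j (fun i =>
    !(Nat.beq (ent s i) (ent s j)) &&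
      cond (adj h (ent s i) (ent s j)) (A i j) (!(A i j))))

/-- `K` is closed in the graph coded by `g` minus `a, b, c`, and nonempty -/
def ckS (g m a b c K : Nat) : Bool :=
  allN m (fun x => !(bit K x) || (!(in3 a b c x) &&
    allN m (fun y => bit K y || (in3 a b c y || !(adj g x y))))) && anyN m (fun x => bit K x)

/-- list lookup -/
def look (l : List Nat) (i : Nat) : Nat :=
  List.rec (motive := fun _ => Nat → Nat) (fun _ => 0)
    (fun x _ r i => cond (Nat.beq i 0) x (r (Nat.pred i))) l i

/-- certificate check for a new vertex on the triangle `abc` -/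
def ckT (g m : Nat) (L : List Nat) (a b c ct : Nat) : Bool :=
  cond (Nat.beq (Nat.land ct 3) 0) (ckP (extT g m a b c) m (Nat.shiftRight ct 2))
    (cond (Nat.beq (Nat.land ct 3) 1)
      (ckS g m a b c (Nat.shiftRight ct 2) &&
        anyN m (fun z => !(bit (Nat.shiftRight ct 2) z) && !(in3 a b c z)))
      (Nat.blt (Nat.land (Nat.shiftRight ct 2) 255) L.length &&
        ckI (extT g m a b c) (Nat.succ m) (look L (Nat.land (Nat.shiftRight ct 2) 255))
          (Nat.shiftRight ct 10)))

/-- certificate check for a new vertex on the pair of triangles `abc`, `acd` -/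
def ckQ (g m : Nat) (L : List Nat) (a c b d ct : Nat) : Bool :=
  cond (Nat.beq (Nat.land ct 3) 0) (ckP (extQ g m a c b d) m (Nat.shiftRight ct 2))
    (cond (Nat.beq (Nat.land ct 3) 1)
      (ckS g m a c b (Nat.shiftRight ct 2) && !(bit (Nat.shiftRight ct 2) d))
      (cond (Nat.beq (Nat.land ct 3) 3)
        (ckS g m a c d (Nat.shiftRight ct 2) && !(bit (Nat.shiftRight ct 2) b))
        (Nat.blt (Nat.land (Nat.shiftRight ct 2) 255) L.length &&
          ckI (extQ g m a c b d) (Nat.succ m) (look L (Nat.land (Nat.shiftRight ct 2) 255))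
            (Nat.shiftRight ct 10))))

/-- sequential composition over `i < n` -/
def seqN (n : Nat) (f : Nat → List Nat → Option (List Nat)) (l : List Nat) : Option (List Nat) :=
  Nat.rec (motive := fun _ => Option (List Nat)) (some l)
    (fun i r => Option.rec (motive := fun _ => Option (List Nat)) none (fun l' => f i l') r) n

/-- use one certificate -/
def use1 (chk : Nat → Bool) (l : List Nat) : Option (List Nat) :=
  List.rec (motive := fun _ => Option (List Nat)) none
    (fun c cs _ => cond (chk c) (some cs) none) l

/-- all triangles of `g` -/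
def loopT (g m : Nat) (L : List Nat) (l : List Nat) : Option (List Nat) :=
  seqN m (fun c l => seqN c (fun b l => cond (adj g b c)
    (seqN b (fun a l => cond (adj g a b && adj g a c) (use1 (ckT g m L a b c) l) (some l)) l)
    (some l)) l) l

/-- all pairs of triangles `abc`, `acd` of `g` such that `D ⊆ {b, d}` -/
def loopQ (g m D : Nat) (L : List Nat) (l : List Nat) : Option (List Nat) :=
  seqN m (fun d l => seqN d (fun b l =>
    cond (Nat.beq (Nat.land D (Nat.lor (Nat.shiftLeft 1 b) (Nat.shiftLeft 1 d))) D)
    (seqN m (fun c l => cond (adj g b c && adj g d c)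
      (seqN c (fun a l => cond (adj g a c && (adj g a b && adj g a d))
        (use1 (ckQ g m L a c b d) l) (some l)) l) (some l)) l) (some l)) l) l

/-- the check for one graph -/
def ckG (m : Nat) (L : List Nat) (g D : Nat) (cs : List Nat) : Bool :=
  Nat.blt D (Nat.shiftLeft 1 m) &&
  (allN m (fun x => !(bit D x) || Nat.ble (cntN m (fun y => adj g x y)) 3) &&
  ((Nat.blt m 11 || (bit D (Nat.log2 D) && Nat.blt (Nat.log2 D) m)) &&
  Option.rec (motive := fun _ => Bool) false (fun l =>
    Option.rec (motive := fun _ => Bool) false (fun _ => true) (loopQ g m D L l))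
    (loopT g m L cs)))

/-- the check for one level -/
def ckLevel (m : Nat) (L : List Nat) (data : List (Nat × Nat × List Nat)) : Bool :=
  List.rec (motive := fun _ => Bool) true
    (fun t _ r => cond (ckG m L t.1 t.2.1 t.2.2) r false) data

end

end Pool.Agent.Helper36.P6
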