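import Pool.Agent.Helper36.P6.IndMin

/-!
# Counting edges in subsets
-/

set_option autoImplicit false

namespace Pool.Agent.Helper36.P6

open SimpleGraph
open Pool.Agent.Helper36.BL (IsMinor K5Free deg dsum cn del mg)

variable {V W U : Type}

/-- number of ordered adjacent pairs inside `A` -/
noncomputable def ed (G : SimpleGraph V) (A : Set V) : ℕ :=
  {p : V × V | p.1 ∈ A ∧ p.2 ∈ A ∧ G.Adj p.1 p.2}.ncard

lemma dsum_eq [Fintype V] (G : SimpleGraph V) :
    dsum G = {p : V × V | G.Adj p.1 p.2}.ncard := by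
  classical
  unfold BL.dsum BL.deg
  rw [← Finset.card_sigma, Set.ncard_eq_toFinset_card']
  refine Finset.card_bij (fun x _ => (x.1, x.2)) ?_ ?_ ?_
  · rintro ⟨x, y⟩ h
    simpa using h
  · rintro ⟨x, y⟩ _ ⟨x', y'⟩ _ h
    simp only [Prod.mk.injEq] at h
    obtain ⟨h1, h2⟩ := h
    subst h1; subst h2; rfl
  · rintro ⟨x, y⟩ h
    exact ⟨⟨x, y⟩, by simpa using h, rfl⟩

lemma dsum_inst (i1 i2 : Fintype V) (G : SimpleGraph V) :
    @BL.dsum V i1 G = @BL.dsum V i2 G := by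
  rw [@dsum_eq V i1 G, @dsum_eq V i2 G]

lemma dsum_univ [Fintype V] (G : SimpleGraph V) : dsum G = ed G Set.univ := by
  rw [dsum_eq]; unfold ed; simp

lemma dsum_induce [Fintype V] (G : SimpleGraph V) (A : Set V) [Fintype A] :
    dsum (G.induce A) = ed G A := by
  rw [dsum_eq]
  unfold ed
  rw [← Set.ncard_image_of_injective (f := fun p : A × A => ((p.1 : V), (p.2 : V)))]
  · congr 1
    ext ⟨x, y⟩
    simp only [Set.mem_image, Set.mem_ofPred_eq, Prod.exists, Prod.mk.injEq]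
    constructor
    · rintro ⟨a, b, h, h1, h2⟩
      subst h1; subst h2
      exact ⟨a.2, b.2, h⟩
    · rintro ⟨hx, hy, h⟩
      exact ⟨⟨x, hx⟩, ⟨y, hy⟩, h, rfl, rfl⟩
  · rintro ⟨x, y⟩ ⟨x', y'⟩ h
    simp only [Prod.mk.injEq] at h
    exact Prod.ext (Subtype.ext h.1) (Subtype.ext h.2)

lemma ed_mono [Fintype V] (G : SimpleGraph V) {A B : Set V} (h : A ⊆ B) : ed G A ≤ ed G B := by
  unfold ed
  apply Set.ncard_le_ncard _ (Set.toFinite _)
  rintro p ⟨h1, h2, h3⟩
  exact ⟨h h1, h h2, h3⟩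

/-- splitting along a separation -/
lemma ed_split [Fintype V] (G : SimpleGraph V) (A B : Set V) (hAB : A ∪ B = Set.univ)
    (h : ∀ u ∈ A, u ∉ B → ∀ v ∈ B, v ∉ A → ¬ G.Adj u v) :
    ed G A + ed G B = dsum G + ed G (A ∩ B) := by
  rw [dsum_univ]
  unfold ed
  rw [← Set.ncard_union_add_ncard_inter _ _ (Set.toFinite _) (Set.toFinite _)]
  have hcov : ∀ x : V, x ∈ A ∨ x ∈ B := by
    intro x
    have : x ∈ A ∪ B := by rw [hAB]; trivial
    exact this
  congr 2
  · ext ⟨x, y⟩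
    simp only [Set.mem_union, Set.mem_ofPred_eq, Set.mem_univ, true_and]
    constructor
    · rintro (h | h)
      · exact h.2.2
      · exact h.2.2
    · intro hxy
      by_cases hxA : x ∈ A
      · by_cases hyA : y ∈ A
        · exact Or.inl ⟨hxA, hyA, hxy⟩
        · have hyB : y ∈ B := (hcov y).resolve_left hyA
          by_cases hxB : x ∈ B
          · exact Or.inr ⟨hxB, hyB, hxy⟩
          · exact absurd hxy (h x hxA hxB y hyB hyA)
      · have hxB : x ∈ B := (hcov x).resolve_left hxA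
        by_cases hyB : y ∈ B
        · exact Or.inr ⟨hxB, hyB, hxy⟩
        · have hyA : y ∈ A := (hcov y).resolve_right hyB
          exact absurd hxy.symm (h y hyA hyB x hxB hxA)
  · ext ⟨x, y⟩
    simp only [Set.mem_inter_iff, Set.mem_ofPred_eq]
    tauto

/-- contraction of `K` into `x` creates a new edge `xy` -/
lemma ed_cg [Fintype V] (G : SimpleGraph V) (A : Set V) [Fintype A] (x y : V) (K : Set V)
    (hx : x ∈ A) (hy : y ∈ A) (hxy : x ≠ y) (hn : ¬ G.Adj x y) (hk : ∃ k ∈ K, G.Adj k y) :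
    ed G A + 2 ≤ dsum (cg G A x K) := by
  classical
  rw [← dsum_induce G A, dsum_eq, dsum_eq]
  have hsub : insert ((⟨x, hx⟩, ⟨y, hy⟩) : A × A) (insert ((⟨y, hy⟩, ⟨x, hx⟩) : A × A)
      {p : A × A | (G.induce A).Adj p.1 p.2}) ⊆ {p : A × A | (cg G A x K).Adj p.1 p.2} := by
    intro p hp
    rcases hp with hp | hp | hp
    · subst hp
      exact ⟨fun h => hxy (congrArg Subtype.val h), Or.inr (Or.inl ⟨rfl, hk⟩)⟩
    · rw [hp]
      exact ⟨fun h => hxy (congrArg Subtype.val h).symm, Or.inr (Or.inr ⟨rfl, hk⟩)⟩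
    · have hp' : (G.induce A).Adj p.1 p.2 := hp
      exact ⟨hp'.ne, Or.inl hp'⟩
  have h1 := Set.ncard_le_ncard hsub (Set.toFinite _)
  rw [Set.ncard_insert_of_notMem, Set.ncard_insert_of_notMem] at h1
  · exact h1
  · intro h
    exact hn (show G.Adj y x from h).symm
  · rintro (h | h)
    · exact hxy (congrArg Subtype.val (congrArg Prod.fst h))
    · exact hn h

lemma ed_empty (G : SimpleGraph V) : ed G ∅ = 0 := by
  unfold ed; simp

lemma ed_singleton (G : SimpleGraph V) (x : V) : ed G {x} = 0 := by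
  unfold ed
  rw [Set.ncard_eq_zero (Set.Finite.subset (Set.finite_singleton (x, x)) ?_)]
  · ext ⟨a, b⟩
    simp only [Set.mem_singleton_iff, Set.mem_ofPred_eq, Set.mem_empty_iff_false, iff_false]
    rintro ⟨h1, h2, h3⟩
    subst h1; subst h2
    exact h3.ne rfl
  · rintro ⟨a, b⟩ ⟨h1, h2, _⟩
    simp only [Set.mem_singleton_iff] at h1 h2
    simp [h1, h2]

lemma ed_pair (G : SimpleGraph V) (x y : V) (h : G.Adj x y) : ed G {x, y} = 2 := by
  classical
  unfold ed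
  have : {p : V × V | p.1 ∈ ({x, y} : Set V) ∧ p.2 ∈ ({x, y} : Set V) ∧ G.Adj p.1 p.2} =
      ((({(x, y), (y, x)} : Finset (V × V))) : Set (V × V)) := by
    ext ⟨a, b⟩
    simp only [Set.mem_insert_iff, Set.mem_singleton_iff, Set.mem_ofPred_eq, Finset.coe_insert,
      Finset.coe_singleton, Prod.mk.injEq]
    constructor
    · rintro ⟨rfl | rfl, rfl | rfl, hab⟩
      · exact absurd rfl hab.ne
      · exact Or.inl ⟨rfl, rfl⟩
      · exact Or.inr ⟨rfl, rfl⟩
      · exact absurd rfl hab.ne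
    · rintro (⟨rfl, rfl⟩ | ⟨rfl, rfl⟩)
      · exact ⟨Or.inl rfl, Or.inr rfl, h⟩
      · exact ⟨Or.inr rfl, Or.inl rfl, h.symm⟩
  rw [this, Set.ncard_coe_finset, Finset.card_pair]
  intro h'
  exact h.ne (congrArg Prod.fst h')

lemma ed_pair_le (G : SimpleGraph V) (x y : V) (h : ¬ G.Adj x y) : ed G {x, y} = 0 := by
  unfold ed
  have : {p : V × V | p.1 ∈ ({x, y} : Set V) ∧ p.2 ∈ ({x, y} : Set V) ∧ G.Adj p.1 p.2} = ∅ := by
    ext ⟨a, b⟩
    simp only [Set.mem_insert_iff, Set.mem_singleton_iff, Set.mem_ofPred_eq,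
      Set.mem_empty_iff_false, iff_false]
    rintro ⟨rfl | rfl, rfl | rfl, hab⟩
    · exact hab.ne rfl
    · exact h hab
    · exact h hab.symm
    · exact hab.ne rfl
  rw [this, Set.ncard_empty]

lemma ed_triple (G : SimpleGraph V) (a b c : V) (hab : G.Adj a b) (hac : G.Adj a c)
    (hbc : G.Adj b c) : ed G {a, b, c} = 6 := by
  classical
  unfold ed
  have : {p : V × V | p.1 ∈ ({a, b, c} : Set V) ∧ p.2 ∈ ({a, b, c} : Set V) ∧ G.Adj p.1 p.2} =
      ((({(a, b), (b, a), (a, c), (c, a), (b, c), (c, b)} : Finset (V × V))) : Set (V × V)) := by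
    ext ⟨x, y⟩
    simp only [Set.mem_insert_iff, Set.mem_singleton_iff, Set.mem_ofPred_eq, Finset.coe_insert,
      Finset.coe_singleton, Prod.mk.injEq]
    constructor
    · rintro ⟨rfl | rfl | rfl, rfl | rfl | rfl, hxy⟩
      all_goals first | exact absurd rfl hxy.ne | tauto
    · rintro (⟨rfl, rfl⟩ | ⟨rfl, rfl⟩ | ⟨rfl, rfl⟩ | ⟨rfl, rfl⟩ | ⟨rfl, rfl⟩ | ⟨rfl, rfl⟩)
      · exact ⟨Or.inl rfl, Or.inr (Or.inl rfl), hab⟩
      · exact ⟨Or.inr (Or.inl rfl), Or.inl rfl, hab.symm⟩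
      · exact ⟨Or.inl rfl, Or.inr (Or.inr rfl), hac⟩
      · exact ⟨Or.inr (Or.inr rfl), Or.inl rfl, hac.symm⟩
      · exact ⟨Or.inr (Or.inl rfl), Or.inr (Or.inr rfl), hbc⟩
      · exact ⟨Or.inr (Or.inr rfl), Or.inr (Or.inl rfl), hbc.symm⟩
  rw [this, Set.ncard_coe_finset]
  have h1 := hab.ne
  have h2 := hac.ne
  have h3 := hbc.ne
  have h1' := hab.ne'
  have h2' := hac.ne'
  have h3' := hbc.ne'
  simp [Finset.card_insert_of_notMem, h1, h2, h3, h1', h2', h3']

end Pool.Agent.Helper36.P6
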