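import Pool.Agent.Helper36.BL.Edge

/-!
# Induced-`P₆`-free planar graphs: definitions
-/

set_option autoImplicit false

namespace Pool.Agent.Helper36.P6

open SimpleGraph
open Pool.Agent.Helper36.BL (IsMinor K5Free deg dsum cn del mg)

/-- `H` is an induced minor of `G`. -/
def IndMin {W V : Type} (H : SimpleGraph W) (G : SimpleGraph V) : Prop :=
  ∃ B : W → Set V,
    (∀ w, (G.induce (B w)).Connected) ∧
    (∀ w w', w ≠ w' → Disjoint (B w) (B w')) ∧
    (∀ w w', w ≠ w' → (H.Adj w w' ↔ ∃ a ∈ B w, ∃ b ∈ B w', G.Adj a b))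

/-- the complete bipartite graph `K₃,₃` -/
def K33 : SimpleGraph (Fin 3 ⊕ Fin 3) := completeBipartiteGraph (Fin 3) (Fin 3)

/-- No `K₃,₃` minor. -/
def K33Free {V : Type} (G : SimpleGraph V) : Prop := ¬ IsMinor K33 G

/-- `K` is (the vertex set of) a connected component of `G - X`. -/
def Comp {V : Type} (G : SimpleGraph V) (X K : Set V) : Prop :=
  (G.induce K).Connected ∧ Disjoint K X ∧ ∀ u ∈ K, ∀ v, G.Adj u v → v ∈ K ∨ v ∈ X

/-- Removing at most two vertices leaves at most one component. -/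
def Conn3 {V : Type} (G : SimpleGraph V) : Prop :=
  ∀ x y K, Comp G {x, y} K → ∀ z, z ≠ x → z ≠ y → z ∈ K

/-- `abw` is a non-separating triangle. -/
def Fac {V : Type} (G : SimpleGraph V) (a b w : V) : Prop :=
  G.Adj a b ∧ G.Adj a w ∧ G.Adj b w ∧
    ∀ K, Comp G {a, b, w} K → ∀ z, z ≠ a → z ≠ b → z ≠ w → z ∈ K

/-- Every vertex outside `X` is in a component of `G - X`. -/
lemma exists_comp {V : Type} (G : SimpleGraph V) (X : Set V) (v : V) (hv : v ∉ X) :
    ∃ K, Comp G X K ∧ v ∈ K := by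
  classical
  let K : Set V := {u | ∃ hu : u ∈ Xᶜ, (G.induce Xᶜ).Reachable ⟨v, hv⟩ ⟨u, hu⟩}
  have hvK : v ∈ K := ⟨hv, Reachable.refl _⟩
  have hcl : ∀ u ∈ K, ∀ w, G.Adj u w → w ∈ K ∨ w ∈ X := by
    rintro u ⟨hu, hr⟩ w hw
    by_cases hwX : w ∈ X
    · exact Or.inr hwX
    · refine Or.inl ⟨hwX, hr.trans (Adj.reachable ?_)⟩
      exact hw
  refine ⟨K, ⟨?_, ?_, hcl⟩, hvK⟩
  · -- connected
    have key : ∀ (x y : ↑(Xᶜ)), (G.induce Xᶜ).Walk x y → ∀ (hx : (x : V) ∈ K) (hy : (y : V) ∈ K),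
        (G.induce K).Reachable ⟨x, hx⟩ ⟨y, hy⟩ := by
      intro x y p
      induction p with
      | nil => intro hx hy; exact Reachable.refl _
      | @cons u w t h p ih =>
        intro hx hy
        have hw : (w : V) ∈ K := by
          rcases hcl u hx w h with h' | h'
          · exact h'
          · exact absurd h' w.2
        exact (Adj.reachable (show (G.induce K).Adj ⟨u, hx⟩ ⟨w, hw⟩ from h)).trans (ih hw hy)
    have : Nonempty K := ⟨⟨v, hvK⟩⟩
    refine { preconnected := ?_ }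
    rintro ⟨x, hx⟩ ⟨y, hy⟩
    obtain ⟨hx', hxr⟩ := hx
    obtain ⟨hy', hyr⟩ := hy
    obtain ⟨p⟩ := hxr.symm.trans hyr
    exact key _ _ p ⟨hx', hxr⟩ ⟨hy', hyr⟩
  · rw [Set.disjoint_left]
    rintro u ⟨hu, _⟩ hX
    exact hu hX

/-- A connected set avoiding `X` and meeting the component `K` of `G - X` lies in `K`. -/
lemma Comp.subset {V : Type} {G : SimpleGraph V} {X K : Set V} (h : Comp G X K) (S : Set V)
    (hS : (G.induce S).Connected) (hSX : Disjoint S X) (v : V) (hvS : v ∈ S) (hvK : v ∈ K) :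
    S ⊆ K := by
  have key : ∀ (x y : S), (G.induce S).Walk x y → (x : V) ∈ K → (y : V) ∈ K := by
    intro x y p
    induction p with
    | nil => exact fun h => h
    | @cons u w t hadj p ih =>
      intro hu
      apply ih
      rcases h.2.2 u hu w hadj with h' | h'
      · exact h'
      · exact absurd h' (Set.disjoint_left.mp hSX w.2)
  intro y hy
  obtain ⟨p⟩ := hS.preconnected ⟨v, hvS⟩ ⟨y, hy⟩
  exact key _ _ p hvK

end Pool.Agent.Helper36.P6
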