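import Pool.Agent.Helper36.P6.Lprime

/-!
# The induction
-/

set_option autoImplicit false
set_option linter.unusedSectionVars false

namespace Pool.Agent.Helper36.P6

open SimpleGraph
open Pool.Agent.Helper36.BL (IsMinor K5Free deg dsum cn del mg)

lemma card_ne (V : Type) [Fintype V] (b : V) [Fintype {x : V // x ≠ b}] :
    Fintype.card {x : V // x ≠ b} = Fintype.card V - 1 := by
  classical
  have h := Fintype.card_subtype_compl (fun x : V => x = b)
  rw [Fintype.card_subtype_eq] at h
  convert h

/-- `G` contracted along the edge `ab`: bound for the degree sum -/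
lemma bd_mg {V : Type} [Fintype V] {G : SimpleGraph V} {p q r : ℕ} (hB : Bd G p q r)
    (h4 : 4 ≤ Fintype.card V) (a b : V) (hab : G.Adj a b) :
    p * dsum G + q ≤ r * (Fintype.card V - 1) + p * (2 + 2 * cn G a b) := by
  classical
  have h1 := hB {x : V // x ≠ b} (mg G a b ∅) (IndMin.mg G a b hab) (by rw [card_ne]; omega)
    (by rw [card_ne]; omega)
  rw [card_ne] at h1
  have h2 := BL.dsum_mg G a b hab.ne
  have h3 : p * dsum G ≤ p * (dsum (mg G a b ∅) + (2 + 2 * cn G a b)) :=
    Nat.mul_le_mul_left p (by omega)
  rw [mul_add] at h3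
  omega

/-- `G` minus a vertex: bound for the degree sum -/
lemma bd_del {V : Type} [Fintype V] {G : SimpleGraph V} {p q r : ℕ} (hB : Bd G p q r)
    (h4 : 4 ≤ Fintype.card V) (v : V) :
    p * dsum G + q ≤ r * (Fintype.card V - 1) + p * (2 * deg G v) := by
  classical
  have h1 := hB {x : V // x ≠ v} (del G v) (IndMin.del G v) (by rw [card_ne]; omega)
    (by rw [card_ne]; omega)
  rw [card_ne] at h1
  rw [BL.dsum_del G v, mul_add]
  omega

/-- The main induction, relative to the base case. -/
theorem main_of_base (hbase : ∀ (V : Type) [Fintype V] (G : SimpleGraph V), InC G →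
    20 ≤ Fintype.card V → dsum G + 12 ≠ 6 * Fintype.card V) :
    ∀ (n : ℕ) (V : Type) [Fintype V] (G : SimpleGraph V), Fintype.card V = n → InC G → 3 ≤ n →
      17 * dsum G + 166 ≤ 100 * n := by
  intro n
  induction n using Nat.strong_induction_on with
  | _ n ih =>
  intro V _ G hV hG hn
  by_contra hcon
  have hM := BL.edge_bound n (dsum G) V G hV rfl hG.1 hn
  have h20 : 20 ≤ n := by omega
  have hB : Bd G 17 166 100 := by
    intro W _ H hH hW3 hWlt
    exact ih _ (by rw [hV] at hWlt; exact hWlt) W H rfl (hG.indMin hH) hW3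
  have hdeg : ∀ v, 3 ≤ deg G v := by
    intro v
    by_contra hv
    have := bd_del hB (by omega) v
    omega
  have hcn : ∀ a b, G.Adj a b → 2 ≤ cn G a b := by
    intro a b hab
    by_contra hv
    have := bd_mg hB (by omega) a b hab
    omega
  have h3 : Conn3 G := by
    by_contra hn3
    have := glue G 17 166 100 (by norm_num) hB hdeg hn3
    omega
  have hj := hbase V G hG (by omega)
  by_cases hF : ∀ a b w K, G.Adj a b → G.Adj a w → G.Adj b w → Comp G {a, b, w} K →
      ∃ z ∈ K, G.Adj a z ∧ G.Adj b z
  · have hv : Nonempty V := by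
      rw [← Fintype.card_pos_iff]; omega
    obtain ⟨v⟩ := hv
    have hne : ∃ a b, G.Adj a b := by
      have h1 := hdeg v
      unfold BL.deg at h1
      obtain ⟨b, hb⟩ := Finset.card_pos.mp (lt_of_lt_of_le (by norm_num) h1)
      exact ⟨v, b, by simpa using hb⟩
    have := Lprime G hG.1 hG.2.1 h3 (by omega) hne (by
      intro a b hab
      have h1 := hcn a b hab
      unfold BL.cn at h1
      obtain ⟨w, hw⟩ := Finset.card_pos.mp (lt_of_lt_of_le (by norm_num) h1)
      exact ⟨w, by simpa using hw⟩) hF
    omega
  · classical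
    push Not at hF
    obtain ⟨a, b, w, K, hab, haw, hbw, hK, hnone⟩ := hF
    obtain ⟨h1, h2⟩ := split_data G K {a, b, w} hK.2.1 hK.2.2
    have hX3 : ({a, b, w} : Set V).ncard = 3 := by
      rw [Set.ncard_eq_three]
      exact ⟨a, b, w, hab.ne, haw.ne, hbw.ne, rfl⟩
    rw [ed_triple G a b w hab haw hbw] at h1
    rw [hX3] at h2
    obtain ⟨⟨u, hu⟩⟩ := hK.1.nonempty
    have hKX : ∀ z ∈ K, z ∉ ({a, b, w} : Set V) := fun z hz h => Set.disjoint_left.mp hK.2.1 hz h
    have haK : a ∉ K := fun h => hKX a h (Or.inl rfl)
    have hbK : b ∉ K := fun h => hKX b h (Or.inr (Or.inl rfl))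
    have hwK : w ∉ K := fun h => hKX w h (Or.inr (Or.inr rfl))
    set A : Set V := K ∪ {a, b, w} with hA
    have haA : a ∈ A := Or.inr (Or.inl rfl)
    have hbA : b ∈ A := Or.inr (Or.inr (Or.inl rfl))
    -- sizes
    have hA4 : 4 ≤ A.ncard := by
      have hs : insert u ({a, b, w} : Set V) ⊆ A := by
        rintro z (h | h)
        · rw [h]; exact Or.inl hu
        · exact Or.inr h
      have h3 : (insert u ({a, b, w} : Set V)).ncard = 4 := by
        rw [Set.ncard_insert_of_notMem (hKX u hu), hX3]
      have := Set.ncard_le_ncard hs (Set.toFinite _)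
      omega
    have hB3 : 3 ≤ Kᶜ.ncard := by
      have hs : ({a, b, w} : Set V) ⊆ Kᶜ := by
        rintro z h hz
        exact hKX z hz h
      have := Set.ncard_le_ncard hs (Set.toFinite _)
      omega
    -- there is a vertex outside A
    have hc2 := hcn a b hab
    have hout : ∃ z, z ∉ A := by
      by_contra hno
      push Not at hno
      unfold BL.cn at hc2
      have hsub : (Finset.univ.filter (fun z => G.Adj a z ∧ G.Adj b z)) ⊆ {w} := by
        intro z hz
        simp only [Finset.mem_filter, Finset.mem_univ, true_and] at hz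
        rw [Finset.mem_singleton]
        rcases hno z with h | h | h | h
        · exact absurd hz.2 (hnone z h hz.1)
        · rw [h] at hz; exact absurd rfl hz.1.ne
        · rw [h] at hz; exact absurd rfl hz.2.ne
        · exact h
      have := Finset.card_le_card hsub
      rw [Finset.card_singleton] at this
      omega
    obtain ⟨z0, hz0⟩ := hout
    have hAlt := ncard_lt_of A z0 hz0
    have hBlt : Kᶜ.ncard < Fintype.card V := ncard_lt_of _ u (fun h => h hu)
    have hB' := bd_induce hB Kᶜ hB3 hBlt
    -- the outer part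
    have instA : Fintype A := Fintype.ofFinite A
    have hcA : Fintype.card A = A.ncard := by
      rw [← Nat.card_eq_fintype_card, Nat.card_coe_set_eq]
    have hBA : Bd (G.induce A) 17 166 100 := by
      intro W _ H hH hW3 hWlt
      exact hB W H (hH.trans (IndMin.induce G A)) hW3 (by omega)
    have habA : (G.induce A).Adj ⟨a, haA⟩ ⟨b, hbA⟩ := hab
    have hmg := bd_mg hBA (by omega) ⟨a, haA⟩ ⟨b, hbA⟩ habA
    have hcn1 : cn (G.induce A) ⟨a, haA⟩ ⟨b, hbA⟩ ≤ 1 := by
      unfold BL.cn
      have hsub : (Finset.univ.filter (fun z : A => (G.induce A).Adj ⟨a, haA⟩ z ∧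
          (G.induce A).Adj ⟨b, hbA⟩ z)) ⊆ {⟨w, Or.inr (Or.inr (Or.inr rfl))⟩} := by
        rintro ⟨z, hz⟩ hmem
        simp only [Finset.mem_filter, Finset.mem_univ, true_and] at hmem
        rw [Finset.mem_singleton]
        have hza : G.Adj a z := hmem.1
        have hzb : G.Adj b z := hmem.2
        apply Subtype.ext
        change z = w
        rcases hz with h | h | h | h
        · exact absurd hzb (hnone z h hza)
        · rw [h] at hza; exact absurd rfl hza.ne
        · rw [h] at hzb; exact absurd rfl hzb.ne
        · exact h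
      have := Finset.card_le_card hsub
      rw [Finset.card_singleton] at this
      exact this
    rw [dsum_induce, hcA] at hmg
    omega

end Pool.Agent.Helper36.P6
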