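import Pool.Agent.Helper36.P6.Codes

/-!
# Enumeration data (level 18)
-/

set_option autoImplicit false
set_option maxRecDepth 100000

namespace Pool.Agent.Helper36.P6

/-- certificates -/
def data18_0 : List (Nat × Nat × List Nat) :=
  [(65185151250292105121730439744877713179181902268379465769479752104842951654987941728602818558, 261120, [349505, 559233, 131585, 8193, 69889, 263169, 16385, 2437292568, 526337, 32769, 2441617812, 4097, 65537, 2445677088, 2445546148, 131073, 2450002332, 2449740452, 262145, 2454327580, 2437292568, 524289, 2458652956, 2441617812, 23511554941173736578852484841474, 2462450224, 2462319284, 2462188476, 2466775468, 2466513588, 2466382780, 2471100716, 2437292568, 2470577084, 2475426092, 2441617812, 2474771388, 2479751340, 2445677088, 2445546148, 2484076716, 2450002332, 2449740452, 2488402092, 2454327580, 2437292568]),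
   (279968092804818101941032062452234089313076953961725051152946888947552685697379342379506768197076387838, 260352, [611649, 297089, 131585, 8193, 594177, 1025, 16385, 2437292568, 264193, 32769, 2441617812, 528385, 65537, 2445677088, 2445546148, 131073, 2450002332, 2449740452, 19711116533902142934314444161026, 2454327580, 2437292568, 262145, 2458652956, 2441617812, 524289, 2462450224, 2462319284, 2462188476, 2466775468, 2466513588, 2466382780, 2471100716, 2437292568, 2470577084, 2475426092, 2441617812, 2474771388, 2479751340, 2445677088, 2445546148, 2484207788, 2454327580, 2437292568, 2488533164, 2458652956, 2441617812]),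
   (279968092804818101944826337631920754638419087881261336764667999788508024900615015215261428092179056638, 260096, [677185, 297089, 66049, 8193, 528641, 132097, 16385, 2437292568, 264193, 32769, 2441617812, 528385, 17175780274596915307074971271170, 2445677088, 2445546148, 65537, 2450002332, 2449740452, 131073, 2454327580, 2437292568, 262145, 2458652956, 2441617812, 524289, 2462450224, 2462319284, 2462188472, 2466775468, 2466513588, 2466382776, 2471100716, 2437292568, 2470577080, 2475557036, 2445677088, 2445546148, 2479882412, 2450002332, 2449740452, 2484207788, 2454327580, 2437292568, 2488533164, 2458652956, 2441617812])]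

theorem ok18_0 : ckLevel 18 L19 data18_0 = true := by decide +kernel

/-- certificates -/
def data18_1 : List (Nat × Nat × List Nat) :=
  [(95268205281964465141665416752916516608362616858474780194689092341561723763641683925344923935415036610754044260410780894900853212849658398718, 231296, [5441, 2177, 513, 1040385, 4353, 1025, 2432710064, 2437292568, 2049, 2436900276, 2441617812, 4097, 2432710064, 2445677088, 2445546148, 2445284796, 2450002332, 2449740452, 2432710064, 2454327580, 2437292568, 2436900276, 2458652956, 2441617812, 2432710064, 737281, 294913, 14636679148431894060183933947906, 2467704848, 589825, 131073, 2471895060, 2470847000, 262145, 2476220436, 2467704848, 524289, 2480410652, 2467704848, 2479100580, 2484736028, 2471895060, 2470847000, 2489061404, 2476220436, 2467704848])]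

theorem ok18_1 : ckLevel 18 L19 data18_1 = true := by decide +kernel

/-- all certificates of the level -/
def data18 : List (List (Nat × Nat × List Nat)) :=
  [data18_0, data18_1]

theorem codes18 : (data18.flatten).map Prod.fst = L18 := by decide +kernel

theorem level18 : ∀ d ∈ data18, ckLevel 18 L19 d = true := by
  intro d hd
  unfold data18 at hd
  simp only [List.mem_cons, List.not_mem_nil, or_false] at hd
  rcases hd with hd | hd
  · rw [hd]; exact ok18_0
  · rw [hd]; exact ok18_1

end Pool.Agent.Helper36.P6
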