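import Pool.Agent.Helper36.P6.Codes

/-!
# Enumeration data (level 19)
-/

set_option autoImplicit false
set_option maxRecDepth 100000

namespace Pool.Agent.Helper36.P6

/-- certificates -/
def data19_0 : List (Nat × Nat × List Nat) :=
  [(559936185609636203889652675263841509276934592045165492035620913173779192897432066738931488355877128190, 522240, [699041, 559233, 131585, 8193, 1118465, 263169, 16385, 2571510296, 526337, 32769, 2575835540, 1052673, 65537, 2579894816, 2579763876, 131073, 2584220060, 2583958180, 262145, 2588545308, 2571510296, 524289, 2592870684, 2575835540, 1048577, 2596667952, 2596537012, 2596406204, 2600993196, 2600731316, 2600600508, 2605318444, 2571510296, 2604794812, 2609643820, 2575835540, 2608989116, 2613969068, 2579894816, 2579763876, 2618294444, 2584220060, 2583958180, 2622619820, 2588545308, 2571510296, 2626945196, 2592870684, 2575835540])]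

theorem ok19_0 : ckLevel 19 L20 data19_0 = true := by decide +kernel

/-- all certificates of the level -/
def data19 : List (List (Nat × Nat × List Nat)) :=
  [data19_0]

theorem codes19 : (data19.flatten).map Prod.fst = L19 := by decide +kernel

theorem level19 : ∀ d ∈ data19, ckLevel 19 L20 d = true := by
  intro d hd
  unfold data19 at hd
  simp only [List.mem_cons, List.not_mem_nil, or_false] at hd
  rw [hd]; exact ok19_0

end Pool.Agent.Helper36.P6
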