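import Pool.Agent.Helper36.P6.Codes

/-!
# Enumeration data (level 3)
-/

set_option autoImplicit false
set_option maxRecDepth 100000

namespace Pool.Agent.Helper36.P6

/-- certificates -/
def data3_0 : List (Nat × Nat × List Nat) :=
  [(17179869190, 7, [102793218])]

theorem ok3_0 : ckLevel 3 L4 data3_0 = true := by decide +kernel

/-- all certificates of the level -/
def data3 : List (List (Nat × Nat × List Nat)) :=
  [data3_0]

theorem codes3 : (data3.flatten).map Prod.fst = L3 := by decide +kernel

theorem level3 : ∀ d ∈ data3, ckLevel 3 L4 d = true := by
  intro d hd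
  unfold data3 at hd
  simp only [List.mem_cons, List.not_mem_nil, or_false] at hd
  rw [hd]; exact ok3_0

end Pool.Agent.Helper36.P6
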