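import Pool.Agent.Helper36.P6.Codes

/-!
# Enumeration data (level 4)
-/

set_option autoImplicit false
set_option maxRecDepth 100000

namespace Pool.Agent.Helper36.P6

/-- certificates -/
def data4_0 : List (Nat × Nat × List Nat) :=
  [(147573952641216020494, 15, [4397760514, 3292561410, 3289513986, 3289387010])]

theorem ok4_0 : ckLevel 4 L5 data4_0 = true := by decide +kernel

/-- all certificates of the level -/
def data4 : List (List (Nat × Nat × List Nat)) :=
  [data4_0]

theorem codes4 : (data4.flatten).map Prod.fst = L4 := by decide +kernel

theorem level4 : ∀ d ∈ data4, ckLevel 4 L5 d = true := by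
  intro d hd
  unfold data4 at hd
  simp only [List.mem_cons, List.not_mem_nil, or_false] at hd
  rw [hd]; exact ok4_0

end Pool.Agent.Helper36.P6
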