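import Pool.Agent.Helper36.P6.Codes

/-!
# Enumeration data (level 5)
-/

set_option autoImplicit false
set_option maxRecDepth 100000

namespace Pool.Agent.Helper36.P6

/-- certificates -/
def data5_0 : List (Nat × Nat × List Nat) :=
  [(442721857889288323102, 24, [33, 176196452354, 142875918338, 142875823106, 139757387778, 139755356162, 139755260930, 176196452358, 4400908294, 4400940038])]

theorem ok5_0 : ckLevel 5 L6 data5_0 = true := by decide +kernel

/-- all certificates of the level -/
def data5 : List (List (Nat × Nat × List Nat)) :=
  [data5_0]

theorem codes5 : (data5.flatten).map Prod.fst = L5 := by decide +kernel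

theorem level5 : ∀ d ∈ data5, ckLevel 5 L6 d = true := by
  intro d hd
  unfold data5 at hd
  simp only [List.mem_cons, List.not_mem_nil, or_false] at hd
  rw [hd]; exact ok5_0

end Pool.Agent.Helper36.P6
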