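import Pool.Agent.Helper36.P6.Codes

/-!
# Enumeration data (level 6)
-/

set_option autoImplicit false
set_option maxRecDepth 100000

namespace Pool.Agent.Helper36.P6

/-- certificates -/
def data6_0 : List (Nat × Nat × List Nat) :=
  [(2535301200899180661020133687358, 48, [65, 129, 6773266219014, 4609641810950, 6773266219010, 6773266219018, 5707073062922, 5607151140866, 5607117619210, 5607117555722, 6773266219022]),
   (10889035744005332031727168098836716453948, 0, [6773266219026, 6773266187282, 6772226031634, 6772225999890, 6705589026834, 6705588995090, 6702468464658, 6702468432914, 2410687791118, 2409647603726, 2343010598926, 2339890036750, 2371900083214, 2371899987982, 2337541393422, 2337541298190, 2238886120462, 2238886025230, 2237845933070, 2237845837838])]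

theorem ok6_0 : ckLevel 6 L7 data6_0 = true := by decide +kernel

/-- all certificates of the level -/
def data6 : List (List (Nat × Nat × List Nat)) :=
  [data6_0]

theorem codes6 : (data6.flatten).map Prod.fst = L6 := by decide +kernel

theorem level6 : ∀ d ∈ data6, ckLevel 6 L7 d = true := by
  intro d hd
  unfold data6 at hd
  simp only [List.mem_cons, List.not_mem_nil, or_false] at hd
  rw [hd]; exact ok6_0

end Pool.Agent.Helper36.P6
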