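import Pool.Agent.Helper36.P6.Codes

/-!
# Enumeration data (level 7)
-/

set_option autoImplicit false
set_option maxRecDepth 100000

namespace Pool.Agent.Helper36.P6

/-- certificates -/
def data7_0 : List (Nat × Nat × List Nat) :=
  [(21778071485475362862555155536928177127550, 96, [161, 129, 253063870840834, 253063870809090, 257, 251997678764034, 251997678732290, 960897560, 253063870840838, 253063870809094, 965222804, 251997678764038, 251997678732294, 253063870840842]),
   (7605903602992689887724357812350, 112, [65, 129, 257, 253063870840846, 218979010379778, 216848705585154, 253063870840850, 218945691877378, 216748782583810, 253030552338450, 215750234177538, 215683629678594, 250900246528018]),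
   (21778071485475362863735747157370710524030, 96, [161, 129, 182763845124098, 183828996950034, 183827957841922, 257, 182762803857426, 218945691877382, 253063870840854, 253063870840858, 215747113615366, 215747113615382, 215747112567834]),
   (93536104810955858250511192156397268794907859878012, 0, [253063870840862, 253063870809118, 251997678764062, 251997678732318, 251897755762718, 251897755730974, 249763291234334, 249763291202590, 249663368232990, 249663368201246, 78276990107658, 77210798030858, 77110875029514, 74976410501130, 74876487499786, 253063870840866, 77142015639586, 77108859634722, 77108859666466, 78206192321570, 78206192353314, 74980636230690, 74980636262434, 75013857215522, 75013857247266]),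
   (10889035749075934433820677325540940578940, 64, [257, 218842609586214, 253063870840870, 218840529179694, 218911333187622, 218906971149358, 253063870840878, 253063870840882, 253063870840874, 253030552338474, 252927470079018, 201, 78276990107682, 201, 201, 78238202399778, 78105188437026])]

theorem ok7_0 : ckLevel 7 L8 data7_0 = true := by decide +kernel

/-- all certificates of the level -/
def data7 : List (List (Nat × Nat × List Nat)) :=
  [data7_0]

theorem codes7 : (data7.flatten).map Prod.fst = L7 := by decide +kernel

theorem level7 : ∀ d ∈ data7, ckLevel 7 L8 d = true := by
  intro d hd
  unfold data7 at hd
  simp only [List.mem_cons, List.not_mem_nil, or_false] at hd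
  rw [hd]; exact ok7_0

end Pool.Agent.Helper36.P6
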