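import Pool.Agent.Helper36.P6.Level
import Pool.Agent.Helper36.P6.Induct
import Pool.Agent.Helper36.P6.Lv3
import Pool.Agent.Helper36.P6.Lv4
import Pool.Agent.Helper36.P6.Lv5
import Pool.Agent.Helper36.P6.Lv6
import Pool.Agent.Helper36.P6.Lv7
import Pool.Agent.Helper36.P6.Lv8
import Pool.Agent.Helper36.P6.Lv9
import Pool.Agent.Helper36.P6.Lv10
import Pool.Agent.Helper36.P6.Lv11
import Pool.Agent.Helper36.P6.Lv12
import Pool.Agent.Helper36.P6.Lv13
import Pool.Agent.Helper36.P6.Lv14
import Pool.Agent.Helper36.P6.Lv15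
import Pool.Agent.Helper36.P6.Lv16
import Pool.Agent.Helper36.P6.Lv17
import Pool.Agent.Helper36.P6.Lv18
import Pool.Agent.Helper36.P6.Lv19

/-!
# No `P₆`-free triangulation on at least 20 vertices; the theorem
-/

set_option autoImplicit false
set_option linter.unusedSectionVars false

namespace Pool.Agent.Helper36.P6

open SimpleGraph
open Pool.Agent.Helper36.BL (IsMinor K5Free deg dsum cn del mg)

/-- all `Tri` graphs on `n` vertices are represented in `data` -/
def Cov (n : ℕ) (data : List (List (ℕ × ℕ × List ℕ))) : Prop :=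
  ∀ (W : Type) [Fintype W] (G : SimpleGraph W), Tri G → Fintype.card W = n →
    ∃ t ∈ data.flatten, RepN n G (adj t.1)

lemma cov3 : Cov 3 data3 := by
  classical
  intro W _ G hG hW
  have h1 := hG.2
  rw [hW] at h1
  have hdeg : ∀ v, deg G v ≤ 2 := by
    intro v
    have := BL.deg_lt_card G v
    omega
  have hall : ∀ v, deg G v = 2 := by
    intro v
    by_contra hv
    have hlt : ∑ v, deg G v < ∑ _v : W, 2 :=
      Finset.sum_lt_sum (fun v _ => hdeg v) ⟨v, Finset.mem_univ _, lt_of_le_of_ne (hdeg v) hv⟩
    simp only [Finset.sum_const, Finset.card_univ, hW, smul_eq_mul] at hlt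
    have : dsum G = ∑ v, deg G v := rfl
    omega
  have hadj : ∀ x y, x ≠ y → G.Adj x y := by
    intro x y hxy
    by_contra hn
    have hsub : Finset.univ.filter (fun z => G.Adj x z) ⊆ (Finset.univ.erase x).erase y := by
      intro z hz
      simp only [Finset.mem_filter, Finset.mem_univ, true_and] at hz
      simp only [Finset.mem_erase, Finset.mem_univ, and_true]
      exact ⟨fun h => hn (h ▸ hz), hz.ne'⟩
    have h2 := Finset.card_le_card hsub
    rw [← deg_eq, hall x, Finset.card_erase_of_mem (by simp [hxy.symm]),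
      Finset.card_erase_of_mem (Finset.mem_univ _), Finset.card_univ, hW] at h2
    omega
  have hmem : data3.flatten.head! ∈ data3.flatten := by
    have h5 : data3.flatten ≠ [] := by unfold data3 data3_0; simp
    exact List.head!_mem_self h5
  refine ⟨_, hmem, ?_⟩
  have e : W ≃ Fin 3 := Fintype.equivFinOfCardEq hW
  refine ⟨e, ?_⟩
  intro x y
  have key : ∀ i j : Fin 3, i ≠ j → adj (data3.flatten.head!).1 i j = true := by decide +kernel
  constructor
  · intro h
    exact key _ _ (fun h' => h.ne (e.injective h'))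
  · intro h
    apply hadj
    rintro rfl
    rw [adj_self] at h
    exact absurd h (by simp)

lemma cov_succ (m : ℕ) (hm : 3 ≤ m) (L : List ℕ) (data data' : List (List (ℕ × ℕ × List ℕ)))
    (hck : ∀ d ∈ data, ckLevel m L d = true) (hL : data'.flatten.map Prod.fst = L)
    (h : Cov m data) : Cov (m + 1) data' := by
  intro V _ H hH hV
  obtain ⟨g, hg, hr⟩ := step_sound m hm L data.flatten (by
    intro t ht
    obtain ⟨d, hd, htd⟩ := List.mem_flatten.mp ht
    exact ckLevel_spec m L d (hck d hd) t htd) h V H hH hV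
  rw [← hL, List.mem_map] at hg
  obtain ⟨t, ht, he⟩ := hg
  exact ⟨t, ht, by rw [he]; exact hr⟩

lemma cov4 : Cov 4 data4 := cov_succ 3 (by norm_num) L4 data3 data4 level3 codes4 cov3
lemma cov5 : Cov 5 data5 := cov_succ 4 (by norm_num) L5 data4 data5 level4 codes5 cov4
lemma cov6 : Cov 6 data6 := cov_succ 5 (by norm_num) L6 data5 data6 level5 codes6 cov5
lemma cov7 : Cov 7 data7 := cov_succ 6 (by norm_num) L7 data6 data7 level6 codes7 cov6
lemma cov8 : Cov 8 data8 := cov_succ 7 (by norm_num) L8 data7 data8 level7 codes8 cov7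
lemma cov9 : Cov 9 data9 := cov_succ 8 (by norm_num) L9 data8 data9 level8 codes9 cov8
lemma cov10 : Cov 10 data10 := cov_succ 9 (by norm_num) L10 data9 data10 level9 codes10 cov9
lemma cov11 : Cov 11 data11 := cov_succ 10 (by norm_num) L11 data10 data11 level10 codes11 cov10
lemma cov12 : Cov 12 data12 := cov_succ 11 (by norm_num) L12 data11 data12 level11 codes12 cov11
lemma cov13 : Cov 13 data13 := cov_succ 12 (by norm_num) L13 data12 data13 level12 codes13 cov12
lemma cov14 : Cov 14 data14 := cov_succ 13 (by norm_num) L14 data13 data14 level13 codes14 cov13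
lemma cov15 : Cov 15 data15 := cov_succ 14 (by norm_num) L15 data14 data15 level14 codes15 cov14
lemma cov16 : Cov 16 data16 := cov_succ 15 (by norm_num) L16 data15 data16 level15 codes16 cov15
lemma cov17 : Cov 17 data17 := cov_succ 16 (by norm_num) L17 data16 data17 level16 codes17 cov16
lemma cov18 : Cov 18 data18 := cov_succ 17 (by norm_num) L18 data17 data18 level17 codes18 cov17
lemma cov19 : Cov 19 data19 := cov_succ 18 (by norm_num) L19 data18 data19 level18 codes19 cov18

lemma no20 (V : Type) [Fintype V] (H : SimpleGraph V) (hH : Tri H) (hV : Fintype.card V = 20) :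
    False := by
  obtain ⟨g, hg, _⟩ := step_sound 19 (by norm_num) L20 data19.flatten (by
    intro t ht
    obtain ⟨d, hd, htd⟩ := List.mem_flatten.mp ht
    exact ckLevel_spec 19 L20 d (level19 d hd) t htd) cov19 V H hH hV
  have : L20 = [] := rfl
  rw [this] at hg
  exact absurd hg List.not_mem_nil

/-- reduction to a smaller graph -/
lemma Tri.smaller {V : Type} [Fintype V] {H : SimpleGraph V} (hH : Tri H)
    (h4 : 4 ≤ Fintype.card V) : ∃ (v : V) (_ : Fintype {x : V // x ≠ v})
      (G : SimpleGraph {x : V // x ≠ v}), Tri G := by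
  classical
  by_cases h3 : ∃ v, deg H v = 3
  · obtain ⟨v, hv⟩ := h3
    exact ⟨v, inferInstance, BL.del H v, hH.del h4 v hv⟩
  · have hdeg4 : ∀ v, 4 ≤ deg H v := by
      intro v
      have h1 := hH.deg_ge h4 v
      have h2 : deg H v ≠ 3 := fun h => h3 ⟨v, h⟩
      omega
    by_cases h4' : ∃ v, deg H v = 4
    · obtain ⟨v, hv⟩ := h4'
      obtain ⟨a, b, c, d, hne, hbd, hnac, hab, hbc, hcd, hda, hN⟩ := hH.nb4 h4 v hv
      have hav : H.Adj a v := ((hN a).mpr (Or.inl rfl)).symm
      have hcn2 : cn H a v = 2 := by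
        have h1 := hH.cn_ge h4 a v hav
        have h2 : cn H a v ≤ 2 := by
          rw [cn_eq]
          have hsub : Finset.univ.filter (fun x => H.Adj a x ∧ H.Adj v x) ⊆ {b, d} := by
            intro x hx
            simp only [Finset.mem_filter, Finset.mem_univ, true_and] at hx
            simp only [Finset.mem_insert, Finset.mem_singleton]
            rcases (hN x).mp hx.2 with h | h | h | h
            · rw [h] at hx; exact absurd rfl hx.1.ne
            · exact Or.inl h
            · rw [h] at hx; exact absurd hx.1 hnac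
            · exact Or.inr h
          exact le_trans (Finset.card_le_card hsub) Finset.card_le_two
        omega
      exact ⟨v, inferInstance, BL.mg H a v ∅, hH.mg h4 a v hav hcn2⟩
    · have hdeg5 : ∀ v, 5 ≤ deg H v := by
        intro v
        have h1 := hdeg4 v
        have h2 : deg H v ≠ 4 := fun h => h4' ⟨v, h⟩
        omega
      obtain ⟨v, a, hv5, hav, hcn2⟩ := hH.five h4 hdeg5
      exact ⟨v, inferInstance, BL.mg H a v ∅, hH.mg h4 a v hav hcn2⟩

lemma no_ge20 : ∀ (n : ℕ), 20 ≤ n → ∀ (V : Type) [Fintype V] (H : SimpleGraph V), Tri H →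
    Fintype.card V = n → False := by
  intro n hn
  induction n, hn using Nat.le_induction with
  | base => intro V _ H hH hV; exact no20 V H hH hV
  | succ n hn ih =>
    intro V _ H hH hV
    obtain ⟨v, inst, G, hG⟩ := hH.smaller (by omega)
    exact ih {x : V // x ≠ v} G hG (by rw [card_ne', hV]; rfl)

/-- The bound in terms of the degree sum. -/
theorem main {V : Type} [Fintype V] (G : SimpleGraph V) (hK5 : K5Free G) (hK33 : K33Free G)
    (hP : ¬ Nonempty (pathGraph 6 ↪g G)) (h3 : 3 ≤ Fintype.card V) :
    17 * dsum G + 166 ≤ 100 * Fintype.card V :=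
  main_of_base (fun V _ G hG h20 h => no_ge20 (Fintype.card V) h20 V G ⟨hG, h⟩ rfl)
    (Fintype.card V) V G rfl ⟨hK5, hK33, fun h => hP (lift_P6 G h)⟩ h3

lemma dsum_edges {V : Type} [Fintype V] (G : SimpleGraph V) : dsum G = 2 * G.edgeSet.ncard := by
  classical
  have h1 := G.sum_degrees_eq_twice_card_edges
  have h2 : dsum G = ∑ v, G.degree v := by
    unfold BL.dsum
    apply Finset.sum_congr rfl
    intro v _
    rw [deg_eq, ← SimpleGraph.card_neighborFinset_eq_degree]
    congr 1
    ext x; simp
  rw [h2, h1, Set.ncard_eq_toFinset_card']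
  rfl

theorem final (n : ℕ) (hn : 20 ≤ n) (G : SimpleGraph (Fin n)) (hK5 : K5Free G) (hK33 : K33Free G)
    (hP : ¬ Nonempty (pathGraph 6 ↪g G)) : G.edgeSet.ncard ≤ 50 * (n - 2) / 17 + 1 := by
  have h := main G hK5 hK33 hP (by rw [Fintype.card_fin]; omega)
  rw [dsum_edges, Fintype.card_fin] at h
  omega

end Pool.Agent.Helper36.P6
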