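import Pool.Agent.Helper36.P6.Count

/-!
# Cut sets of size at most two
-/

set_option autoImplicit false

namespace Pool.Agent.Helper36.P6

open SimpleGraph
open Pool.Agent.Helper36.BL (IsMinor K5Free deg dsum cn del mg)

variable {V : Type} [Fintype V]

/-- A linear bound for all smaller induced minors. -/
def Bd (G : SimpleGraph V) (p q r : ℕ) : Prop :=
  ∀ (W : Type) [Fintype W] (H : SimpleGraph W), IndMin H G → 3 ≤ Fintype.card W →
    Fintype.card W < Fintype.card V → p * dsum H + q ≤ r * Fintype.card W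

lemma bd_induce {G : SimpleGraph V} {p q r : ℕ} (hB : Bd G p q r) (A : Set V) (h3 : 3 ≤ A.ncard)
    (hlt : A.ncard < Fintype.card V) : p * ed G A + q ≤ r * A.ncard := by
  classical
  have : Fintype A := Fintype.ofFinite A
  have hc : Fintype.card A = A.ncard := by
    rw [← Nat.card_eq_fintype_card, Nat.card_coe_set_eq]
  have := hB A (G.induce A) (IndMin.induce G A) (by rw [hc]; exact h3) (by rw [hc]; exact hlt)
  rw [dsum_induce, hc] at this
  exact this

lemma bd_cg {G : SimpleGraph V} {p q r : ℕ} (hB : Bd G p q r) (A : Set V) (h3 : 3 ≤ A.ncard)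
    (hlt : A.ncard < Fintype.card V) (x y : V) (K : Set V)
    (hK : (G.induce K).Connected) (hAK : Disjoint K A) (hxK : ∃ k ∈ K, G.Adj x k)
    (hx : x ∈ A) (hy : y ∈ A) (hxy : x ≠ y) (hn : ¬ G.Adj x y) (hk : ∃ k ∈ K, G.Adj k y) :
    p * (ed G A + 2) + q ≤ r * A.ncard := by
  classical
  have : Fintype A := Fintype.ofFinite A
  have hc : Fintype.card A = A.ncard := by
    rw [← Nat.card_eq_fintype_card, Nat.card_coe_set_eq]
  have h1 := hB A (cg G A x K) (IndMin.cg G A x K hK hAK hxK) (by rw [hc]; exact h3)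
    (by rw [hc]; exact hlt)
  have h2 := ed_cg G A x y K hx hy hxy hn hk
  rw [hc] at h1
  have h3 := Nat.mul_le_mul_left p h2
  omega

lemma deg_lt_ncard (G : SimpleGraph V) (u : V) (A : Set V) (hu : u ∈ A)
    (h : ∀ v, G.Adj u v → v ∈ A) : deg G u + 1 ≤ A.ncard := by
  classical
  unfold BL.deg
  have hsub : ((insert u (Finset.univ.filter (fun x => G.Adj u x)) : Finset V) : Set V) ⊆ A := by
    intro v hv
    simp only [Finset.coe_insert, Finset.coe_filter, Finset.mem_univ, true_and,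
      Set.mem_insert_iff, Set.mem_ofPred_eq] at hv
    rcases hv with rfl | hv
    · exact hu
    · exact h v hv
  have h1 := Set.ncard_le_ncard hsub (Set.toFinite _)
  rw [Set.ncard_coe_finset, Finset.card_insert_of_notMem] at h1
  · exact h1
  · simp

/-- numerical data of a separation -/
lemma split_data (G : SimpleGraph V) (K X : Set V) (hKX : Disjoint K X)
    (hcl : ∀ u ∈ K, ∀ v, G.Adj u v → v ∈ K ∨ v ∈ X) :
    ed G (K ∪ X) + ed G Kᶜ = dsum G + ed G X ∧
      (K ∪ X).ncard + Kᶜ.ncard = Fintype.card V + X.ncard := by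
  have hint : (K ∪ X) ∩ Kᶜ = X := by
    ext z
    simp only [Set.mem_inter_iff, Set.mem_union, Set.mem_compl_iff]
    constructor
    · rintro ⟨h | h, h'⟩
      · exact absurd h h'
      · exact h
    · intro h
      exact ⟨Or.inr h, fun h' => Set.disjoint_left.mp hKX h' h⟩
  have huni : (K ∪ X) ∪ Kᶜ = Set.univ := by
    ext z
    simp only [Set.mem_union, Set.mem_compl_iff, Set.mem_univ, iff_true]
    tauto
  constructor
  · have := ed_split G (K ∪ X) Kᶜ huni (by
      intro u hu hu' v hv hv' hadj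
      have huK : u ∈ K := not_not.mp hu'
      rcases hcl u huK v hadj with h | h
      · exact hv h
      · exact hv' (Or.inr h))
    rw [this, hint]
  · have := Set.ncard_union_add_ncard_inter (K ∪ X) Kᶜ (Set.toFinite _) (Set.toFinite _)
    rw [huni, hint, Set.ncard_univ, Nat.card_eq_fintype_card] at this
    omega

lemma ncard_lt_of (A : Set V) (z : V) (hz : z ∉ A) : A.ncard < Fintype.card V := by
  rw [← Nat.card_eq_fintype_card, ← Set.ncard_univ]
  apply Set.ncard_lt_ncard _ (Set.toFinite _)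
  rw [Set.ssubset_univ_iff]
  intro h
  rw [h] at hz
  exact hz trivial

/-- a cut vertex (or a disconnected graph) -/
lemma sep1 (G : SimpleGraph V) (p q r : ℕ) (hB : Bd G p q r) (hdeg : ∀ v, 3 ≤ deg G v)
    (x : V) (K : Set V) (hK : K.Nonempty) (hxK : x ∉ K)
    (hcl : ∀ u ∈ K, ∀ v, G.Adj u v → v ∈ K ∨ v = x) (z : V) (hz : z ∉ K) (hzx : z ≠ x) :
    p * dsum G + 2 * q ≤ r * (Fintype.card V + 1) := by
  have hKX : Disjoint K {x} := by
    rw [Set.disjoint_singleton_right]; exact hxK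
  obtain ⟨h1, h2⟩ := split_data G K {x} hKX (by
    intro u hu v hv
    exact hcl u hu v hv)
  rw [ed_singleton, Set.ncard_singleton] at *
  obtain ⟨u, hu⟩ := hK
  have hA : 3 ≤ (K ∪ {x}).ncard := by
    have := deg_lt_ncard G u (K ∪ {x}) (Or.inl hu) (fun v hv => hcl u hu v hv)
    have := hdeg u
    omega
  have hBc : 3 ≤ Kᶜ.ncard := by
    have := deg_lt_ncard G z Kᶜ hz (by
      intro v hv hvK
      rcases hcl v hvK z hv.symm with h | h
      · exact hz h
      · exact hzx h)
    have := hdeg z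
    omega
  have hA' := bd_induce hB (K ∪ {x}) hA (ncard_lt_of _ z (by
    rintro (h | h)
    · exact hz h
    · exact hzx h))
  have hB' := bd_induce hB Kᶜ hBc (ncard_lt_of _ u (fun h => h hu))
  have h3 : p * (ed G (K ∪ {x}) + ed G Kᶜ) + 2 * q ≤ r * ((K ∪ {x}).ncard + Kᶜ.ncard) := by
    rw [mul_add, mul_add]; omega
  rw [h1, h2] at h3
  simpa using h3

lemma sep2 (G : SimpleGraph V) (p q r : ℕ) (hB : Bd G p q r)
    (x y : V) (hxy : x ≠ y) (K K' : Set V) (hK : Comp G {x, y} K) (hK' : Comp G {x, y} K')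
    (hdisj : Disjoint K K') (hx : ∃ k ∈ K, G.Adj x k) (hy : ∃ k ∈ K, G.Adj y k)
    (hx' : ∃ k ∈ K', G.Adj x k) (hy' : ∃ k ∈ K', G.Adj y k) :
    p * dsum G + 2 * q + 2 * p ≤ r * (Fintype.card V + 2) := by
  obtain ⟨h1, h2⟩ := split_data G K {x, y} hK.2.1 hK.2.2
  rw [Set.ncard_pair hxy] at h2
  obtain ⟨⟨u, hu⟩⟩ := hK.1.nonempty
  obtain ⟨⟨z, hz⟩⟩ := hK'.1.nonempty
  have hxK : x ∉ K := fun h => Set.disjoint_left.mp hK.2.1 h (Or.inl rfl)
  have hyK : y ∉ K := fun h => Set.disjoint_left.mp hK.2.1 h (Or.inr rfl)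
  have hxK' : x ∉ K' := fun h => Set.disjoint_left.mp hK'.2.1 h (Or.inl rfl)
  have hyK' : y ∉ K' := fun h => Set.disjoint_left.mp hK'.2.1 h (Or.inr rfl)
  have hzK : z ∉ K := fun h => Set.disjoint_left.mp hdisj h hz
  have hzA : z ∉ K ∪ {x, y} := by
    rintro (h | h | h)
    · exact hzK h
    · exact hxK' (h ▸ hz)
    · exact hyK' (h ▸ hz)
  have hA : 3 ≤ (K ∪ {x, y}).ncard := by
    have hs : ({u, x, y} : Set V) ⊆ K ∪ {x, y} := by
      rintro w (h | h | h)
      · exact Or.inl (h ▸ hu)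
      · exact Or.inr (Or.inl h)
      · exact Or.inr (Or.inr h)
    have h3 : ({u, x, y} : Set V).ncard = 3 := by
      rw [Set.ncard_eq_three]
      exact ⟨u, x, y, fun h => hxK (h ▸ hu), fun h => hyK (h ▸ hu), hxy, rfl⟩
    have := Set.ncard_le_ncard hs (Set.toFinite _)
    omega
  have hBc : 3 ≤ Kᶜ.ncard := by
    have hs : ({z, x, y} : Set V) ⊆ Kᶜ := by
      rintro w (h | h | h)
      · rw [h]; exact hzK
      · rw [h]; exact hxK
      · rw [h]; exact hyK
    have h3 : ({z, x, y} : Set V).ncard = 3 := by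
      rw [Set.ncard_eq_three]
      exact ⟨z, x, y, fun h => hxK' (h ▸ hz), fun h => hyK' (h ▸ hz), hxy, rfl⟩
    have := Set.ncard_le_ncard hs (Set.toFinite _)
    omega
  have hAlt := ncard_lt_of _ z hzA
  have hBlt : Kᶜ.ncard < Fintype.card V := ncard_lt_of _ u (fun h => h hu)
  by_cases hadj : G.Adj x y
  · rw [ed_pair G x y hadj] at h1
    have hA' := bd_induce hB (K ∪ {x, y}) hA hAlt
    have hB' := bd_induce hB Kᶜ hBc hBlt
    have h3 : p * (ed G (K ∪ {x, y}) + ed G Kᶜ) + 2 * q ≤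
        r * ((K ∪ {x, y}).ncard + Kᶜ.ncard) := by
      rw [mul_add, mul_add]; omega
    rw [h1, h2, mul_add p] at h3
    omega
  · rw [ed_pair_le G x y hadj] at h1
    have hA' := bd_cg hB (K ∪ {x, y}) hA hAlt x y K' hK'.1 (by
      rw [Set.disjoint_left]
      rintro w hw (h | h | h)
      · exact Set.disjoint_left.mp hdisj h hw
      · exact hxK' (h ▸ hw)
      · exact hyK' (h ▸ hw)) hx' (Or.inr (Or.inl rfl)) (Or.inr (Or.inr rfl)) hxy hadj
      (by obtain ⟨k, hk, h⟩ := hy'; exact ⟨k, hk, h.symm⟩)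
    have hB' := bd_cg hB Kᶜ hBc hBlt x y K hK.1 disjoint_compl_right hx hxK hyK hxy hadj
      (by obtain ⟨k, hk, h⟩ := hy; exact ⟨k, hk, h.symm⟩)
    have h3 : p * ((ed G (K ∪ {x, y}) + ed G Kᶜ) + 4) + 2 * q ≤
        r * ((K ∪ {x, y}).ncard + Kᶜ.ncard) := by
      have e1 : p * ((ed G (K ∪ {x, y}) + ed G Kᶜ) + 4) =
        p * (ed G (K ∪ {x, y}) + 2) + p * (ed G Kᶜ + 2) := by ring
      rw [e1, mul_add r]; omega
    rw [h1, h2] at h3
    have e2 : p * (dsum G + 0 + 4) = p * dsum G + 4 * p := by ring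
    rw [e2] at h3
    omega

/-- If `G` is not 3-connected then the bound holds. -/
theorem glue (G : SimpleGraph V) (p q r : ℕ) (hpr : 2 * p ≤ r) (hB : Bd G p q r)
    (hdeg : ∀ v, 3 ≤ deg G v) (hn : ¬ Conn3 G) :
    p * dsum G + 2 * q + 2 * p ≤ r * (Fintype.card V + 2) := by
  -- one-vertex cuts
  have one : ∀ (x : V) (K : Set V), K.Nonempty → x ∉ K →
      (∀ u ∈ K, ∀ v, G.Adj u v → v ∈ K ∨ v = x) → ∀ z, z ∉ K → z ≠ x →
      p * dsum G + 2 * q + 2 * p ≤ r * (Fintype.card V + 2) := by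
    intro x K hK hxK hcl z hz hzx
    have := sep1 G p q r hB hdeg x K hK hxK hcl z hz hzx
    have e : r * (Fintype.card V + 2) = r * (Fintype.card V + 1) + r := by ring
    rw [e]
    omega
  unfold Conn3 at hn
  push Not at hn
  obtain ⟨x, y, K, hK, z, hzx, hzy, hzK⟩ := hn
  have hxK : x ∉ K := fun h => Set.disjoint_left.mp hK.2.1 h (Or.inl rfl)
  have hyK : y ∉ K := fun h => Set.disjoint_left.mp hK.2.1 h (Or.inr rfl)
  have hKne : K.Nonempty := by
    obtain ⟨⟨u, hu⟩⟩ := hK.1.nonempty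
    exact ⟨u, hu⟩
  by_cases hxy : x = y
  · subst hxy
    exact one x K hKne hxK (fun u hu v hv => by
      rcases hK.2.2 u hu v hv with h | h | h
      · exact Or.inl h
      · exact Or.inr h
      · exact Or.inr h) z hzK hzx
  · have hadj : ∀ K : Set V, Comp G {x, y} K → (∃ k ∈ K, G.Adj x k) ∧ (∃ k ∈ K, G.Adj y k) ∨
        p * dsum G + 2 * q + 2 * p ≤ r * (Fintype.card V + 2) := by
      intro K hK
      have hxK : x ∉ K := fun h => Set.disjoint_left.mp hK.2.1 h (Or.inl rfl)
      have hyK : y ∉ K := fun h => Set.disjoint_left.mp hK.2.1 h (Or.inr rfl)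
      have hKne : K.Nonempty := by
        obtain ⟨⟨u, hu⟩⟩ := hK.1.nonempty
        exact ⟨u, hu⟩
      by_cases h1 : ∃ k ∈ K, G.Adj x k
      · by_cases h2 : ∃ k ∈ K, G.Adj y k
        · exact Or.inl ⟨h1, h2⟩
        · right
          push Not at h2
          exact one x K hKne hxK (fun u hu v hv => by
            rcases hK.2.2 u hu v hv with h | h | h
            · exact Or.inl h
            · exact Or.inr h
            · rw [h] at hv; exact absurd hv.symm (h2 u hu)) y hyK (fun h => hxy h.symm)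
      · right
        push Not at h1
        exact one y K hKne hyK (fun u hu v hv => by
          rcases hK.2.2 u hu v hv with h | h | h
          · exact Or.inl h
          · rw [h] at hv; exact absurd hv.symm (h1 u hu)
          · exact Or.inr h) x hxK hxy
    obtain ⟨K', hK', hzK'⟩ := exists_comp G {x, y} z (by
      rintro (h | h)
      · exact hzx h
      · exact hzy h)
    have hdisj : Disjoint K K' := by
      rw [Set.disjoint_left]
      intro w hw hw'
      exact hzK (hK.subset K' hK'.1 hK'.2.1 w hw' hw hzK')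
    rcases hadj K hK with ⟨h1, h2⟩ | h
    · rcases hadj K' hK' with ⟨h1', h2'⟩ | h
      · exact sep2 G p q r hB x y hxy K K' hK hK' hdisj h1 h2 h1' h2'
      · exact h
    · exact h

end Pool.Agent.Helper36.P6
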