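import Pool.Agent.Helper36.P6.Defs

/-!
# Induced minors
-/

set_option autoImplicit false

namespace Pool.Agent.Helper36.P6

open SimpleGraph
open Pool.Agent.Helper36.BL (IsMinor K5Free deg dsum cn del mg)

variable {V W U : Type}

lemma IndMin.isMinor {H : SimpleGraph W} {G : SimpleGraph V} (h : IndMin H G) : IsMinor H G := by
  obtain ⟨B, h1, h2, h3⟩ := h
  exact ⟨B, h1, h2, fun w w' hw => (h3 w w' hw.ne).mp hw⟩

theorem IndMin.trans {K : SimpleGraph U} {H : SimpleGraph W} {G : SimpleGraph V}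
    (h₁ : IndMin K H) (h₂ : IndMin H G) : IndMin K G := by
  obtain ⟨C, hC1, hC2, hC3⟩ := h₁
  obtain ⟨B, hB1, hB2, hB3⟩ := h₂
  refine ⟨fun k => {x | ∃ w ∈ C k, x ∈ B w}, ?_, ?_, ?_⟩
  · intro k
    change (G.induce {x | ∃ w ∈ C k, x ∈ B w}).Connected
    set D : Set V := {x | ∃ w ∈ C k, x ∈ B w} with hD
    have hsub : ∀ w ∈ C k, B w ⊆ D := fun w hw x hx => ⟨w, hw, hx⟩
    have hin : ∀ w (hw : w ∈ C k) x y (hx : x ∈ B w) (hy : y ∈ B w),
        (G.induce D).Reachable ⟨x, hsub w hw hx⟩ ⟨y, hsub w hw hy⟩ := by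
      intro w hw x y hx hy
      exact Pool.Agent.Helper36.BL.reach_mono G (hsub w hw) hx hy
        ((hB1 w).preconnected ⟨x, hx⟩ ⟨y, hy⟩)
    have hwalk : ∀ (w w' : C k), (H.induce (C k)).Walk w w' →
        ∀ x y (hx : x ∈ B w) (hy : y ∈ B w'),
        (G.induce D).Reachable ⟨x, hsub w w.2 hx⟩ ⟨y, hsub w' w'.2 hy⟩ := by
      intro w w' p
      induction p with
      | @nil u => intro x y hx hy; exact hin u u.2 x y hx hy
      | @cons u v t hadj p ih =>
        intro x y hx hy
        have hadj' : H.Adj (u : W) (v : W) := hadj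
        obtain ⟨a, ha, b, hb, hab⟩ := (hB3 u v hadj'.ne).mp hadj'
        have h1 := hin u u.2 x a hx ha
        have h2 : (G.induce D).Reachable ⟨a, hsub u u.2 ha⟩ ⟨b, hsub v v.2 hb⟩ :=
          Adj.reachable hab
        exact (h1.trans h2).trans (ih b y hb hy)
    obtain ⟨⟨w0, hw0⟩⟩ := (hC1 k).nonempty
    obtain ⟨⟨x0, hx0⟩⟩ := (hB1 w0).nonempty
    refine { preconnected := ?_, nonempty := ⟨⟨x0, hsub w0 hw0 hx0⟩⟩ }
    rintro ⟨x, w, hw, hx⟩ ⟨y, w', hw', hy⟩
    obtain ⟨p⟩ := (hC1 k).preconnected ⟨w, hw⟩ ⟨w', hw'⟩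
    exact hwalk _ _ p x y hx hy
  · intro k k' hkk
    rw [Set.disjoint_left]
    rintro x ⟨w, hw, hx⟩ ⟨w', hw', hx'⟩
    by_cases h : w = w'
    · subst h
      exact Set.disjoint_left.mp (hC2 k k' hkk) hw hw'
    · exact Set.disjoint_left.mp (hB2 w w' h) hx hx'
  · intro k k' hkk
    constructor
    · intro hadj
      obtain ⟨w, hw, w', hw', hww⟩ := (hC3 k k' hkk).mp hadj
      obtain ⟨a, ha, b, hb, hab⟩ := (hB3 w w' hww.ne).mp hww
      exact ⟨a, ⟨w, hw, ha⟩, b, ⟨w', hw', hb⟩, hab⟩
    · rintro ⟨a, ⟨w, hw, ha⟩, b, ⟨w', hw', hb⟩, hab⟩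
      have hne : w ≠ w' := by
        intro h
        subst h
        exact Set.disjoint_left.mp (hC2 k k' hkk) hw hw'
      exact (hC3 k k' hkk).mpr ⟨w, hw, w', hw', (hB3 w w' hne).mpr ⟨a, ha, b, hb, hab⟩⟩

lemma singleton_connected (G : SimpleGraph V) (v : V) : (G.induce {v}).Connected := by
  apply Pool.Agent.Helper36.BL.star_connected G {v} v (Set.mem_singleton _)
  intro x hx hne
  exact absurd hx hne

theorem IndMin.of_inj {H : SimpleGraph W} {G : SimpleGraph V} (f : W → V)
    (hf : Function.Injective f) (h : ∀ w w', H.Adj w w' ↔ G.Adj (f w) (f w')) : IndMin H G := by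
  refine ⟨fun w => {f w}, fun w => singleton_connected G _, ?_, ?_⟩
  · intro w w' hne
    rw [Set.disjoint_singleton]
    exact fun h => hne (hf h)
  · intro w w' _
    constructor
    · intro hadj
      exact ⟨f w, rfl, f w', rfl, (h w w').mp hadj⟩
    · rintro ⟨a, ha, b, hb, hab⟩
      rw [Set.mem_singleton_iff] at ha hb
      subst ha; subst hb
      exact (h w w').mpr hab

theorem IndMin.induce (G : SimpleGraph V) (A : Set V) : IndMin (G.induce A) G :=
  IndMin.of_inj Subtype.val Subtype.val_injective (fun _ _ => Iff.rfl)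

theorem IndMin.del (G : SimpleGraph V) (v : V) : IndMin (BL.del G v) G :=
  IndMin.of_inj Subtype.val Subtype.val_injective (fun _ _ => Iff.rfl)

/-- Contract the connected set `K` into the vertex `x` of `A` and delete the other vertices
outside `A`. -/
def cg (G : SimpleGraph V) (A : Set V) (x : V) (K : Set V) : SimpleGraph A where
  Adj u v := u ≠ v ∧ (G.Adj u v ∨ ((u : V) = x ∧ ∃ k ∈ K, G.Adj k v) ∨
    ((v : V) = x ∧ ∃ k ∈ K, G.Adj k u))
  symm := by
    refine ⟨?_⟩
    rintro u v ⟨hne, h⟩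
    refine ⟨hne.symm, ?_⟩
    rcases h with h | h | h
    · exact Or.inl h.symm
    · exact Or.inr (Or.inr h)
    · exact Or.inr (Or.inl h)
  loopless := ⟨fun x h => h.1 rfl⟩

lemma cg_adj (G : SimpleGraph V) (A : Set V) (x : V) (K : Set V) (u v : A) :
    (cg G A x K).Adj u v ↔ u ≠ v ∧ (G.Adj u v ∨ ((u : V) = x ∧ ∃ k ∈ K, G.Adj k v) ∨
    ((v : V) = x ∧ ∃ k ∈ K, G.Adj k u)) := Iff.rfl

theorem IndMin.cg (G : SimpleGraph V) (A : Set V) (x : V) (K : Set V)
    (hK : (G.induce K).Connected) (hAK : Disjoint K A) (hx : ∃ k ∈ K, G.Adj x k) :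
    IndMin (cg G A x K) G := by
  refine ⟨fun u => {z | z = (u : V) ∨ ((u : V) = x ∧ z ∈ K)}, ?_, ?_, ?_⟩
  · intro u
    by_cases hu : (u : V) = x
    · have hset : {z | z = (u : V) ∨ ((u : V) = x ∧ z ∈ K)} = insert x K := by
        ext z
        simp only [Set.mem_ofPred_eq, Set.mem_insert_iff]
        constructor
        · rintro (h | h)
          · exact Or.inl (h.trans hu)
          · exact Or.inr h.2
        · rintro (h | h)
          · exact Or.inl (h.trans hu.symm)
          · exact Or.inr ⟨hu, h⟩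
      change (G.induce {z | z = (u : V) ∨ ((u : V) = x ∧ z ∈ K)}).Connected
      rw [hset]
      obtain ⟨k, hk, hxk⟩ := hx
      have key : ∀ z (hz : z ∈ insert x K), (G.induce (insert x K)).Reachable
          ⟨k, Set.mem_insert_of_mem _ hk⟩ ⟨z, hz⟩ := by
        intro z hz
        rcases hz with h | h
        · subst h
          exact Adj.reachable (show G.Adj k z from hxk.symm)
        · exact Pool.Agent.Helper36.BL.reach_mono G (Set.subset_insert x K) hk h
            (hK.preconnected ⟨k, hk⟩ ⟨z, h⟩)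
      exact { preconnected := fun p q => (key p.1 p.2).symm.trans (key q.1 q.2),
              nonempty := ⟨⟨k, Set.mem_insert_of_mem _ hk⟩⟩ }
    · have hset : {z | z = (u : V) ∨ ((u : V) = x ∧ z ∈ K)} = {(u : V)} := by
        ext z
        simp only [Set.mem_ofPred_eq, Set.mem_singleton_iff]
        constructor
        · rintro (h | h)
          · exact h
          · exact absurd h.1 hu
        · exact Or.inl
      change (G.induce {z | z = (u : V) ∨ ((u : V) = x ∧ z ∈ K)}).Connected
      rw [hset]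
      exact singleton_connected G _
  · intro u v huv
    have huv' : (u : V) ≠ v := fun h => huv (Subtype.ext h)
    rw [Set.disjoint_left]
    rintro z (hz | ⟨hu, hz⟩) (hz' | ⟨hv, hz'⟩)
    · exact huv' (hz.symm.trans hz')
    · exact Set.disjoint_left.mp hAK hz' (hz ▸ u.2)
    · exact Set.disjoint_left.mp hAK hz (hz' ▸ v.2)
    · exact huv' (hu.trans hv.symm)
  · intro u v huv
    have huv' : (u : V) ≠ v := fun h => huv (Subtype.ext h)
    rw [cg_adj]
    constructor
    · rintro ⟨_, h | ⟨hu, k, hk, h⟩ | ⟨hv, k, hk, h⟩⟩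
      · exact ⟨u, Or.inl rfl, v, Or.inl rfl, h⟩
      · exact ⟨k, Or.inr ⟨hu, hk⟩, v, Or.inl rfl, h⟩
      · exact ⟨u, Or.inl rfl, k, Or.inr ⟨hv, hk⟩, h.symm⟩
    · rintro ⟨z, hz | ⟨hu, hz⟩, z', hz' | ⟨hv, hz'⟩, h⟩
      · exact ⟨huv, Or.inl (hz ▸ hz' ▸ h)⟩
      · exact ⟨huv, Or.inr (Or.inr ⟨hv, z', hz', hz ▸ h.symm⟩)⟩
      · exact ⟨huv, Or.inr (Or.inl ⟨hu, z, hz, hz' ▸ h⟩)⟩
      · exact absurd (hu.trans hv.symm) huv'

/-- Contraction of an edge is an induced minor. -/
theorem IndMin.mg (G : SimpleGraph V) (a b : V) (hab : G.Adj a b) :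
    IndMin (BL.mg G a b ∅) G := by
  have h := IndMin.cg G {x | x ≠ b} a {b} (singleton_connected G b)
    (by rw [Set.disjoint_singleton_left]; simp) ⟨b, rfl, hab⟩
  have h2 : IndMin (BL.mg G a b ∅) (P6.cg G {x | x ≠ b} a {b}) := by
    apply IndMin.of_inj (fun x : {x : V // x ≠ b} => (⟨x.1, x.2⟩ : ({x : V | x ≠ b} : Set V)))
    · intro x y hxy
      exact Subtype.ext (congrArg (fun z : ({x : V | x ≠ b} : Set V) => (z : V)) hxy)
    · intro x y
      rw [BL.mg_adj, cg_adj]
      simp only [Set.mem_singleton_iff, exists_eq_left, Set.mem_empty_iff_false, or_false, ne_eq,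
        Subtype.ext_iff]
  exact h2.trans h

/-- The class: no `K₅` minor, no `K₃,₃` minor, no `P₆` as an induced minor. -/
def InC (G : SimpleGraph V) : Prop :=
  K5Free G ∧ K33Free G ∧ ¬ IndMin (pathGraph 6) G

theorem InC.indMin {H : SimpleGraph W} {G : SimpleGraph V} (hG : InC G) (h : IndMin H G) :
    InC H :=
  ⟨hG.1.minor h.isMinor, fun h' => hG.2.1 (h'.trans h.isMinor), fun h' => hG.2.2 (h'.trans h)⟩

/-- An induced-minor copy of `P₆` contains an induced copy of `P₆`. -/
theorem lift_P6 (G : SimpleGraph V) (h : IndMin (pathGraph 6) G) :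
    Nonempty (pathGraph 6 ↪g G) := by
  obtain ⟨B, hB1, hB2, hB3⟩ := h
  classical
  set D : Set V := {x | ∃ i, x ∈ B i} with hD
  have hsub : ∀ i, B i ⊆ D := fun i x hx => ⟨i, hx⟩
  -- index function
  have hidx : ∀ x : D, ∃ i, (x : V) ∈ B i := fun x => x.2
  choose ix hix using hidx
  have hixu : ∀ (x : D) i, (x : V) ∈ B i → ix x = i := by
    intro x i hi
    by_contra hne
    exact Set.disjoint_left.mp (hB2 (ix x) i hne) (hix x) hi
  have hstep : ∀ x y : D, (G.induce D).Adj x y → ((ix y : Fin 6) : ℕ) ≤ (ix x : Fin 6) + 1 := by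
    intro x y hxy
    by_cases h : ix x = ix y
    · rw [h]; omega
    · have h1 := (hB3 (ix x) (ix y) h).mpr ⟨x, hix x, y, hix y, hxy⟩
      rw [pathGraph_adj] at h1
      omega
  have hlen : ∀ (x y : D) (p : (G.induce D).Walk x y),
      ((ix y : Fin 6) : ℕ) ≤ (ix x : Fin 6) + p.length := by
    intro x y p
    induction p with
    | nil => simp
    | @cons u v w hadj p ih =>
      have := hstep u v hadj
      rw [Walk.length_cons]
      omega
  -- connectivity
  have hreach : ∀ (n : ℕ) (hn : n < 6) (x y : V) (hx : x ∈ B 0) (hy : y ∈ B ⟨n, hn⟩),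
      (G.induce D).Reachable ⟨x, hsub _ hx⟩ ⟨y, hsub _ hy⟩ := by
    intro n
    induction n with
    | zero =>
      intro hn x y hx hy
      exact Pool.Agent.Helper36.BL.reach_mono G (hsub 0) hx hy
        ((hB1 0).preconnected ⟨x, hx⟩ ⟨y, hy⟩)
    | succ n ih =>
      intro hn x y hx hy
      have hadj : (pathGraph 6).Adj (⟨n, by omega⟩ : Fin 6) ⟨n + 1, hn⟩ := by
        rw [pathGraph_adj]; simp
      obtain ⟨a, ha, b, hb, hab⟩ := (hB3 _ _ hadj.ne).mp hadj
      have h1 := ih (by omega) x a hx ha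
      have h2 : (G.induce D).Reachable ⟨a, hsub _ ha⟩ ⟨b, hsub _ hb⟩ := Adj.reachable hab
      have h3 := Pool.Agent.Helper36.BL.reach_mono G (hsub _) hb hy
        ((hB1 _).preconnected ⟨b, hb⟩ ⟨y, hy⟩)
      exact (h1.trans h2).trans h3
  obtain ⟨⟨x0, hx0⟩⟩ := (hB1 0).nonempty
  obtain ⟨⟨y0, hy0⟩⟩ := (hB1 ⟨5, by omega⟩).nonempty
  set X : D := ⟨x0, hsub _ hx0⟩ with hX
  set Y : D := ⟨y0, hsub _ hy0⟩ with hY
  have hr : (G.induce D).Reachable X Y := hreach 5 (by omega) x0 y0 hx0 hy0
  obtain ⟨p, hp⟩ := hr.exists_walk_length_eq_dist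
  have hp5 : 5 ≤ p.length := by
    have h1 := hlen X Y p
    have h2 := hixu X 0 hx0
    have h3 := hixu Y ⟨5, by omega⟩ hy0
    rw [h2, h3] at h1
    simpa using h1
  have hdist : ∀ i, i ≤ p.length → (G.induce D).dist X (p.getVert i) = i := by
    intro i hi
    have h1 : (G.induce D).dist X (p.getVert i) ≤ i := by
      have := dist_le (p.take i)
      rw [Walk.take_length] at this
      omega
    have h2 : (G.induce D).dist (p.getVert i) Y ≤ p.length - i := by
      have := dist_le (p.drop i)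
      rw [Walk.drop_length] at this
      exact this
    have h3 : (G.induce D).dist X Y ≤ (G.induce D).dist X (p.getVert i) +
        (G.induce D).dist (p.getVert i) Y := by
      have hc : ∀ z w : D, (G.induce D).Reachable z w → True := fun _ _ _ => trivial
      obtain ⟨q, hq⟩ := (Walk.reachable (p.take i)).exists_walk_length_eq_dist
      obtain ⟨q', hq'⟩ := (Walk.reachable (p.drop i)).exists_walk_length_eq_dist
      have := dist_le (q.append q')
      rw [Walk.length_append] at this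
      omega
    omega
  refine ⟨⟨⟨fun i => ((p.getVert i : D) : V), ?_⟩, ?_⟩⟩
  · intro i j hij
    have h1 : p.getVert (i : ℕ) = p.getVert (j : ℕ) := Subtype.ext hij
    have h2 := hdist i (by omega)
    have h3 := hdist j (by omega)
    rw [h1, h3] at h2
    exact (Fin.ext h2).symm
  · intro i j
    change G.Adj (p.getVert i : D) (p.getVert j : D) ↔ (pathGraph 6).Adj i j
    rw [pathGraph_adj]
    have key : ∀ i j : Fin 6, G.Adj (p.getVert i : D) (p.getVert j : D) → (j : ℕ) ≤ i + 1 := by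
      intro i j h
      have h1 := hdist i (by omega)
      have h2 := hdist j (by omega)
      have hadj : (G.induce D).Adj (p.getVert i) (p.getVert j) := h
      obtain ⟨q, hq⟩ := (Walk.reachable (p.take i)).exists_walk_length_eq_dist
      have := dist_le (q.concat hadj)
      rw [Walk.length_concat] at this
      omega
    have hne : ∀ i j : Fin 6, G.Adj (p.getVert i : D) (p.getVert j : D) → (i : ℕ) ≠ j := by
      intro i j h hij
      rw [hij] at h
      exact h.ne rfl
    constructor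
    · intro h
      have h1 := key i j h
      have h2 := key j i h.symm
      have h3 := hne i j h
      omega
    · rintro (h | h)
      · have := p.adj_getVert_succ (i := (i : ℕ)) (by omega)
        rw [h] at this
        exact this
      · have := p.adj_getVert_succ (i := (j : ℕ)) (by omega)
        rw [h] at this
        exact this.symm

end Pool.Agent.Helper36.P6
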