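import Pool.Agent.Helper36.P6.Step

/-!
# Soundness of one level of the enumeration
-/

set_option autoImplicit false
set_option linter.unusedSectionVars false

namespace Pool.Agent.Helper36.P6

open SimpleGraph
open Pool.Agent.Helper36.BL (IsMinor K5Free deg dsum cn del mg)

/-- if all degrees are at least five, some vertex `v` of degree five has a neighbour `a` with
exactly two common neighbours -/
lemma Tri.five {V : Type} [Fintype V] {H : SimpleGraph V} (h : Tri H)
    (h4 : 4 ≤ Fintype.card V) (hdeg : ∀ v, 5 ≤ deg H v) :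
    ∃ v a, deg H v = 5 ∧ H.Adj a v ∧ cn H a v = 2 := by
  classical
  have hv : Nonempty V := by
    rw [← Fintype.card_pos_iff]; omega
  obtain ⟨v, hv⟩ := BL.exists_deg_le_five H h.1.1
  have hv5 : deg H v = 5 := le_antisymm hv (hdeg v)
  refine ⟨v, ?_⟩
  by_contra hno
  push Not at hno
  have hcn : ∀ a, H.Adj a v → 3 ≤ cn H a v := by
    intro a ha
    have h1 := h.cn_ge h4 a v ha
    have h2 := hno a hv5 ha
    omega
  set S : Set V := {x | x = v ∨ H.Adj v x} with hS
  have hSc : S.ncard = 6 := by
    have : S = ((insert v (Finset.univ.filter (fun x => H.Adj v x)) : Finset V) : Set V) := by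
      ext x; simp [hS]
    rw [this, Set.ncard_coe_finset, Finset.card_insert_of_notMem (by simp), ← deg_eq, hv5]
  have instS : Fintype S := Fintype.ofFinite S
  have hcS : Fintype.card S = 6 := by
    rw [← Nat.card_eq_fintype_card, Nat.card_coe_set_eq, hSc]
  have hM := BL.edge_bound 6 (dsum (H.induce S)) S (H.induce S) hcS rfl
    (h.1.1.minor (IndMin.induce H S).isMinor) (by norm_num)
  have hvS : v ∈ S := Or.inl rfl
  have hdS : ∀ x : S, 4 + (if x = ⟨v, hvS⟩ then 1 else 0) ≤ deg (H.induce S) x := by
    intro x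
    have hmap : deg (H.induce S) x = (Finset.univ.filter (fun y : V => y ∈ S ∧ H.Adj x y)).card := by
      rw [deg_eq]
      refine Finset.card_bij (fun y _ => (y : V)) ?_ ?_ ?_
      · intro y hy
        simp only [Finset.mem_filter, Finset.mem_univ, true_and] at hy ⊢
        exact ⟨y.2, hy⟩
      · intro y _ z _ hyz
        exact Subtype.ext hyz
      · intro y hy
        simp only [Finset.mem_filter, Finset.mem_univ, true_and] at hy
        exact ⟨⟨y, hy.1⟩, by simpa using hy.2, rfl⟩
    rw [hmap]
    by_cases hx : x = ⟨v, hvS⟩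
    · have h45 : 4 + 1 = deg H v := by omega
      rw [if_pos hx, h45, deg_eq]
      apply Finset.card_le_card
      intro y hy
      simp only [Finset.mem_filter, Finset.mem_univ, true_and] at hy ⊢
      rw [hx]
      exact ⟨Or.inr hy, hy⟩
    · rw [if_neg hx]
      have hxv : H.Adj v x := by
        rcases x.2 with h' | h'
        · exact absurd (Subtype.ext h') hx
        · exact h'
      have h1 := hcn x hxv.symm
      rw [cn_eq] at h1
      have hsub : insert v (Finset.univ.filter (fun y => H.Adj x y ∧ H.Adj v y)) ⊆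
          Finset.univ.filter (fun y : V => y ∈ S ∧ H.Adj x y) := by
        intro y hy
        simp only [Finset.mem_insert, Finset.mem_filter, Finset.mem_univ, true_and] at hy ⊢
        rcases hy with hy | hy
        · rw [hy]; exact ⟨hvS, hxv.symm⟩
        · exact ⟨Or.inr hy.2, hy.1⟩
      have h2 := Finset.card_le_card hsub
      rw [Finset.card_insert_of_notMem (by simp)] at h2
      omega
  have hsum : ∑ x : S, (4 + (if x = ⟨v, hvS⟩ then 1 else 0)) ≤ dsum (H.induce S) := by
    unfold BL.dsum
    exact Finset.sum_le_sum (fun x _ => hdS x)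
  rw [Finset.sum_add_distrib, Finset.sum_ite_eq'] at hsum
  simp only [Finset.sum_const, Finset.card_univ, hcS, smul_eq_mul, Finset.mem_univ, if_true] at hsum
  omega

lemma ckLevel_spec (m : ℕ) (L : List ℕ) (data : List (ℕ × ℕ × List ℕ))
    (h : ckLevel m L data = true) : ∀ t ∈ data, ckG m L t.1 t.2.1 t.2.2 = true := by
  induction data with
  | nil => intro t ht; simp at ht
  | cons s rest ih =>
    have e : ckLevel m L (s :: rest) = cond (ckG m L s.1 s.2.1 s.2.2) (ckLevel m L rest) false := rfl
    rw [e] at h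
    by_cases hs : ckG m L s.1 s.2.1 s.2.2 = true
    · rw [cond_true hs] at h
      intro t ht
      rcases List.mem_cons.mp ht with ht | ht
      · rw [ht]; exact hs
      · exact ih h t ht
    · rw [cond_false hs] at h
      exact absurd h (by simp)

lemma ckG_spec (m : ℕ) (L : List ℕ) (g D : ℕ) (cs : List ℕ) (h : ckG m L g D cs = true) :
    D < 2 ^ m ∧ (∀ x < m, D.testBit x = true → cntN m (fun y => adj g x y) ≤ 3) ∧
    (m < 11 ∨ ∃ x < m, D.testBit x = true) ∧
    ∃ l l', loopT g m L cs = some l ∧ loopQ g m D L l = some l' := by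
  unfold ckG at h
  rw [Bool.and_eq_true, Bool.and_eq_true, Bool.and_eq_true] at h
  obtain ⟨h1, h2, h3, h4⟩ := h
  refine ⟨?_, ?_, ?_, ?_⟩
  · rw [blt_iff] at h1
    have e : Nat.shiftLeft 1 m = 1 <<< m := rfl
    rw [e, Nat.shiftLeft_eq, one_mul] at h1
    exact h1
  · intro x hx hD
    have := allN_spec _ _ h2 x hx
    rw [Bool.or_eq_true] at this
    rcases this with h5 | h5
    · rw [(bit_iff D x).mpr hD] at h5
      exact absurd h5 (by decide)
    · exact Nat.le_of_ble_eq_true h5
  · rw [Bool.or_eq_true, Bool.and_eq_true, blt_iff, blt_iff, bit_iff] at h3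
    rcases h3 with h3 | h3
    · exact Or.inl h3
    · exact Or.inr ⟨_, h3.2, h3.1⟩
  · cases hT : loopT g m L cs with
    | none => rw [hT] at h4; exact absurd h4 (by simp)
    | some l =>
      rw [hT] at h4
      change (Option.rec (motive := fun _ => Bool) false (fun _ => true) (loopQ g m D L l)) = true
        at h4
      cases hQ : loopQ g m D L l with
      | none => rw [hQ] at h4; exact absurd h4 (by simp)
      | some l' => exact ⟨l, l', rfl, hQ⟩

/-- degrees of a represented graph -/
lemma deg_rep {W : Type} [Fintype W] (G : SimpleGraph W) (m g : ℕ) (e : W ≃ Fin m)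
    (he : ∀ x y, G.Adj x y ↔ adj g (e x) (e y) = true) (x : W) :
    deg G x = cntN m (fun y => adj g (e x) y) := by
  classical
  rw [deg_eq, cntN_spec]
  refine Finset.card_bij (fun y _ => ((e y : Fin m) : ℕ)) ?_ ?_ ?_
  · intro y hy
    simp only [Finset.mem_filter, Finset.mem_univ, true_and, Finset.mem_range] at hy ⊢
    exact ⟨(e y).2, (he x y).mp hy⟩
  · intro y _ z _ hyz
    exact e.injective (Fin.ext hyz)
  · intro y hy
    simp only [Finset.mem_filter, Finset.mem_range] at hy
    refine ⟨e.symm ⟨y, hy.1⟩, ?_, by simp⟩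
    simp only [Finset.mem_filter, Finset.mem_univ, true_and]
    rw [he]
    simpa using hy.2

/-- degrees after the contraction are at least four -/
lemma deg_mg_ge {V : Type} [Fintype V] {H : SimpleGraph V} (hdeg : ∀ v, 4 ≤ deg H v) (a v : V)
    (hav : H.Adj a v) (hc : cn H a v = 2) (x : {x : V // x ≠ v}) [Fintype {x : V // x ≠ v}]
    (hx : deg H x ≥ 5 ∨ (x : V) = a ∨ ¬ (H.Adj a x ∧ H.Adj v x)) :
    4 ≤ deg (mg H a v ∅) x := by
  classical
  have hinst : ∀ (i1 i2 : Fintype {x : V // x ≠ v}) (G : SimpleGraph {x : V // x ≠ v})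
      (x : {x : V // x ≠ v}), @BL.deg _ i1 G x = @BL.deg _ i2 G x := by
    intro i1 i2 G x
    have : i1 = i2 := Subsingleton.elim _ _
    rw [this]
  by_cases hxa : (x : V) = a
  · have h1 := BL.deg_mg_eq H a v hav.ne
    have e : x = ⟨a, hav.ne⟩ := Subtype.ext hxa
    rw [e]
    rw [hinst _ (inferInstance : Fintype {x : V // x ≠ v})] at h1
    have h2 := hdeg a
    have h3 := hdeg v
    omega
  · have h1 := BL.deg_mg_ne H a v x hxa hav.ne
    rw [hinst _ (inferInstance : Fintype {x : V // x ≠ v})] at h1
    rcases hx with hx | hx | hx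
    · split_ifs at h1 <;> omega
    · exact absurd hx hxa
    · rw [if_neg hx] at h1
      have := hdeg x
      omega

theorem step_sound (m : ℕ) (hm : 3 ≤ m) (L : List ℕ) (data : List (ℕ × ℕ × List ℕ))
    (hck : ∀ t ∈ data, ckG m L t.1 t.2.1 t.2.2 = true)
    (IH : ∀ (W : Type) [Fintype W] (G : SimpleGraph W), Tri G → Fintype.card W = m →
      ∃ t ∈ data, RepN m G (adj t.1)) :
    ∀ (V : Type) [Fintype V] (H : SimpleGraph V), Tri H → Fintype.card V = m + 1 →
      ∃ h ∈ L, RepN (m + 1) H (adj h) := by
  classical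
  intro V _ H hH hV
  have h4 : 4 ≤ Fintype.card V := by omega
  have hcW : ∀ v : V, Fintype.card {x : V // x ≠ v} = m := by
    intro v; rw [card_ne', hV]; rfl
  by_cases h3 : ∃ v, deg H v = 3
  · obtain ⟨v, hv⟩ := h3
    obtain ⟨a, b, c, hab, hac, hbc, hN⟩ := hH.nb3 h4 v hv
    obtain ⟨t, ht, e, he⟩ := IH {x : V // x ≠ v} (del H v) (hH.del h4 v hv) (hcW v)
    obtain ⟨_, _, _, l, l', hT, _⟩ := ckG_spec _ _ _ _ _ (hck t ht)
    obtain ⟨E, hE1, hE2⟩ := exists_labels v m e
    have hE : Lab H v m E := ⟨hE1⟩
    have hg : ∀ x y, x ≠ v → y ≠ v → (H.Adj x y ↔ adj t.1 (E x) (E y) = true) := by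
      intro x y hx hy
      rw [hE2 x hx, hE2 y hy]
      exact he ⟨x, hx⟩ ⟨y, hy⟩
    have core : ∀ a b c : V, H.Adj a b → H.Adj a c → H.Adj b c →
        (∀ x, H.Adj v x ↔ x = a ∨ x = b ∨ x = c) →
        ((E a : Fin (m + 1)) : ℕ) < E b → ((E b : Fin (m + 1)) : ℕ) < E c →
        ∃ h ∈ L, RepN (m + 1) H (adj h) := by
      intro a b c hab hac hbc hN h1 h2
      have hva : a ≠ v := by
        rintro rfl
        exact ((hN a).mpr (Or.inl rfl)).ne rfl
      have hvb : b ≠ v := by
        rintro rfl
        exact ((hN b).mpr (Or.inr (Or.inl rfl))).ne rfl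
      have hvc : c ≠ v := by
        rintro rfl
        exact ((hN c).mpr (Or.inr (Or.inr rfl))).ne rfl
      obtain ⟨ct, hct⟩ := loopT_spec t.1 m L _ _ hT (E a) (E b) (E c) h1 h2 (hE.lt c hvc)
        ((hg a b hva hvb).mp hab) ((hg a c hva hvc).mp hac) ((hg b c hvb hvc).mp hbc)
      exact handleT H hH m hm hV v a b c hab hac hbc hN t.1 L E hE hg ct hct
    have n1 : ((E a : Fin (m + 1)) : ℕ) ≠ E b := fun h => hab.ne ((lab_inj E a b).mp h)
    have n2 : ((E a : Fin (m + 1)) : ℕ) ≠ E c := fun h => hac.ne ((lab_inj E a c).mp h)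
    have n3 : ((E b : Fin (m + 1)) : ℕ) ≠ E c := fun h => hbc.ne ((lab_inj E b c).mp h)
    rcases lt_or_gt_of_ne n1 with g1 | g1 <;> rcases lt_or_gt_of_ne n2 with g2 | g2 <;>
      rcases lt_or_gt_of_ne n3 with g3 | g3
    · exact core a b c hab hac hbc hN g1 g3
    · exact core a c b hac hab hbc.symm (fun x => by rw [hN x]; tauto) g2 g3
    · omega
    · exact core c a b hac.symm hbc.symm hab (fun x => by rw [hN x]; tauto) g2 g1
    · exact core b a c hab.symm hbc hac (fun x => by rw [hN x]; tauto) g1 g2
    · omega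
    · exact core b c a hbc hab.symm hac.symm (fun x => by rw [hN x]; tauto) g3 g2
    · exact core c b a hbc.symm hac.symm hab.symm (fun x => by rw [hN x]; tauto) g3 g1
  · have hdeg4 : ∀ v, 4 ≤ deg H v := by
      intro v
      have h1 := hH.deg_ge h4 v
      have h2 : deg H v ≠ 3 := fun h => h3 ⟨v, h⟩
      omega
    by_cases h4' : ∃ v, deg H v = 4
    · obtain ⟨v, hv⟩ := h4'
      obtain ⟨a, b, c, d, hne, hbd, hnac, hab, hbc, hcd, hda, hN⟩ := hH.nb4 h4 v hv
      have hav : H.Adj a v := ((hN a).mpr (Or.inl rfl)).symm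
      have hcn2 : cn H a v = 2 := by
        have h1 := hH.cn_ge h4 a v hav
        have h2 : cn H a v ≤ 2 := by
          rw [cn_eq]
          have hsub : Finset.univ.filter (fun x => H.Adj a x ∧ H.Adj v x) ⊆ {b, d} := by
            intro x hx
            simp only [Finset.mem_filter, Finset.mem_univ, true_and] at hx
            simp only [Finset.mem_insert, Finset.mem_singleton]
            rcases (hN x).mp hx.2 with h | h | h | h
            · rw [h] at hx; exact absurd rfl hx.1.ne
            · exact Or.inl h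
            · rw [h] at hx; exact absurd hx.1 hnac
            · exact Or.inr h
          exact le_trans (Finset.card_le_card hsub) Finset.card_le_two
        omega
      obtain ⟨t, ht, e, he⟩ := IH {x : V // x ≠ v} (mg H a v ∅) (hH.mg h4 a v hav hcn2) (hcW v)
      obtain ⟨hD1, hD2, _, l, l', _, hQ⟩ := ckG_spec _ _ _ _ _ (hck t ht)
      obtain ⟨E, hE1, hE2⟩ := exists_labels v m e
      have hE : Lab H v m E := ⟨hE1⟩
      have hmg : ∀ x y : {x : V // x ≠ v}, (mg H a v ∅).Adj x y ↔
          (H.Adj x y ∨ ((x : V) = a ∧ (y : V) = c) ∨ ((x : V) = c ∧ (y : V) = a)) := by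
        intro x y
        rw [BL.mg_adj]
        simp only [Set.mem_empty_iff_false, or_false]
        constructor
        · rintro ⟨hxy, h | ⟨h1, h2⟩ | ⟨h1, h2⟩⟩
          · exact Or.inl h
          · rcases (hN y).mp h2 with h | h | h | h
            · exact absurd (Subtype.ext (h1.trans h.symm)) hxy
            · left; rw [h1, h]; exact hab
            · exact Or.inr (Or.inl ⟨h1, h⟩)
            · left; rw [h1, h]; exact hda.symm
          · rcases (hN x).mp h2 with h | h | h | h
            · exact absurd (Subtype.ext (h.trans h1.symm)) hxy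
            · left; rw [h1, h]; exact hab.symm
            · exact Or.inr (Or.inr ⟨h, h1⟩)
            · left; rw [h1, h]; exact hda
        · rintro (h | ⟨h1, h2⟩ | ⟨h1, h2⟩)
          · exact ⟨fun h' => h.ne (congrArg Subtype.val h'), Or.inl h⟩
          · refine ⟨fun h' => hne ?_, Or.inr (Or.inl ⟨h1, ?_⟩)⟩
            · rw [← h1, ← h2, h']
            · rw [h2]; exact (hN c).mpr (Or.inr (Or.inr (Or.inl rfl)))
          · refine ⟨fun h' => hne ?_, Or.inr (Or.inr ⟨h2, ?_⟩)⟩
            · rw [← h1, ← h2, h']
            · rw [h1]; exact (hN c).mpr (Or.inr (Or.inr (Or.inl rfl)))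
      have hg : ∀ x y, x ≠ v → y ≠ v → ((H.Adj x y ∨ (x = a ∧ y = c) ∨ (x = c ∧ y = a)) ↔
          adj t.1 (E x) (E y) = true) := by
        intro x y hx hy
        rw [hE2 x hx, hE2 y hy, ← he ⟨x, hx⟩ ⟨y, hy⟩, hmg]
      have hD : ∀ x : V, x ≠ v → t.2.1.testBit (E x : Fin (m + 1)) = true → x = b ∨ x = d := by
        intro x hx hDx
        by_contra hno
        push Not at hno
        have h5 := hD2 (E x) (hE.lt x hx) hDx
        rw [hE2 x hx, ← deg_rep (mg H a v ∅) m t.1 e he ⟨x, hx⟩] at h5
        have h6 := deg_mg_ge hdeg4 a v hav hcn2 ⟨x, hx⟩ (by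
          by_cases hxa : x = a
          · exact Or.inr (Or.inl hxa)
          · right; right
            rintro ⟨h7, h8⟩
            change H.Adj a x at h7
            rcases (hN x).mp h8 with h | h | h | h
            · exact hxa h
            · exact hno.1 h
            · rw [h] at h7; exact hnac h7
            · exact hno.2 h)
        omega
      have core : ∀ a b c d : V, a ≠ c → b ≠ d → ¬ H.Adj a c → H.Adj a b → H.Adj b c →
          H.Adj c d → H.Adj d a → (∀ x, H.Adj v x ↔ x = a ∨ x = b ∨ x = c ∨ x = d) →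
          (∀ x y, x ≠ v → y ≠ v → ((H.Adj x y ∨ (x = a ∧ y = c) ∨ (x = c ∧ y = a)) ↔
          adj t.1 (E x) (E y) = true)) →
          (∀ x : V, x ≠ v → t.2.1.testBit (E x : Fin (m + 1)) = true → x = b ∨ x = d) →
          ((E a : Fin (m + 1)) : ℕ) < E c → ((E b : Fin (m + 1)) : ℕ) < E d →
          ∃ h ∈ L, RepN (m + 1) H (adj h) := by
        intro a b c d hne hbd hnac hab hbc hcd hda hN hg hD h1 h2
        have hva : a ≠ v := by
          rintro rfl
          exact ((hN a).mpr (Or.inl rfl)).ne rfl
        have hvb : b ≠ v := by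
          rintro rfl
          exact ((hN b).mpr (Or.inr (Or.inl rfl))).ne rfl
        have hvc : c ≠ v := by
          rintro rfl
          exact ((hN c).mpr (Or.inr (Or.inr (Or.inl rfl)))).ne rfl
        have hvd : d ≠ v := by
          rintro rfl
          exact ((hN d).mpr (Or.inr (Or.inr (Or.inr rfl)))).ne rfl
        have hland : Nat.land t.2.1 (Nat.lor (Nat.shiftLeft 1 (E b : Fin (m + 1)))
            (Nat.shiftLeft 1 (E d : Fin (m + 1)))) = t.2.1 := by
          change t.2.1 &&& ((1 <<< ((E b : Fin (m + 1)) : ℕ)) ||| (1 <<< ((E d : Fin (m + 1)) : ℕ)))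
            = t.2.1
          apply Nat.eq_of_testBit_eq
          intro i
          rw [Nat.testBit_and]
          by_cases hi : t.2.1.testBit i = true
          · rw [hi, Bool.true_and]
            have him : i < m := by
              by_contra him
              push Not at him
              have := Nat.testBit_lt_two_pow (lt_of_lt_of_le hD1 (Nat.pow_le_pow_right (by norm_num) him))
              rw [this] at hi
              exact absurd hi (by simp)
            have hx : E.symm ⟨i, by omega⟩ ≠ v := by
              intro h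
              have := hE.top
              rw [← h] at this
              simp at this
              omega
            have hi' : i = (E (E.symm ⟨i, by omega⟩) : Fin (m + 1)) := by simp
            rw [Nat.testBit_or, Nat.one_shiftLeft, Nat.one_shiftLeft, Bool.or_eq_true]
            rcases hD _ hx (by rw [← hi']; exact hi) with h | h
            · left
              rw [hi', h]
              exact Nat.testBit_two_pow_self
            · right
              rw [hi', h]
              exact Nat.testBit_two_pow_self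
          · rw [Bool.not_eq_true] at hi
            rw [hi, Bool.false_and]
        obtain ⟨ct, hct⟩ := loopQ_spec t.1 m t.2.1 L _ _ hQ (E a) (E b) (E c) (E d) h1 h2
          (hE.lt c hvc) (hE.lt d hvd) hland
          ((hg a c hva hvc).mp (Or.inr (Or.inl ⟨rfl, rfl⟩)))
          ((hg a b hva hvb).mp (Or.inl hab)) ((hg a d hva hvd).mp (Or.inl hda.symm))
          ((hg b c hvb hvc).mp (Or.inl hbc)) ((hg d c hvd hvc).mp (Or.inl hcd.symm))
        exact handleQ H hH m hm hV v a b c d hne hbd hnac hab hbc hcd hda hN t.1 L E hE hg ct hct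
      have n1 : ((E a : Fin (m + 1)) : ℕ) ≠ E c := fun h => hne ((lab_inj E a c).mp h)
      have n2 : ((E b : Fin (m + 1)) : ℕ) ≠ E d := fun h => hbd ((lab_inj E b d).mp h)
      rcases lt_or_gt_of_ne n1 with g1 | g1 <;> rcases lt_or_gt_of_ne n2 with g2 | g2
      · exact core a b c d hne hbd hnac hab hbc hcd hda hN hg hD g1 g2
      · exact core a d c b hne hbd.symm hnac hda.symm hcd.symm hbc.symm hab.symm
          (fun x => by rw [hN x]; tauto) hg (fun x hx h => (hD x hx h).symm) g1 g2
      · exact core c b a d hne.symm hbd (fun h => hnac h.symm) hbc.symm hab.symm hda.symm hcd.symm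
          (fun x => by rw [hN x]; tauto) (fun x y hx hy => by rw [← hg x y hx hy]; tauto) hD g1 g2
      · exact core c d a b hne.symm hbd.symm (fun h => hnac h.symm) hcd hda hab hbc
          (fun x => by rw [hN x]; tauto) (fun x y hx hy => by rw [← hg x y hx hy]; tauto)
          (fun x hx h => (hD x hx h).symm) g1 g2
    · exfalso
      have hdeg5 : ∀ v, 5 ≤ deg H v := by
        intro v
        have h1 := hdeg4 v
        have h2 : deg H v ≠ 4 := fun h => h4' ⟨v, h⟩
        omega
      obtain ⟨v, a, hv5, hav, hcn2⟩ := hH.five h4 hdeg5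
      obtain ⟨t, ht, e, he⟩ := IH {x : V // x ≠ v} (mg H a v ∅) (hH.mg h4 a v hav hcn2) (hcW v)
      obtain ⟨_, hD2, hD3, _⟩ := ckG_spec _ _ _ _ _ (hck t ht)
      rcases hD3 with h11 | ⟨x, hxm, hx⟩
      · have hsum : ∑ _v : V, 5 ≤ dsum H := by
          unfold BL.dsum
          exact Finset.sum_le_sum (fun v _ => hdeg5 v)
        simp only [Finset.sum_const, Finset.card_univ, smul_eq_mul] at hsum
        have := hH.2
        omega
      · have h5 := hD2 x hxm hx
        have h6 := deg_rep (mg H a v ∅) m t.1 e he (e.symm ⟨x, hxm⟩)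
        have h7 := deg_mg_ge hdeg4 a v hav hcn2 (e.symm ⟨x, hxm⟩) (Or.inl (hdeg5 _))
        rw [Equiv.apply_symm_apply] at h6
        simp only at h6
        omega

end Pool.Agent.Helper36.P6
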