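import Pool.Agent.Helper36.P6.Models
import Pool.Agent.Helper70.P6.FacesF
import Pool.Agent.Helper92.P6.Growth

/-!
# The structure lemma for 3-connected graphs without small obstructions
-/

set_option autoImplicit false
set_option linter.unusedSectionVars false

namespace Pool.Agent.Helper36.P6

open SimpleGraph
open Pool.Agent.Helper36.BL (IsMinor K5Free deg dsum cn del mg)

variable {V : Type} [Fintype V]

lemma Fac.swap {G : SimpleGraph V} {a b w : V} (h : Fac G a b w) : Fac G b a w := by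
  obtain ⟨h1, h2, h3, h4⟩ := h
  refine ⟨h1.symm, h3, h2, ?_⟩
  intro K hK z hzb hza hzw
  rw [Set.insert_comm] at hK
  exact h4 K hK z hza hzb hzw

lemma Fac.rot {G : SimpleGraph V} {a b w : V} (h : Fac G a b w) : Fac G a w b := by
  obtain ⟨h1, h2, h3, h4⟩ := h
  refine ⟨h2, h1, h3.symm, ?_⟩
  intro K hK z hza hzw hzb
  have e : ({a, w, b} : Set V) = {a, b, w} := by
    rw [Set.pair_comm w b]
  rw [e] at hK
  exact h4 K hK z hza hzb hzw

open scoped Classical in
/-- the family of non-separating triangles -/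
noncomputable def faces (G : SimpleGraph V) : Finset (Finset V) :=
  Finset.univ.filter (fun f => ∃ a b w, Fac G a b w ∧ f = {a, b, w})

open scoped Classical in
lemma mem_faces (G : SimpleGraph V) (f : Finset V) :
    f ∈ faces G ↔ ∃ a b w, Fac G a b w ∧ f = {a, b, w} := by
  unfold faces
  rw [Finset.mem_filter]
  exact ⟨fun h => h.2, fun h => ⟨Finset.mem_univ _, h⟩⟩

open scoped Classical in
/-- a face containing two given vertices -/
lemma face_of_mem (G : SimpleGraph V) (f : Finset V) (hf : f ∈ faces G) (x y : V)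
    (hx : x ∈ f) (hy : y ∈ f) (hxy : x ≠ y) : ∃ z, Fac G x y z ∧ f = {x, y, z} := by
  obtain ⟨a, b, w, h, he⟩ := (mem_faces G f).mp hf
  subst he
  simp only [Finset.mem_insert, Finset.mem_singleton] at hx hy
  rcases hx with rfl | rfl | rfl <;> rcases hy with rfl | rfl | rfl
  · exact absurd rfl hxy
  · exact ⟨w, h, rfl⟩
  · refine ⟨b, h.rot, ?_⟩
    rw [Finset.pair_comm]
  · refine ⟨w, h.swap, ?_⟩
    rw [Finset.insert_comm]
  · exact absurd rfl hxy
  · refine ⟨a, h.swap.rot, ?_⟩
    ext z; simp only [Finset.mem_insert, Finset.mem_singleton]; tauto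
  · refine ⟨b, h.rot.swap, ?_⟩
    ext z; simp only [Finset.mem_insert, Finset.mem_singleton]; tauto
  · refine ⟨a, h.swap.rot.swap, ?_⟩
    ext z; simp only [Finset.mem_insert, Finset.mem_singleton]; tauto
  · exact absurd rfl hxy

theorem Lprime (G : SimpleGraph V) (hK5 : K5Free G) (hK33 : K33Free G) (h3 : Conn3 G)
    (hcard : 4 ≤ Fintype.card V) (hne : ∃ a b, G.Adj a b)
    (hcn : ∀ a b, G.Adj a b → ∃ w, G.Adj a w ∧ G.Adj b w)
    (hF : ∀ a b w K, G.Adj a b → G.Adj a w → G.Adj b w → Comp G {a, b, w} K →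
      ∃ z ∈ K, G.Adj a z ∧ G.Adj b z) :
    6 * Fintype.card V ≤ dsum G + 12 := by
  classical
  -- a vertex outside a triple
  have hout : ∀ a b w : V, ∃ z, z ≠ a ∧ z ≠ b ∧ z ≠ w := by
    intro a b w
    by_contra hno
    push Not at hno
    have : (Finset.univ : Finset V) ⊆ {a, b, w} := by
      intro z _
      simp only [Finset.mem_insert, Finset.mem_singleton]
      by_cases h1 : z = a
      · exact Or.inl h1
      · by_cases h2 : z = b
        · exact Or.inr (Or.inl h2)
        · exact Or.inr (Or.inr (hno z h1 h2))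
    have h1 := Finset.card_le_card this
    have h2 : ({a, b, w} : Finset V).card ≤ 3 := Finset.card_le_three
    rw [Finset.card_univ] at h1
    omega
  have hcomp : ∀ a b w : V, ∃ K, Comp G {a, b, w} K := by
    intro a b w
    obtain ⟨z, h1, h2, h3⟩ := hout a b w
    obtain ⟨K, hK, _⟩ := exists_comp G {a, b, w} z (by
      rintro (h | h | h)
      · exact h1 h
      · exact h2 h
      · exact h3 h)
    exact ⟨K, hK⟩
  -- two faces
  have htwo : ∀ a b, G.Adj a b → ∃ w₁ w₂, w₁ ≠ w₂ ∧ Fac G a b w₁ ∧ Fac G a b w₂ := by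
    intro a b hab
    obtain ⟨w, haw, hbw⟩ := hcn a b hab
    obtain ⟨K, hK⟩ := hcomp a b w
    obtain ⟨w₁, _, hw₁⟩ := exists_face G h3 hF a b w K hab haw hbw hK
    obtain ⟨K₁, hK₁⟩ := hcomp a b w₁
    obtain ⟨w₂, hw₂K, hw₂⟩ := exists_face G h3 hF a b w₁ K₁ hab hw₁.2.1 hw₁.2.2.1 hK₁
    refine ⟨w₁, w₂, ?_, hw₁, hw₂⟩
    intro h
    exact Set.disjoint_left.mp hK₁.2.1 hw₂K (Or.inr (Or.inr h.symm))
  have hexact : ∀ a b, G.Adj a b → ∃ w₁ w₂, w₁ ≠ w₂ ∧ Fac G a b w₁ ∧ Fac G a b w₂ ∧
      ∀ w, Fac G a b w → w = w₁ ∨ w = w₂ := by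
    intro a b hab
    obtain ⟨w₁, w₂, h12, h1, h2⟩ := htwo a b hab
    refine ⟨w₁, w₂, h12, h1, h2, ?_⟩
    intro w hw
    by_contra hno
    push Not at hno
    exact not_three_faces G hK5 hK33 h3 a b w₁ w₂ w h1 h2 hw h12 hno.1.symm hno.2.symm
  have hfilt : ∀ a b, G.Adj a b → ((faces G).filter (fun f => a ∈ f ∧ b ∈ f)).card = 2 := by
    intro a b hab
    obtain ⟨w₁, w₂, h12, h1, h2, h⟩ := hexact a b hab
    have e : (faces G).filter (fun f => a ∈ f ∧ b ∈ f) = {{a, b, w₁}, {a, b, w₂}} := by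
      ext f
      simp only [Finset.mem_filter, Finset.mem_insert, Finset.mem_singleton]
      constructor
      · rintro ⟨hf, ha, hb⟩
        obtain ⟨z, hz, hfz⟩ := face_of_mem G f hf a b ha hb hab.ne
        rcases h z hz with h' | h'
        · left; rw [hfz, h']
        · right; rw [hfz, h']
      · rintro (h' | h')
        · subst h'
          exact ⟨(mem_faces G _).mpr ⟨a, b, w₁, h1, rfl⟩, by simp, by simp⟩
        · subst h'
          exact ⟨(mem_faces G _).mpr ⟨a, b, w₂, h2, rfl⟩, by simp, by simp⟩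
    rw [e, Finset.card_pair]
    intro he
    have hmem : w₁ ∈ ({a, b, w₂} : Finset V) := by rw [← he]; simp
    simp only [Finset.mem_insert, Finset.mem_singleton] at hmem
    rcases hmem with h' | h' | h'
    · exact h1.2.1.ne h'.symm
    · exact h1.2.2.1.ne h'.symm
    · exact h12 h'
  obtain ⟨a0, b0, hab0⟩ := hne
  obtain ⟨w0, _, _, hw0, _⟩ := htwo a0 b0 hab0
  obtain ⟨t, htF, hf0, hcl, hineq⟩ := Pool.Agent.Helper92.P6.growth G (faces G)
    (by
      intro f hf
      obtain ⟨a, b, w, h, he⟩ := (mem_faces G f).mp hf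
      rw [he, Finset.card_eq_three]
      exact ⟨a, b, w, h.1.ne, h.2.1.ne, h.2.2.1.ne, rfl⟩)
    (by
      intro f hf x hx y hy hxy
      obtain ⟨z, hz, _⟩ := face_of_mem G f hf x y hx hy hxy
      exact hz.1)
    hfilt {a0, b0, w0} ((mem_faces G _).mpr ⟨a0, b0, w0, hw0, rfl⟩)
  -- the vertex set of `t`
  set S : Set V := {x | ∃ f ∈ t, x ∈ f} with hS
  have hSn : (Finset.univ.filter (fun x : V => ∃ f ∈ t, x ∈ f)).card = S.ncard := by
    rw [Set.ncard_eq_toFinset_card']
    congr 1
    ext x; simp [hS]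
  set P : Set (V × V) := {p | p.1 ≠ p.2 ∧ ∃ f ∈ t, p.1 ∈ f ∧ p.2 ∈ f} with hP
  have hPn : (Finset.univ.filter (fun p : V × V => p.1 ≠ p.2 ∧ ∃ f ∈ t, p.1 ∈ f ∧ p.2 ∈ f)).card =
      P.ncard := by
    rw [Set.ncard_eq_toFinset_card']
    congr 1
    ext x; simp [hP]
  rw [hSn, hPn] at hineq
  have hPsub : P ⊆ {p : V × V | p.1 ∈ S ∧ p.2 ∈ S ∧ G.Adj p.1 p.2} := by
    rintro p ⟨hne, f, hf, h1, h2⟩
    obtain ⟨z, hz, _⟩ := face_of_mem G f (htF hf) p.1 p.2 h1 h2 hne
    exact ⟨⟨f, hf, h1⟩, ⟨f, hf, h2⟩, hz.1⟩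
  have hPed : P.ncard ≤ ed G S := Set.ncard_le_ncard hPsub (Set.toFinite _)
  have ha0 : a0 ∈ S := ⟨_, hf0, by simp⟩
  have hb0 : b0 ∈ S := ⟨_, hf0, by simp⟩
  have hw0S : w0 ∈ S := ⟨_, hf0, by simp⟩
  have hS3 : 3 ≤ S.ncard := by
    have h1 : ({a0, b0, w0} : Set V).ncard = 3 := by
      rw [Set.ncard_eq_three]
      exact ⟨a0, b0, w0, hw0.1.ne, hw0.2.1.ne, hw0.2.2.1.ne, rfl⟩
    have h2 : ({a0, b0, w0} : Set V) ⊆ S := by
      rintro z (h | h | h)
      · rw [h]; exact ha0
      · rw [h]; exact hb0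
      · rw [h]; exact hw0S
    have := Set.ncard_le_ncard h2 (Set.toFinite _)
    omega
  have instS : Fintype S := Fintype.ofFinite S
  have hcS : Fintype.card S = S.ncard := by
    rw [← Nat.card_eq_fintype_card, Nat.card_coe_set_eq]
  have hM : ed G S + 12 ≤ 6 * S.ncard := by
    have := BL.edge_bound (Fintype.card S) (dsum (G.induce S)) S (G.induce S) rfl rfl
      (hK5.minor (IndMin.induce G S).isMinor) (by omega)
    rw [dsum_induce, hcS] at this
    exact this
  have hPeq : P = {p : V × V | p.1 ∈ S ∧ p.2 ∈ S ∧ G.Adj p.1 p.2} := by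
    apply Set.eq_of_subset_of_ncard_le hPsub _ (Set.toFinite _)
    change ed G S ≤ P.ncard
    omega
  by_cases hall : S = Set.univ
  · rw [hall, Set.ncard_univ, Nat.card_eq_fintype_card] at hineq
    rw [hall] at hPed
    rw [dsum_univ]
    omega
  · exfalso
    obtain ⟨z0, hz0⟩ : ∃ z, z ∉ S := by
      by_contra hno
      push Not at hno
      exact hall (Set.eq_univ_of_forall hno)
    obtain ⟨K, hK, hz0K⟩ := exists_comp G S z0 hz0
    have hKS : ∀ z ∈ K, z ∉ S := fun z hz h => Set.disjoint_left.mp hK.2.1 hz h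
    -- attachment vertices are adjacent
    have hclique : ∀ x y, x ∈ S → y ∈ S → x ≠ y → (∃ k ∈ K, G.Adj x k) → (∃ k ∈ K, G.Adj y k) →
        G.Adj x y := by
      intro x y hx hy hxy hxk hyk
      by_contra hn
      have h1 := ed_cg G S x y K hx hy hxy hn (by
        obtain ⟨k, hk, h⟩ := hyk
        exact ⟨k, hk, h.symm⟩)
      have h2 := BL.edge_bound (Fintype.card S) (dsum (cg G S x K)) S (cg G S x K) rfl rfl
        (hK5.minor (IndMin.cg G S x K hK.1 hK.2.1 hxk).isMinor) (by omega)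
      rw [hcS] at h2
      omega
    have hthird : ∀ x y, x ∈ S → y ∈ S → ∃ z ∈ S, z ≠ x ∧ z ≠ y ∧ ∃ k ∈ K, G.Adj z k := by
      intro x y hx hy
      by_contra hno
      push Not at hno
      have hCK : Comp G {x, y} K := by
        refine ⟨hK.1, ?_, ?_⟩
        · rw [Set.disjoint_left]
          rintro z hz (h | h)
          · exact hKS z hz (h ▸ hx)
          · exact hKS z hz (h ▸ hy)
        · intro u hu v hv
          rcases hK.2.2 u hu v hv with h | h
          · exact Or.inl h
          · right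
            by_contra hvn
            simp only [Set.mem_insert_iff, Set.mem_singleton_iff, not_or] at hvn
            exact hno v h hvn.1 hvn.2 u hu hv.symm
      have hall2 := h3 x y K hCK
      -- one of a0, b0, w0 is different from x and y
      have : ∃ s ∈ S, s ≠ x ∧ s ≠ y := by
        by_contra hno2
        push Not at hno2
        have hsub : S ⊆ {x, y} := by
          intro s hs
          by_cases h : s = x
          · exact Or.inl h
          · exact Or.inr (hno2 s hs h)
        have h1 := Set.ncard_le_ncard hsub (Set.toFinite _)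
        have h2 : ({x, y} : Set V).ncard ≤ 2 := Set.ncard_insert_le _ _ |>.trans (by
          rw [Set.ncard_singleton])
        omega
      obtain ⟨s, hs, hsx, hsy⟩ := this
      exact hKS s (hall2 s hsx hsy) hs
    obtain ⟨a, haS, _, _, hak⟩ := hthird a0 a0 ha0 ha0
    obtain ⟨b, hbS, hba, _, hbk⟩ := hthird a a haS haS
    obtain ⟨w, hwS, hwa, hwb, hwk⟩ := hthird a b haS hbS
    have hab := hclique a b haS hbS hba.symm hak hbk
    have haw := hclique a w haS hwS hwa.symm hak hwk
    have hbw := hclique b w hbS hwS hwb.symm hbk hwk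
    -- no fourth attachment
    have hfour : ∀ u ∈ S, (∃ k ∈ K, G.Adj u k) → u = a ∨ u = b ∨ u = w := by
      intro u hu huk
      by_contra hno
      push Not at hno
      obtain ⟨hua, hub, huw⟩ := hno
      have j : ∀ x y, G.Adj x y → Jn G {x} {y} := fun x y h => ⟨x, rfl, y, rfl, h⟩
      have jk : ∀ x, (∃ k ∈ K, G.Adj x k) → Jn G {x} K := by
        rintro x ⟨k, hk, h⟩
        exact ⟨x, rfl, k, hk, h⟩
      have dk : ∀ x ∈ S, Disjoint ({x} : Set V) K := by
        intro x hx
        rw [Set.disjoint_singleton_left]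
        exact fun h => hKS x h hx
      have ds : ∀ x y : V, x ≠ y → Disjoint ({x} : Set V) {y} := by
        intro x y h
        rw [Set.disjoint_singleton]
        exact h
      apply hK5
      exact K5_of_sets G {a} {b} {w} {u} K (singleton_connected G _) (singleton_connected G _)
        (singleton_connected G _) (singleton_connected G _) hK.1
        (ds _ _ hab.ne) (ds _ _ haw.ne) (ds _ _ hua.symm) (dk a haS)
        (ds _ _ hbw.ne) (ds _ _ hub.symm) (dk b hbS) (ds _ _ huw.symm) (dk w hwS) (dk u hu)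
        (j _ _ hab) (j _ _ haw) (j _ _ (hclique a u haS hu hua.symm hak huk)) (jk a hak)
        (j _ _ hbw) (j _ _ (hclique b u hbS hu hub.symm hbk huk)) (jk b hbk)
        (j _ _ (hclique w u hwS hu huw.symm hwk huk)) (jk w hwk) (jk u huk)
    have hCK : Comp G {a, b, w} K := by
      refine ⟨hK.1, ?_, ?_⟩
      · rw [Set.disjoint_left]
        rintro z hz (h | h | h)
        · exact hKS z hz (h ▸ haS)
        · exact hKS z hz (h ▸ hbS)
        · exact hKS z hz (h ▸ hwS)
      · intro u hu v hv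
        rcases hK.2.2 u hu v hv with h | h
        · exact Or.inl h
        · exact Or.inr (hfour v h ⟨u, hu, hv.symm⟩)
    obtain ⟨z, hzK, hz⟩ := exists_face G h3 hF a b w K hab haw hbw hCK
    have hcov : ((a, b) : V × V) ∈ P := by
      rw [hPeq]; exact ⟨haS, hbS, hab⟩
    obtain ⟨_, g, hg, hga, hgb⟩ := hcov
    have hft := hcl {a, b, z} ((mem_faces G _).mpr ⟨a, b, z, hz, rfl⟩) g hg a b hab.ne
      (by simp) (by simp) hga hgb
    exact hKS z hzK ⟨_, hft, by simp⟩

end Pool.Agent.Helper36.P6
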