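import Pool.Agent.Helper36.P6.Glue

/-!
# Explicit `K₅` and `K₃,₃` models
-/

set_option autoImplicit false

namespace Pool.Agent.Helper36.P6

open SimpleGraph
open Pool.Agent.Helper36.BL (IsMinor K5Free deg dsum cn del mg)

variable {V : Type}

/-- two sets joined by an edge -/
def Jn (G : SimpleGraph V) (A B : Set V) : Prop := ∃ a ∈ A, ∃ b ∈ B, G.Adj a b

lemma Jn.symm {G : SimpleGraph V} {A B : Set V} (h : Jn G A B) : Jn G B A := by
  obtain ⟨a, ha, b, hb, hab⟩ := h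
  exact ⟨b, hb, a, ha, hab.symm⟩

lemma K5_of_sets (G : SimpleGraph V) (B₀ B₁ B₂ B₃ B₄ : Set V)
    (c₀ : (G.induce B₀).Connected) (c₁ : (G.induce B₁).Connected) (c₂ : (G.induce B₂).Connected)
    (c₃ : (G.induce B₃).Connected) (c₄ : (G.induce B₄).Connected)
    (d₀₁ : Disjoint B₀ B₁) (d₀₂ : Disjoint B₀ B₂) (d₀₃ : Disjoint B₀ B₃) (d₀₄ : Disjoint B₀ B₄)
    (d₁₂ : Disjoint B₁ B₂) (d₁₃ : Disjoint B₁ B₃) (d₁₄ : Disjoint B₁ B₄)
    (d₂₃ : Disjoint B₂ B₃) (d₂₄ : Disjoint B₂ B₄) (d₃₄ : Disjoint B₃ B₄)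
    (j₀₁ : Jn G B₀ B₁) (j₀₂ : Jn G B₀ B₂) (j₀₃ : Jn G B₀ B₃) (j₀₄ : Jn G B₀ B₄)
    (j₁₂ : Jn G B₁ B₂) (j₁₃ : Jn G B₁ B₃) (j₁₄ : Jn G B₁ B₄)
    (j₂₃ : Jn G B₂ B₃) (j₂₄ : Jn G B₂ B₄) (j₃₄ : Jn G B₃ B₄) :
    IsMinor (⊤ : SimpleGraph (Fin 5)) G := by
  refine ⟨![B₀, B₁, B₂, B₃, B₄], ?_, ?_, ?_⟩
  · intro i
    fin_cases i
    · exact c₀
    · exact c₁
    · exact c₂
    · exact c₃
    · exact c₄
  · have key : ∀ i j : Fin 5, i < j → Disjoint (![B₀, B₁, B₂, B₃, B₄] i)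
        (![B₀, B₁, B₂, B₃, B₄] j) := by
      intro i j hij
      fin_cases i <;> fin_cases j <;> first | exact absurd hij (by decide) | assumption
    intro i j hij
    rcases lt_or_gt_of_ne hij with h | h
    · exact key i j h
    · exact (key j i h).symm
  · have key : ∀ i j : Fin 5, i < j → Jn G (![B₀, B₁, B₂, B₃, B₄] i)
        (![B₀, B₁, B₂, B₃, B₄] j) := by
      intro i j hij
      fin_cases i <;> fin_cases j <;> first | exact absurd hij (by decide) | assumption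
    intro i j hij
    have hij' : i ≠ j := hij.ne
    rcases lt_or_gt_of_ne hij' with h | h
    · exact key i j h
    · exact (key j i h).symm

lemma K33_of_sets (G : SimpleGraph V) (A₀ A₁ A₂ B₀ B₁ B₂ : Set V)
    (a₀ : (G.induce A₀).Connected) (a₁ : (G.induce A₁).Connected) (a₂ : (G.induce A₂).Connected)
    (b₀ : (G.induce B₀).Connected) (b₁ : (G.induce B₁).Connected) (b₂ : (G.induce B₂).Connected)
    (e₀₁ : Disjoint A₀ A₁) (e₀₂ : Disjoint A₀ A₂) (e₁₂ : Disjoint A₁ A₂)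
    (f₀₁ : Disjoint B₀ B₁) (f₀₂ : Disjoint B₀ B₂) (f₁₂ : Disjoint B₁ B₂)
    (d₀₀ : Disjoint A₀ B₀) (d₀₁ : Disjoint A₀ B₁) (d₀₂ : Disjoint A₀ B₂)
    (d₁₀ : Disjoint A₁ B₀) (d₁₁ : Disjoint A₁ B₁) (d₁₂ : Disjoint A₁ B₂)
    (d₂₀ : Disjoint A₂ B₀) (d₂₁ : Disjoint A₂ B₁) (d₂₂ : Disjoint A₂ B₂)
    (j₀₀ : Jn G A₀ B₀) (j₀₁ : Jn G A₀ B₁) (j₀₂ : Jn G A₀ B₂)
    (j₁₀ : Jn G A₁ B₀) (j₁₁ : Jn G A₁ B₁) (j₁₂ : Jn G A₁ B₂)
    (j₂₀ : Jn G A₂ B₀) (j₂₁ : Jn G A₂ B₁) (j₂₂ : Jn G A₂ B₂) :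
    IsMinor K33 G := by
  refine ⟨Sum.elim ![A₀, A₁, A₂] ![B₀, B₁, B₂], ?_, ?_, ?_⟩
  · rintro (i | i)
    · fin_cases i
      · exact a₀
      · exact a₁
      · exact a₂
    · fin_cases i
      · exact b₀
      · exact b₁
      · exact b₂
  · have kAB : ∀ i j : Fin 3, Disjoint (![A₀, A₁, A₂] i) (![B₀, B₁, B₂] j) := by
      intro i j
      fin_cases i <;> fin_cases j <;> assumption
    have kAA : ∀ i j : Fin 3, i < j → Disjoint (![A₀, A₁, A₂] i) (![A₀, A₁, A₂] j) := by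
      intro i j hij
      fin_cases i <;> fin_cases j <;> first | exact absurd hij (by decide) | assumption
    have kBB : ∀ i j : Fin 3, i < j → Disjoint (![B₀, B₁, B₂] i) (![B₀, B₁, B₂] j) := by
      intro i j hij
      fin_cases i <;> fin_cases j <;> first | exact absurd hij (by decide) | assumption
    rintro (i | i) (j | j) hij
    · have hij' : i ≠ j := fun h => hij (by rw [h])
      rcases lt_or_gt_of_ne hij' with h | h
      · exact kAA i j h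
      · exact (kAA j i h).symm
    · exact kAB i j
    · exact (kAB j i).symm
    · have hij' : i ≠ j := fun h => hij (by rw [h])
      rcases lt_or_gt_of_ne hij' with h | h
      · exact kBB i j h
      · exact (kBB j i h).symm
  · have kAB : ∀ i j : Fin 3, Jn G (![A₀, A₁, A₂] i) (![B₀, B₁, B₂] j) := by
      intro i j
      fin_cases i <;> fin_cases j <;> assumption
    rintro (i | i) (j | j) hij
    · simp [K33] at hij
    · exact kAB i j
    · exact (kAB j i).symm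
    · simp [K33] at hij

end Pool.Agent.Helper36.P6
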