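import Pool.Agent.Helper36.P6.Models

/-!
# Graphs of the class with `3 n - 6` edges
-/

set_option autoImplicit false
set_option linter.unusedSectionVars false

namespace Pool.Agent.Helper36.P6

open SimpleGraph
open Pool.Agent.Helper36.BL (IsMinor K5Free deg dsum cn del mg)

lemma card_ne' (V : Type) [Fintype V] (b : V) [Fintype {x : V // x ≠ b}] :
    Fintype.card {x : V // x ≠ b} = Fintype.card V - 1 := by
  classical
  have h := Fintype.card_subtype_compl (fun x : V => x = b)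
  rw [Fintype.card_subtype_eq] at h
  convert h

/-- members of the class with `3 n - 6` edges -/
def Tri {V : Type} [Fintype V] (G : SimpleGraph V) : Prop :=
  InC G ∧ dsum G + 12 = 6 * Fintype.card V

variable {V : Type} [Fintype V]

lemma bdM {G : SimpleGraph V} (h : K5Free G) : Bd G 1 12 6 := by
  intro W _ H hH h3 _
  have := BL.edge_bound (Fintype.card W) (dsum H) W H rfl rfl (h.minor hH.isMinor) h3
  omega

lemma Tri.deg_ge {G : SimpleGraph V} (h : Tri G) (h4 : 4 ≤ Fintype.card V) (v : V) :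
    3 ≤ deg G v := by
  classical
  have h1 := bdM h.1.1 {x : V // x ≠ v} (del G v) (IndMin.del G v) (by rw [card_ne']; omega)
    (by rw [card_ne']; omega)
  rw [card_ne'] at h1
  have h2 := BL.dsum_del G v
  have h3 := h.2
  omega

lemma Tri.cn_ge {G : SimpleGraph V} (h : Tri G) (h4 : 4 ≤ Fintype.card V) (a b : V)
    (hab : G.Adj a b) : 2 ≤ cn G a b := by
  classical
  have h1 := bdM h.1.1 {x : V // x ≠ b} (mg G a b ∅) (IndMin.mg G a b hab)
    (by rw [card_ne']; omega) (by rw [card_ne']; omega)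
  rw [card_ne'] at h1
  have h2 := BL.dsum_mg G a b hab.ne
  have h3 := h.2
  omega

lemma Tri.conn3 {G : SimpleGraph V} (h : Tri G) (h4 : 4 ≤ Fintype.card V) : Conn3 G := by
  by_contra hn
  have := glue G 1 12 6 (by norm_num) (bdM h.1.1) (h.deg_ge h4) hn
  have h3 := h.2
  omega

lemma Tri.mg {G : SimpleGraph V} (h : Tri G) (h4 : 4 ≤ Fintype.card V) (a b : V)
    (hab : G.Adj a b) (hc : cn G a b = 2) [Fintype {x : V // x ≠ b}] : Tri (BL.mg G a b ∅) := by
  classical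
  refine ⟨h.1.indMin (IndMin.mg G a b hab), ?_⟩
  have h1 := bdM h.1.1 {x : V // x ≠ b} (BL.mg G a b ∅) (IndMin.mg G a b hab)
    (by rw [card_ne']; omega) (by rw [card_ne']; omega)
  rw [card_ne'] at h1
  have h2 : dsum G ≤ dsum (BL.mg G a b ∅) + 2 + 2 * cn G a b := by
    have := BL.dsum_mg G a b hab.ne
    rwa [dsum_inst _ (inferInstance : Fintype {x : V // x ≠ b})] at this
  have h3 := h.2
  rw [card_ne']
  omega

lemma Tri.del {G : SimpleGraph V} (h : Tri G) (h4 : 4 ≤ Fintype.card V) (v : V)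
    (hd : deg G v = 3) [Fintype {x : V // x ≠ v}] : Tri (BL.del G v) := by
  classical
  refine ⟨h.1.indMin (IndMin.del G v), ?_⟩
  have h2 : dsum G = dsum (BL.del G v) + 2 * deg G v := by
    have := BL.dsum_del G v
    rwa [dsum_inst _ (inferInstance : Fintype {x : V // x ≠ v})] at this
  have h3 := h.2
  rw [card_ne']
  omega

open scoped Classical in
lemma deg_eq (G : SimpleGraph V) (v : V) :
    deg G v = (Finset.univ.filter (fun x => G.Adj v x)).card := rfl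

open scoped Classical in
lemma cn_eq (G : SimpleGraph V) (a b : V) :
    cn G a b = (Finset.univ.filter (fun x => G.Adj a x ∧ G.Adj b x)).card := rfl

/-- two common neighbours -/
lemma exists_two {G : SimpleGraph V} {a b : V} (h : 2 ≤ cn G a b) :
    ∃ x y, x ≠ y ∧ G.Adj a x ∧ G.Adj b x ∧ G.Adj a y ∧ G.Adj b y := by
  classical
  rw [cn_eq] at h
  obtain ⟨x, hx, y, hy, hxy⟩ := Finset.one_lt_card.mp h
  simp only [Finset.mem_filter, Finset.mem_univ, true_and] at hx hy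
  exact ⟨x, y, hxy, hx.1, hx.2, hy.1, hy.2⟩

/-- vertices of degree three -/
lemma Tri.nb3 {G : SimpleGraph V} (h : Tri G) (h4 : 4 ≤ Fintype.card V) (v : V)
    (hd : deg G v = 3) : ∃ a b c, G.Adj a b ∧ G.Adj a c ∧ G.Adj b c ∧
      ∀ x, G.Adj v x ↔ x = a ∨ x = b ∨ x = c := by
  classical
  rw [deg_eq, Finset.card_eq_three] at hd
  obtain ⟨a, b, c, hab, hac, hbc, he⟩ := hd
  have hN : ∀ x, G.Adj v x ↔ x = a ∨ x = b ∨ x = c := by
    intro x
    have : x ∈ Finset.univ.filter (fun x => G.Adj v x) ↔ x ∈ ({a, b, c} : Finset V) := by rw [he]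
    simpa using this
  have key : ∀ x, G.Adj v x → ∀ y, G.Adj v y → x ≠ y → G.Adj x y := by
    intro x hx y hy hxy
    obtain ⟨p, q, hpq, h1, h2, h3, h4⟩ := exists_two (h.cn_ge h4 v x hx)
    rw [hN] at hx hy h1 h3
    have hpx : p ≠ x := h2.ne'
    have hqx : q ≠ x := h4.ne'
    rcases hx with rfl | rfl | rfl <;> rcases hy with rfl | rfl | rfl <;>
      rcases h1 with rfl | rfl | rfl <;> rcases h3 with rfl | rfl | rfl <;>
      first | exact absurd rfl hxy | exact absurd rfl hpq | exact absurd rfl hpx |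
        exact absurd rfl hqx | exact h2 | exact h4
  exact ⟨a, b, c, key a ((hN a).mpr (Or.inl rfl)) b ((hN b).mpr (Or.inr (Or.inl rfl))) hab,
    key a ((hN a).mpr (Or.inl rfl)) c ((hN c).mpr (Or.inr (Or.inr rfl))) hac,
    key b ((hN b).mpr (Or.inr (Or.inl rfl))) c ((hN c).mpr (Or.inr (Or.inr rfl))) hbc, hN⟩

/-- vertices of degree four -/
lemma Tri.nb4 {G : SimpleGraph V} (h : Tri G) (h4 : 4 ≤ Fintype.card V) (v : V)
    (hd : deg G v = 4) : ∃ a b c d, a ≠ c ∧ b ≠ d ∧ ¬ G.Adj a c ∧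
      G.Adj a b ∧ G.Adj b c ∧ G.Adj c d ∧ G.Adj d a ∧
      ∀ x, G.Adj v x ↔ x = a ∨ x = b ∨ x = c ∨ x = d := by
  classical
  rw [deg_eq] at hd
  -- two non-adjacent neighbours
  have hnon : ∃ a c, G.Adj v a ∧ G.Adj v c ∧ a ≠ c ∧ ¬ G.Adj a c := by
    by_contra hno
    push Not at hno
    obtain ⟨w, x, y, z, hwx, hwy, hwz, hxy, hxz, hyz, he⟩ := Finset.card_eq_four.mp hd
    have hN : ∀ t, G.Adj v t ↔ t = w ∨ t = x ∨ t = y ∨ t = z := by
      intro t
      have : t ∈ Finset.univ.filter (fun x => G.Adj v x) ↔ t ∈ ({w, x, y, z} : Finset V) := by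
        rw [he]
      simpa using this
    have aw := (hN w).mpr (Or.inl rfl)
    have ax := (hN x).mpr (Or.inr (Or.inl rfl))
    have ay := (hN y).mpr (Or.inr (Or.inr (Or.inl rfl)))
    have az := (hN z).mpr (Or.inr (Or.inr (Or.inr rfl)))
    have j : ∀ x y, G.Adj x y → Jn G {x} {y} := fun x y h => ⟨x, rfl, y, rfl, h⟩
    have ds : ∀ x y : V, G.Adj x y → Disjoint ({x} : Set V) {y} := by
      intro x y h
      rw [Set.disjoint_singleton]
      exact h.ne
    have s := singleton_connected G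
    have a01 := hno w x aw ax hwx
    have a02 := hno w y aw ay hwy
    have a03 := hno w z aw az hwz
    have a12 := hno x y ax ay hxy
    have a13 := hno x z ax az hxz
    have a23 := hno y z ay az hyz
    exact h.1.1 (K5_of_sets G {v} {w} {x} {y} {z} (s _) (s _) (s _) (s _) (s _)
      (ds _ _ aw) (ds _ _ ax) (ds _ _ ay) (ds _ _ az) (ds _ _ a01) (ds _ _ a02) (ds _ _ a03)
      (ds _ _ a12) (ds _ _ a13) (ds _ _ a23)
      (j _ _ aw) (j _ _ ax) (j _ _ ay) (j _ _ az) (j _ _ a01) (j _ _ a02) (j _ _ a03)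
      (j _ _ a12) (j _ _ a13) (j _ _ a23))
  obtain ⟨a, c, hva, hvc, hac, hnac⟩ := hnon
  -- the other two
  obtain ⟨b, d, hbd, h1, h2, h3, h4'⟩ := exists_two (h.cn_ge h4 v a hva)
  have hbc : b ≠ c := by rintro rfl; exact hnac h2
  have hdc : d ≠ c := by rintro rfl; exact hnac h4'
  have hba : b ≠ a := h2.ne'
  have hda : d ≠ a := h4'.ne'
  have hset : Finset.univ.filter (fun x => G.Adj v x) = {a, b, c, d} := by
    symm
    apply Finset.eq_of_subset_of_card_le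
    · intro x hx
      simp only [Finset.mem_insert, Finset.mem_singleton] at hx
      rw [Finset.mem_filter]
      rcases hx with rfl | rfl | rfl | rfl
      · exact ⟨Finset.mem_univ _, hva⟩
      · exact ⟨Finset.mem_univ _, h1⟩
      · exact ⟨Finset.mem_univ _, hvc⟩
      · exact ⟨Finset.mem_univ _, h3⟩
    · rw [hd]
      have : ({a, b, c, d} : Finset V).card = 4 := by
        rw [Finset.card_eq_four]
        exact ⟨a, b, c, d, hba.symm, hac, hda.symm, hbc, hbd, hdc.symm, rfl⟩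
      omega
  have hN : ∀ t, G.Adj v t ↔ t = a ∨ t = b ∨ t = c ∨ t = d := by
    intro t
    have : t ∈ Finset.univ.filter (fun x => G.Adj v x) ↔ t ∈ ({a, b, c, d} : Finset V) := by
      rw [hset]
    simpa using this
  obtain ⟨p, q, hpq, g1, g2, g3, g4⟩ := exists_two (h.cn_ge h4 v c hvc)
  rw [hN] at g1 g3
  have hpa : p ≠ a := by rintro rfl; exact hnac g2.symm
  have hqa : q ≠ a := by rintro rfl; exact hnac g4.symm
  have hpc : p ≠ c := g2.ne'
  have hqc : q ≠ c := g4.ne'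
  have hboth : G.Adj c b ∧ G.Adj c d := by
    rcases g1 with rfl | rfl | rfl | rfl <;> rcases g3 with rfl | rfl | rfl | rfl <;>
      first | exact absurd rfl hpa | exact absurd rfl hqa | exact absurd rfl hpc |
        exact absurd rfl hqc | exact absurd rfl hpq | exact ⟨g2, g4⟩ | exact ⟨g4, g2⟩
  exact ⟨a, b, c, d, hac, hbd, hnac, h2, hboth.1.symm, hboth.2, h4'.symm, hN⟩

/-- the components at a triple are adjacent to all three vertices -/
lemma comp_adj {G : SimpleGraph V} (h3 : Conn3 G) (a b w : V) (hwa : w ≠ a)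
    (hwb : w ≠ b) (K : Set V) (hK : Comp G {a, b, w} K) : ∃ k ∈ K, G.Adj w k := by
  by_contra hno
  push Not at hno
  have hC : Comp G {a, b} K := by
    refine ⟨hK.1, ?_, ?_⟩
    · rw [Set.disjoint_left]
      rintro z hz (h | h)
      · exact Set.disjoint_left.mp hK.2.1 hz (Or.inl h)
      · exact Set.disjoint_left.mp hK.2.1 hz (Or.inr (Or.inl h))
    · intro u hu v hv
      rcases hK.2.2 u hu v hv with h | h | h | h
      · exact Or.inl h
      · exact Or.inr (Or.inl h)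
      · exact Or.inr (Or.inr h)
      · rw [h] at hv; exact absurd hv.symm (hno u hu)
  have := h3 a b K hC w hwa hwb
  exact Set.disjoint_left.mp hK.2.1 this (Or.inr (Or.inr rfl))

lemma comp_adj3 {G : SimpleGraph V} (h3 : Conn3 G) (a b c : V) (hab : a ≠ b) (hac : a ≠ c)
    (hbc : b ≠ c) (K : Set V) (hK : Comp G {a, b, c} K) :
    (∃ k ∈ K, G.Adj a k) ∧ (∃ k ∈ K, G.Adj b k) ∧ (∃ k ∈ K, G.Adj c k) := by
  refine ⟨?_, ?_, ?_⟩
  · apply comp_adj h3 b c a hab hac K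
    have e : ({b, c, a} : Set V) = {a, b, c} := by
      ext z; simp only [Set.mem_insert_iff, Set.mem_singleton_iff]; tauto
    rw [e]; exact hK
  · apply comp_adj h3 a c b hab.symm hbc K
    have e : ({a, c, b} : Set V) = {a, b, c} := by
      ext z; simp only [Set.mem_insert_iff, Set.mem_singleton_iff]; tauto
    rw [e]; exact hK
  · exact comp_adj h3 a b c hac.symm hbc.symm K hK

/-- closed sets absorb connected sets -/
lemma closed_subset {G : SimpleGraph V} {X K : Set V}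
    (hcl : ∀ u ∈ K, ∀ v, G.Adj u v → v ∈ K ∨ v ∈ X) (S : Set V)
    (hS : (G.induce S).Connected) (hSX : Disjoint S X) (v : V) (hvS : v ∈ S) (hvK : v ∈ K) :
    S ⊆ K := by
  have key : ∀ (x y : S), (G.induce S).Walk x y → (x : V) ∈ K → (y : V) ∈ K := by
    intro x y p
    induction p with
    | nil => exact fun h => h
    | @cons u w t hadj p ih =>
      intro hu
      apply ih
      rcases hcl u hu w hadj with h' | h'
      · exact h'
      · exact absurd h' (Set.disjoint_left.mp hSX w.2)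
  intro y hy
  obtain ⟨p⟩ := hS.preconnected ⟨v, hvS⟩ ⟨y, hy⟩
  exact key _ _ p hvK

/-- two disjoint components from a closed set -/
lemma two_comps {G : SimpleGraph V} {X K : Set V}
    (hcl : ∀ u ∈ K, ∀ v, G.Adj u v → v ∈ K ∨ v ∈ X) (hKX : Disjoint K X) (u : V) (hu : u ∈ K)
    (z : V) (hz : z ∉ K) (hzX : z ∉ X) :
    ∃ K₁ K₂, Comp G X K₁ ∧ Comp G X K₂ ∧ K₁ ⊆ K ∧ u ∈ K₁ ∧ z ∈ K₂ ∧ Disjoint K₂ K := by
  obtain ⟨K₁, hK₁, hu₁⟩ := exists_comp G X u (fun h => Set.disjoint_left.mp hKX hu h)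
  obtain ⟨K₂, hK₂, hz₂⟩ := exists_comp G X z hzX
  refine ⟨K₁, K₂, hK₁, hK₂, closed_subset hcl K₁ hK₁.1 hK₁.2.1 u hu₁ hu, hu₁, hz₂, ?_⟩
  rw [Set.disjoint_left]
  intro w hw hwK
  exact hz (closed_subset hcl K₂ hK₂.1 hK₂.2.1 w hw hwK hz₂)

/-- degree three vertices sit on non-separating triangles -/
lemma Tri.sepT {G : SimpleGraph V} (h : Tri G) (h4 : 4 ≤ Fintype.card V) (v a b c : V)
    (hab : G.Adj a b) (hac : G.Adj a c) (hbc : G.Adj b c)
    (hN : ∀ x, G.Adj v x ↔ x = a ∨ x = b ∨ x = c) (K : Set V)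
    (hcl : ∀ u ∈ K, ∀ v, G.Adj u v → v ∈ K ∨ v ∈ ({a, b, c} : Set V))
    (hKX : Disjoint K {a, b, c}) (hvK : v ∉ K) (hne : K.Nonempty) (z : V) (hz : z ∉ K)
    (hzX : z ∉ ({a, b, c} : Set V)) (hzv : z ≠ v) : False := by
  have h3 := h.conn3 h4
  obtain ⟨u, hu⟩ := hne
  obtain ⟨K₁, K₂, hK₁, hK₂, hsub, hu₁, hz₂, hdis⟩ := two_comps hcl hKX u hu z hz hzX
  have hva : v ≠ a := by
    intro h'; rw [h'] at hN
    exact ((hN a).mpr (Or.inl rfl)).ne rfl
  have hvb : v ≠ b := by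
    intro h'; rw [h'] at hN
    exact ((hN b).mpr (Or.inr (Or.inl rfl))).ne rfl
  have hvc : v ≠ c := by
    intro h'; rw [h'] at hN
    exact ((hN c).mpr (Or.inr (Or.inr rfl))).ne rfl
  have hv₁ : v ∉ K₁ := fun h' => hvK (hsub h')
  have hv₂ : v ∉ K₂ := by
    intro h'
    have hclv : ∀ u ∈ ({v} : Set V), ∀ w, G.Adj u w → w ∈ ({v} : Set V) ∨
        w ∈ ({a, b, c} : Set V) := by
      rintro u hu w hw
      rw [Set.mem_singleton_iff] at hu
      subst hu
      exact Or.inr ((hN w).mp hw)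
    have := closed_subset hclv K₂ hK₂.1 hK₂.2.1 v h' rfl hz₂
    exact hzv this
  obtain ⟨a1, b1, c1⟩ := comp_adj3 h3 a b c hab.ne hac.ne hbc.ne K₁ hK₁
  obtain ⟨a2, b2, c2⟩ := comp_adj3 h3 a b c hab.ne hac.ne hbc.ne K₂ hK₂
  have hd12 : Disjoint K₁ K₂ := by
    rw [Set.disjoint_left]
    intro w hw hw'
    exact Set.disjoint_left.mp hdis hw' (hsub hw)
  have s := singleton_connected G
  have ds : ∀ x y : V, x ≠ y → Disjoint ({x} : Set V) {y} := by
    intro x y h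
    rw [Set.disjoint_singleton]
    exact h
  have dX : ∀ K' : Set V, Comp G {a, b, c} K' → ∀ x ∈ ({a, b, c} : Set V),
      Disjoint ({x} : Set V) K' := by
    intro K' hK' x hx
    rw [Set.disjoint_singleton_left]
    exact fun h => Set.disjoint_left.mp hK'.2.1 h hx
  have j1 : ∀ x, G.Adj v x → Jn G {x} {v} := fun x h => ⟨x, rfl, v, rfl, h.symm⟩
  have j2 : ∀ (x : V) (K' : Set V), (∃ k ∈ K', G.Adj x k) → Jn G {x} K' := by
    rintro x K' ⟨k, hk, h⟩
    exact ⟨x, rfl, k, hk, h⟩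
  have ma : a ∈ ({a, b, c} : Set V) := Or.inl rfl
  have mb : b ∈ ({a, b, c} : Set V) := Or.inr (Or.inl rfl)
  have mc : c ∈ ({a, b, c} : Set V) := Or.inr (Or.inr rfl)
  refine h.1.2.1 (K33_of_sets G {a} {b} {c} {v} K₁ K₂ (s _) (s _) (s _) (s _) hK₁.1 hK₂.1
    (ds _ _ hab.ne) (ds _ _ hac.ne) (ds _ _ hbc.ne)
    (by rw [Set.disjoint_singleton_left]; exact hv₁)
    (by rw [Set.disjoint_singleton_left]; exact hv₂) hd12
    (ds _ _ hva.symm) (dX _ hK₁ a ma) (dX _ hK₂ a ma)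
    (ds _ _ hvb.symm) (dX _ hK₁ b mb) (dX _ hK₂ b mb)
    (ds _ _ hvc.symm) (dX _ hK₁ c mc) (dX _ hK₂ c mc)
    (j1 _ ((hN a).mpr (Or.inl rfl))) (j2 _ _ a1) (j2 _ _ a2)
    (j1 _ ((hN b).mpr (Or.inr (Or.inl rfl)))) (j2 _ _ b1) (j2 _ _ b2)
    (j1 _ ((hN c).mpr (Or.inr (Or.inr rfl)))) (j2 _ _ c1) (j2 _ _ c2))

lemma ed_path (G : SimpleGraph V) (a b c : V) (hab : G.Adj a b) (hbc : G.Adj b c)
    (hac : a ≠ c) (hn : ¬ G.Adj a c) : ed G {a, b, c} = 4 := by
  classical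
  unfold ed
  have : {p : V × V | p.1 ∈ ({a, b, c} : Set V) ∧ p.2 ∈ ({a, b, c} : Set V) ∧ G.Adj p.1 p.2} =
      ((({(a, b), (b, a), (b, c), (c, b)} : Finset (V × V))) : Set (V × V)) := by
    ext ⟨x, y⟩
    simp only [Set.mem_insert_iff, Set.mem_singleton_iff, Set.mem_ofPred_eq, Finset.coe_insert,
      Finset.coe_singleton, Prod.mk.injEq]
    constructor
    · rintro ⟨rfl | rfl | rfl, rfl | rfl | rfl, hxy⟩
      all_goals first | exact absurd rfl hxy.ne | exact absurd hxy hn | exact absurd hxy.symm hn | tauto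
    · rintro (⟨rfl, rfl⟩ | ⟨rfl, rfl⟩ | ⟨rfl, rfl⟩ | ⟨rfl, rfl⟩)
      · exact ⟨Or.inl rfl, Or.inr (Or.inl rfl), hab⟩
      · exact ⟨Or.inr (Or.inl rfl), Or.inl rfl, hab.symm⟩
      · exact ⟨Or.inr (Or.inl rfl), Or.inr (Or.inr rfl), hbc⟩
      · exact ⟨Or.inr (Or.inr rfl), Or.inr (Or.inl rfl), hbc.symm⟩
  rw [this, Set.ncard_coe_finset]
  have h1 := hab.ne
  have h3 := hbc.ne
  have h1' := hab.ne'
  have h3' := hbc.ne'
  simp [Finset.card_insert_of_notMem, h1, hac, h3, h1', h3']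

/-- three-vertex cuts spanning a path are cliques -/
lemma Tri.sepQ {G : SimpleGraph V} (h : Tri G) (h4 : 4 ≤ Fintype.card V) (a b c : V)
    (hab : G.Adj a b) (hbc : G.Adj b c) (hac : a ≠ c) (hn : ¬ G.Adj a c) (K : Set V)
    (hcl : ∀ u ∈ K, ∀ v, G.Adj u v → v ∈ K ∨ v ∈ ({a, b, c} : Set V))
    (hKX : Disjoint K {a, b, c}) (hne : K.Nonempty) (z : V) (hz : z ∉ K)
    (hzX : z ∉ ({a, b, c} : Set V)) : False := by
  have h3 := h.conn3 h4
  obtain ⟨u, hu⟩ := hne
  obtain ⟨K₁, K₂, hK₁, hK₂, hsub, hu₁, hz₂, hdis⟩ := two_comps hcl hKX u hu z hz hzX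
  obtain ⟨a1, b1, c1⟩ := comp_adj3 h3 a b c hab.ne hac hbc.ne K₁ hK₁
  obtain ⟨a2, b2, c2⟩ := comp_adj3 h3 a b c hab.ne hac hbc.ne K₂ hK₂
  have hd12 : Disjoint K₁ K₂ := by
    rw [Set.disjoint_left]
    intro w hw hw'
    exact Set.disjoint_left.mp hdis hw' (hsub hw)
  obtain ⟨e1, e2⟩ := split_data G K₁ {a, b, c} hK₁.2.1 hK₁.2.2
  have hX3 : ({a, b, c} : Set V).ncard = 3 := by
    rw [Set.ncard_eq_three]
    exact ⟨a, b, c, hab.ne, hac, hbc.ne, rfl⟩
  rw [ed_path G a b c hab hbc hac hn] at e1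
  rw [hX3] at e2
  have nK₁ : ∀ x ∈ ({a, b, c} : Set V), x ∉ K₁ := fun x hx h => Set.disjoint_left.mp hK₁.2.1 h hx
  have nK₂ : ∀ x ∈ ({a, b, c} : Set V), x ∉ K₂ := fun x hx h => Set.disjoint_left.mp hK₂.2.1 h hx
  have ma : a ∈ ({a, b, c} : Set V) := Or.inl rfl
  have mc : c ∈ ({a, b, c} : Set V) := Or.inr (Or.inr rfl)
  have hA3 : 3 ≤ (K₁ ∪ {a, b, c}).ncard := by
    have := Set.ncard_le_ncard (Set.subset_union_right : ({a, b, c} : Set V) ⊆ K₁ ∪ {a, b, c})
      (Set.toFinite _)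
    omega
  have hB3 : 3 ≤ K₁ᶜ.ncard := by
    have hs : ({a, b, c} : Set V) ⊆ K₁ᶜ := fun x hx => nK₁ x hx
    have := Set.ncard_le_ncard hs (Set.toFinite _)
    omega
  have hz1 : z ∉ K₁ ∪ {a, b, c} := by
    rintro (h' | h')
    · exact Set.disjoint_left.mp hd12 h' hz₂
    · exact hzX h'
  have hAlt := ncard_lt_of _ z hz1
  have hBlt : K₁ᶜ.ncard < Fintype.card V := ncard_lt_of _ u (fun h => h hu₁)
  have hA' := bd_cg (bdM h.1.1) (K₁ ∪ {a, b, c}) hA3 hAlt a c K₂ hK₂.1 (by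
    rw [Set.disjoint_left]
    rintro w hw (h' | h')
    · exact Set.disjoint_left.mp hd12 h' hw
    · exact nK₂ w h' hw) a2 (Or.inr ma) (Or.inr mc) hac hn
    (by obtain ⟨k, hk, h'⟩ := c2; exact ⟨k, hk, h'.symm⟩)
  have hB' := bd_cg (bdM h.1.1) K₁ᶜ hB3 hBlt a c K₁ hK₁.1 disjoint_compl_right a1
    (nK₁ a ma) (nK₁ c mc) hac hn
    (by obtain ⟨k, hk, h'⟩ := c1; exact ⟨k, hk, h'.symm⟩)
  have h5 := h.2
  omega

end Pool.Agent.Helper36.P6
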