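import Pool.Agent.Helper36.P6.Checker
import Pool.Agent.Helper36.P6.Tri

/-!
# Soundness of the checker
-/

set_option autoImplicit false
set_option linter.unusedSectionVars false

namespace Pool.Agent.Helper36.P6

open SimpleGraph
open Pool.Agent.Helper36.BL (IsMinor K5Free deg dsum cn del mg)

lemma allN_spec (n : ℕ) (f : ℕ → Bool) (h : allN n f = true) : ∀ i < n, f i = true := by
  induction n with
  | zero => intro i hi; omega
  | succ n ih =>
    have e : allN (n + 1) f = cond (f n) (allN n f) false := rfl
    rw [e] at h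
    cases hf : f n with
    | false => rw [hf] at h; exact absurd h (by simp)
    | true =>
      rw [hf] at h
      intro i hi
      rcases Nat.lt_succ_iff_lt_or_eq.mp hi with h' | h'
      · exact ih h i h'
      · rw [h']; exact hf

lemma anyN_spec (n : ℕ) (f : ℕ → Bool) (h : anyN n f = true) : ∃ i < n, f i = true := by
  induction n with
  | zero => exact absurd (show false = true from h) (by simp)
  | succ n ih =>
    have e : anyN (n + 1) f = cond (f n) true (anyN n f) := rfl
    rw [e] at h
    cases hf : f n with
    | false =>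
      rw [hf] at h
      obtain ⟨i, hi, h'⟩ := ih h
      exact ⟨i, by omega, h'⟩
    | true => exact ⟨n, by omega, hf⟩

lemma cntN_spec (n : ℕ) (f : ℕ → Bool) :
    cntN n f = ((Finset.range n).filter (fun i => f i = true)).card := by
  induction n with
  | zero => rfl
  | succ n ih =>
    have e : cntN (n + 1) f = cond (f n) (Nat.succ (cntN n f)) (cntN n f) := rfl
    rw [e, Finset.range_add_one, Finset.filter_insert]
    cases hf : f n with
    | false => simp [ih]
    | true =>
      rw [if_pos rfl, Finset.card_insert_of_notMem (by simp), ← ih]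
      rfl

lemma seqN_spec (n : ℕ) (f : ℕ → List ℕ → Option (List ℕ)) (l l' : List ℕ)
    (h : seqN n f l = some l') : ∀ i < n, ∃ l₁ l₂, f i l₁ = some l₂ := by
  induction n generalizing l' with
  | zero => intro i hi; omega
  | succ n ih =>
    have e : seqN (n + 1) f l =
        Option.rec (motive := fun _ => Option (List ℕ)) none (fun l' => f n l') (seqN n f l) := rfl
    rw [e] at h
    cases hs : seqN n f l with
    | none => rw [hs] at h; exact absurd h (by simp)
    | some l₁ =>
      rw [hs] at h
      intro i hi
      rcases Nat.lt_succ_iff_lt_or_eq.mp hi with h' | h'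
      · exact ih l₁ hs i h'
      · exact ⟨l₁, l', by rw [h']; exact h⟩

lemma use1_spec (chk : ℕ → Bool) (l l' : List ℕ) (h : use1 chk l = some l') :
    ∃ c, chk c = true := by
  cases l with
  | nil => exact absurd h (by simp [use1])
  | cons c cs =>
    have e : use1 chk (c :: cs) = cond (chk c) (some cs) none := rfl
    rw [e] at h
    cases hc : chk c with
    | false => rw [hc] at h; exact absurd h (by simp)
    | true => exact ⟨c, hc⟩

lemma cond_true {α : Type} {b : Bool} {x y : α} (h : b = true) : cond b x y = x := by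
  rw [h]; rfl

lemma cond_false {α : Type} {b : Bool} {x y : α} (h : ¬ b = true) : cond b x y = y := by
  rw [Bool.not_eq_true] at h
  rw [h]; rfl

lemma beq_iff (x y : ℕ) : Nat.beq x y = true ↔ x = y := by
  rw [Nat.beq_eq]

lemma blt_iff (x y : ℕ) : Nat.blt x y = true ↔ x < y := by
  unfold Nat.blt
  rw [Nat.ble_eq]
  exact Iff.rfl

lemma in3_iff (a b c x : ℕ) : in3 a b c x = true ↔ x = a ∨ x = b ∨ x = c := by
  unfold in3
  rw [Bool.or_eq_true, Bool.or_eq_true, beq_iff, beq_iff, beq_iff]

lemma in4_iff (a b c d x : ℕ) : in4 a b c d x = true ↔ x = a ∨ x = b ∨ x = c ∨ x = d := by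
  unfold in4
  rw [Bool.or_eq_true, Bool.or_eq_true, Bool.or_eq_true, beq_iff, beq_iff, beq_iff, beq_iff]

lemma adj_symm (g i j : ℕ) : adj g i j = adj g j i := by
  unfold adj
  by_cases h1 : i < j
  · rw [cond_true ((blt_iff i j).mpr h1),
      cond_false (fun h => by rw [blt_iff] at h; omega), cond_true ((blt_iff i j).mpr h1)]
  · by_cases h2 : j < i
    · rw [cond_false (fun h => h1 ((blt_iff i j).mp h)), cond_true ((blt_iff j i).mpr h2),
        cond_true ((blt_iff j i).mpr h2)]
    · rw [cond_false (fun h => h1 ((blt_iff i j).mp h)),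
        cond_false (fun h => h2 ((blt_iff j i).mp h)),
        cond_false (fun h => h2 ((blt_iff j i).mp h)),
        cond_false (fun h => h1 ((blt_iff i j).mp h))]

lemma adj_self (g i : ℕ) : adj g i i = false := by
  unfold adj
  rw [cond_false (fun h => by rw [blt_iff] at h; omega),
    cond_false (fun h => by rw [blt_iff] at h; omega)]

lemma bit_iff (g k : ℕ) : bit g k = true ↔ g.testBit k = true := by
  unfold bit
  rw [beq_iff, Nat.testBit_eq_decide_div_mod_eq]
  change (g >>> k) &&& 1 = 1 ↔ _
  rw [Nat.and_one_is_mod, Nat.shiftRight_eq_div_pow]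
  simp

/-- the graph `H` is isomorphic to the relation `A` on `0, ..., n-1` -/
def RepN {V : Type} (n : ℕ) (H : SimpleGraph V) (A : ℕ → ℕ → Bool) : Prop :=
  ∃ e : V ≃ Fin n, ∀ x y, H.Adj x y ↔ A (e x) (e y) = true

lemma P6_of_ckP {V : Type} (H : SimpleGraph V) (m s : ℕ) (A : ℕ → ℕ → Bool)
    (hR : RepN (m + 1) H A) (hs : ckP A m s = true) : IndMin (pathGraph 6) H := by
  obtain ⟨e, he⟩ := hR
  have h1 := allN_spec _ _ hs
  have hle : ∀ j < 6, ent s j ≤ m := by
    intro j hj
    have := h1 j hj
    rw [Bool.and_eq_true] at this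
    exact Nat.le_of_ble_eq_true this.1
  have hpair : ∀ j < 6, ∀ i < j, ent s i ≠ ent s j ∧
      (A (ent s i) (ent s j) = true ↔ i + 1 = j) := by
    intro j hj i hi
    have := h1 j hj
    rw [Bool.and_eq_true] at this
    have h2 := allN_spec _ _ this.2 i hi
    rw [Bool.and_eq_true] at h2
    obtain ⟨h3, h4⟩ := h2
    refine ⟨?_, ?_⟩
    · intro h
      rw [(beq_iff _ _).mpr h] at h3
      exact absurd h3 (by decide)
    · by_cases hij : i + 1 = j
      · rw [cond_true ((beq_iff _ _).mpr hij)] at h4
        exact ⟨fun _ => hij, fun _ => h4⟩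
      · rw [cond_false (fun h => hij ((beq_iff _ _).mp h))] at h4
        constructor
        · intro h; rw [h] at h4; exact absurd h4 (by decide)
        · exact fun h => absurd h hij
  let f : Fin 6 → V := fun i => e.symm ⟨ent s i, Nat.lt_succ_of_le (hle i i.2)⟩
  have hef : ∀ i : Fin 6, ((e (f i) : Fin (m + 1)) : ℕ) = ent s i := by
    intro i
    simp [f]
  apply IndMin.of_inj f
  · intro i j hij
    by_contra hne
    rcases lt_or_gt_of_ne hne with h | h
    · apply (hpair j j.2 i h).1
      rw [← hef, ← hef, hij]
    · apply (hpair i i.2 j h).1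
      rw [← hef, ← hef, hij]
  · intro i j
    rw [pathGraph_adj]
    rcases lt_trichotomy i j with h | h | h
    · rw [he, hef, hef, (hpair j j.2 i h).2]
      constructor
      · rintro (h' | h')
        · exact h'
        · have := Fin.lt_def.mp h
          omega
      · exact Or.inl
    · rw [h]
      constructor
      · intro h'; omega
      · intro h'; exact absurd rfl h'.ne
    · rw [adj_comm, he, hef, hef, (hpair i i.2 j h).2]
      constructor
      · rintro (h' | h')
        · have := Fin.lt_def.mp h
          omega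
        · exact h'
      · exact Or.inr

lemma rep_of_ckI {V : Type} (H : SimpleGraph V) (n h s : ℕ) (A : ℕ → ℕ → Bool)
    (hR : RepN n H A) (hs : ckI A n h s = true) : RepN n H (adj h) := by
  obtain ⟨e, he⟩ := hR
  have h1 := allN_spec _ _ hs
  have hlt : ∀ j < n, ent s j < n := by
    intro j hj
    have := h1 j hj
    rw [Bool.and_eq_true] at this
    exact (blt_iff _ _).mp this.1
  have hpair : ∀ j < n, ∀ i < j, ent s i ≠ ent s j ∧
      (A i j = true ↔ adj h (ent s i) (ent s j) = true) := by
    intro j hj i hi
    have := h1 j hj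
    rw [Bool.and_eq_true] at this
    have h2 := allN_spec _ _ this.2 i hi
    rw [Bool.and_eq_true] at h2
    obtain ⟨h3, h4⟩ := h2
    refine ⟨?_, ?_⟩
    · intro h
      rw [(beq_iff _ _).mpr h] at h3
      exact absurd h3 (by decide)
    · by_cases hij : adj h (ent s i) (ent s j) = true
      · rw [cond_true hij] at h4
        exact ⟨fun _ => hij, fun _ => h4⟩
      · rw [cond_false hij] at h4
        constructor
        · intro h; rw [h] at h4; exact absurd h4 (by decide)
        · exact fun h => absurd h hij
  let p : Fin n → Fin n := fun i => ⟨ent s i, hlt i i.2⟩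
  have hp : Function.Injective p := by
    intro i j hij
    by_contra hne
    have hij' : ent s i = ent s j := congrArg Fin.val hij
    rcases lt_or_gt_of_ne hne with h | h
    · exact (hpair j j.2 i h).1 hij'
    · exact (hpair i i.2 j h).1 hij'.symm
  refine ⟨e.trans (Equiv.ofBijective p (Finite.injective_iff_bijective.mp hp)), ?_⟩
  intro x y
  change H.Adj x y ↔ adj h (ent s (e x)) (ent s (e y)) = true
  rcases lt_trichotomy (e x) (e y) with h' | h' | h'
  · rw [he]
    exact (hpair (e y) (e y).2 (e x) h').2
  · have hxy : x = y := e.injective h'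
    rw [hxy, adj_self]
    simp
  · rw [adj_comm, he, adj_symm]
    exact (hpair (e x) (e x).2 (e y) h').2

/-- labels of `V` from labels of `V` minus a vertex -/
lemma exists_labels {V : Type} (v : V) (m : ℕ) (e : {x : V // x ≠ v} ≃ Fin m) :
    ∃ E : V ≃ Fin (m + 1), ((E v : Fin (m + 1)) : ℕ) = m ∧
      ∀ x (hx : x ≠ v), ((E x : Fin (m + 1)) : ℕ) = (e ⟨x, hx⟩ : Fin m) := by
  classical
  refine ⟨((Equiv.optionSubtypeNe v).symm.trans (Equiv.optionCongr e)).trans
    finSuccEquivLast.symm, ?_, ?_⟩
  · simp
  · intro x hx
    simp [Equiv.optionSubtypeNe_symm_of_ne hx]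

end Pool.Agent.Helper36.P6
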