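import Pool.Agent.Helper36.P6.Sound

/-!
# One level of the enumeration
-/

set_option autoImplicit false
set_option linter.unusedSectionVars false

namespace Pool.Agent.Helper36.P6

open SimpleGraph
open Pool.Agent.Helper36.BL (IsMinor K5Free deg dsum cn del mg)

lemma loopT_spec (g m : ℕ) (L l l' : List ℕ) (h : loopT g m L l = some l') (a b c : ℕ)
    (hab : a < b) (hbc : b < c) (hc : c < m) (h1 : adj g a b = true) (h2 : adj g a c = true)
    (h3 : adj g b c = true) : ∃ ct, ckT g m L a b c ct = true := by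
  obtain ⟨l1, l2, h4⟩ := seqN_spec _ _ _ _ h c hc
  obtain ⟨l3, l4, h5⟩ := seqN_spec _ _ _ _ h4 b hbc
  rw [cond_true h3] at h5
  obtain ⟨l5, l6, h6⟩ := seqN_spec _ _ _ _ h5 a hab
  rw [cond_true (by rw [h1, h2]; rfl)] at h6
  exact use1_spec _ _ _ h6

lemma loopQ_spec (g m D : ℕ) (L l l' : List ℕ) (h : loopQ g m D L l = some l') (a b c d : ℕ)
    (hac : a < c) (hbd : b < d) (hc : c < m) (hd : d < m)
    (hD : Nat.land D (Nat.lor (Nat.shiftLeft 1 b) (Nat.shiftLeft 1 d)) = D)
    (h1 : adj g a c = true) (h2 : adj g a b = true) (h3 : adj g a d = true)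
    (h4 : adj g b c = true) (h5 : adj g d c = true) : ∃ ct, ckQ g m L a c b d ct = true := by
  obtain ⟨l1, l2, g1⟩ := seqN_spec _ _ _ _ h d hd
  obtain ⟨l3, l4, g2⟩ := seqN_spec _ _ _ _ g1 b hbd
  rw [cond_true ((beq_iff _ _).mpr hD)] at g2
  obtain ⟨l5, l6, g3⟩ := seqN_spec _ _ _ _ g2 c hc
  rw [cond_true (by rw [h4, h5]; rfl)] at g3
  obtain ⟨l7, l8, g4⟩ := seqN_spec _ _ _ _ g3 a hac
  rw [cond_true (by rw [h1, h2, h3]; rfl)] at g4
  exact use1_spec _ _ _ g4

lemma look_mem (L : List ℕ) (i : ℕ) (h : i < L.length) : look L i ∈ L := by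
  induction L generalizing i with
  | nil => simp at h
  | cons x xs ih =>
    have e : look (x :: xs) i = cond (Nat.beq i 0) x (look xs (Nat.pred i)) := rfl
    rw [e]
    by_cases hi : i = 0
    · rw [cond_true ((beq_iff _ _).mpr hi)]
      exact List.mem_cons_self
    · rw [cond_false (fun h => hi ((beq_iff _ _).mp h))]
      apply List.mem_cons_of_mem
      apply ih
      rw [List.length_cons] at h
      rw [Nat.pred_eq_sub_one]
      omega

lemma ckS_spec (g m a b c K : ℕ) (h : ckS g m a b c K = true) :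
    (∀ x < m, K.testBit x = true → ¬ (x = a ∨ x = b ∨ x = c) ∧
      ∀ y < m, K.testBit y = true ∨ (y = a ∨ y = b ∨ y = c) ∨ ¬ adj g x y = true) ∧
    ∃ x < m, K.testBit x = true := by
  unfold ckS at h
  rw [Bool.and_eq_true] at h
  obtain ⟨h1, h2⟩ := h
  constructor
  · intro x hx hKx
    have h3 := allN_spec _ _ h1 x hx
    rw [Bool.or_eq_true, Bool.and_eq_true] at h3
    rcases h3 with h3 | ⟨h3, h4⟩
    · rw [(bit_iff K x).mpr hKx] at h3
      exact absurd h3 (by decide)
    · constructor
      · intro h'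
        rw [(in3_iff a b c x).mpr h'] at h3
        exact absurd h3 (by decide)
      · intro y hy
        have h5 := allN_spec _ _ h4 y hy
        rw [Bool.or_eq_true, Bool.or_eq_true] at h5
        rcases h5 with h5 | h5 | h5
        · exact Or.inl ((bit_iff K y).mp h5)
        · exact Or.inr (Or.inl ((in3_iff a b c y).mp h5))
        · refine Or.inr (Or.inr ?_)
          intro h'
          rw [h'] at h5
          exact absurd h5 (by decide)
  · obtain ⟨x, hx, hb⟩ := anyN_spec _ _ h2
    exact ⟨x, hx, (bit_iff K x).mp hb⟩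

section

variable {V : Type} [Fintype V]

/-- labels on a graph with a vertex `v` removed (or contracted) -/
structure Lab (H : SimpleGraph V) (v : V) (m : ℕ) (E : V ≃ Fin (m + 1)) : Prop where
  top : ((E v : Fin (m + 1)) : ℕ) = m

lemma Lab.lt {H : SimpleGraph V} {v : V} {m : ℕ} {E : V ≃ Fin (m + 1)} (hE : Lab H v m E) (x : V)
    (hx : x ≠ v) : ((E x : Fin (m + 1)) : ℕ) < m := by
  have h1 := (E x).2
  have h2 : ((E x : Fin (m + 1)) : ℕ) ≠ m := by
    intro h
    apply hx
    apply E.injective
    apply Fin.ext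
    rw [h, hE.top]
  omega

lemma lab_inj {m : ℕ} (E : V ≃ Fin (m + 1)) (x y : V) :
    ((E x : Fin (m + 1)) : ℕ) = (E y : Fin (m + 1)) ↔ x = y := by
  constructor
  · intro h
    exact E.injective (Fin.ext h)
  · intro h; rw [h]

/-- the set of vertices with label in the bit mask `K` -/
def mset {m : ℕ} (E : V ≃ Fin (m + 1)) (v : V) (K : ℕ) : Set V :=
  {x | x ≠ v ∧ K.testBit (E x : Fin (m + 1)) = true}

/-- outcome of a triangle certificate -/
lemma handleT (H : SimpleGraph V) (hH : Tri H) (m : ℕ) (hm : 3 ≤ m) (hV : Fintype.card V = m + 1)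
    (v a b c : V) (hab : H.Adj a b) (hac : H.Adj a c) (hbc : H.Adj b c)
    (hN : ∀ x, H.Adj v x ↔ x = a ∨ x = b ∨ x = c) (g : ℕ) (L : List ℕ) (E : V ≃ Fin (m + 1))
    (hE : Lab H v m E)
    (hg : ∀ x y, x ≠ v → y ≠ v → (H.Adj x y ↔ adj g (E x) (E y) = true)) (ct : ℕ)
    (hct : ckT g m L (E a) (E b) (E c) ct = true) : ∃ h ∈ L, RepN (m + 1) H (adj h) := by
  have hva : a ≠ v := by
    rintro rfl
    exact ((hN a).mpr (Or.inl rfl)).ne rfl
  have hvb : b ≠ v := by
    rintro rfl
    exact ((hN b).mpr (Or.inr (Or.inl rfl))).ne rfl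
  have hvc : c ≠ v := by
    rintro rfl
    exact ((hN c).mpr (Or.inr (Or.inr rfl))).ne rfl
  have hrep : RepN (m + 1) H (extT g m (E a) (E b) (E c)) := by
    refine ⟨E, ?_⟩
    intro x y
    unfold extT
    by_cases hx : x = v
    · rw [cond_true ((beq_iff _ _).mpr (by rw [hx, hE.top])), in3_iff, lab_inj, lab_inj, lab_inj,
        hx]
      exact hN y
    · have hx' := hE.lt x hx
      rw [cond_false (fun h => by rw [beq_iff] at h; omega)]
      by_cases hy : y = v
      · rw [cond_true ((beq_iff _ _).mpr (by rw [hy, hE.top])), in3_iff, lab_inj, lab_inj,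
          lab_inj, hy, adj_comm]
        exact hN x
      · have hy' := hE.lt y hy
        rw [cond_false (fun h => by rw [beq_iff] at h; omega)]
        exact hg x y hx hy
  unfold ckT at hct
  by_cases t0 : Nat.land ct 3 = 0
  · rw [cond_true ((beq_iff _ _).mpr t0)] at hct
    exact absurd (P6_of_ckP H m _ _ hrep hct) hH.1.2.2
  · rw [cond_false (fun h => t0 ((beq_iff _ _).mp h))] at hct
    by_cases t1 : Nat.land ct 3 = 1
    · rw [cond_true ((beq_iff _ _).mpr t1), Bool.and_eq_true] at hct
      exfalso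
      obtain ⟨h1, h2⟩ := hct
      obtain ⟨h3, x0, hx0m, hx0⟩ := ckS_spec _ _ _ _ _ _ h1
      obtain ⟨z0, hz0m, hz0⟩ := anyN_spec _ _ h2
      rw [Bool.and_eq_true] at hz0
      set K := Nat.shiftRight ct 2 with hK
      have hz1 : ¬ K.testBit z0 = true := by
        intro h
        rw [(bit_iff K z0).mpr h] at hz0
        exact absurd hz0.1 (by decide)
      have hz2 : ¬ (z0 = (E a : ℕ) ∨ z0 = E b ∨ z0 = E c) := by
        intro h
        rw [(in3_iff _ _ _ _).mpr h] at hz0
        exact absurd hz0.2 (by decide)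
      have lab : ∀ x0 < m, ∃ x : V, x ≠ v ∧ ((E x : Fin (m + 1)) : ℕ) = x0 := by
        intro x0 hx0
        refine ⟨E.symm ⟨x0, by omega⟩, ?_, by simp⟩
        intro h
        have := hE.top
        rw [← h] at this
        simp at this
        omega
      obtain ⟨x, hxv, hxl⟩ := lab x0 hx0m
      obtain ⟨z, hzv, hzl⟩ := lab z0 hz0m
      refine hH.sepT (by omega) v a b c hab hac hbc hN (mset E v K) ?_ ?_ ?_ ⟨x, hxv, ?_⟩ z ?_ ?_ hzv
      · rintro u ⟨huv, hu⟩ w huw
        obtain ⟨h4, h5⟩ := h3 (E u) (hE.lt u huv) hu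
        by_cases hwv : w = v
        · exfalso
          rw [hwv, adj_comm, hN] at huw
          apply h4
          rw [lab_inj, lab_inj, lab_inj]
          exact huw
        · rcases h5 (E w) (hE.lt w hwv) with h6 | h6 | h6
          · exact Or.inl ⟨hwv, h6⟩
          · rw [lab_inj, lab_inj, lab_inj] at h6
            exact Or.inr h6
          · exact absurd ((hg u w huv hwv).mp huw) h6
      · rw [Set.disjoint_left]
        rintro u ⟨huv, hu⟩ hu'
        apply (h3 (E u) (hE.lt u huv) hu).1
        rw [lab_inj, lab_inj, lab_inj]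
        exact hu'
      · exact fun h => h.1 rfl
      · rw [hxl]; exact hx0
      · rintro ⟨_, h⟩
        rw [hzl] at h
        exact hz1 h
      · intro h
        apply hz2
        rw [← hzl, lab_inj, lab_inj, lab_inj]
        exact h
    · rw [cond_false (fun h => t1 ((beq_iff _ _).mp h)), Bool.and_eq_true] at hct
      obtain ⟨h1, h2⟩ := hct
      exact ⟨_, look_mem L _ ((blt_iff _ _).mp h1), rep_of_ckI H _ _ _ _ hrep h2⟩

/-- outcome of a certificate for a vertex of degree four -/
lemma handleQ (H : SimpleGraph V) (hH : Tri H) (m : ℕ) (hm : 3 ≤ m) (hV : Fintype.card V = m + 1)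
    (v a b c d : V) (hne : a ≠ c) (hbd : b ≠ d) (hnac : ¬ H.Adj a c) (hab : H.Adj a b)
    (hbc : H.Adj b c)
    (hcd : H.Adj c d) (hda : H.Adj d a)
    (hN : ∀ x, H.Adj v x ↔ x = a ∨ x = b ∨ x = c ∨ x = d) (g : ℕ) (L : List ℕ)
    (E : V ≃ Fin (m + 1)) (hE : Lab H v m E)
    (hg : ∀ x y, x ≠ v → y ≠ v →
      ((H.Adj x y ∨ (x = a ∧ y = c) ∨ (x = c ∧ y = a)) ↔ adj g (E x) (E y) = true)) (ct : ℕ)
    (hct : ckQ g m L (E a) (E c) (E b) (E d) ct = true) : ∃ h ∈ L, RepN (m + 1) H (adj h) := by
  have hvb : b ≠ v := by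
    rintro rfl
    exact ((hN b).mpr (Or.inr (Or.inl rfl))).ne rfl
  have hvd : d ≠ v := by
    rintro rfl
    exact ((hN d).mpr (Or.inr (Or.inr (Or.inr rfl)))).ne rfl
  have hva : a ≠ v := by
    rintro rfl
    exact ((hN a).mpr (Or.inl rfl)).ne rfl
  have hvc : c ≠ v := by
    rintro rfl
    exact ((hN c).mpr (Or.inr (Or.inr (Or.inl rfl)))).ne rfl
  have hrep : RepN (m + 1) H (extQ g m (E a) (E c) (E b) (E d)) := by
    refine ⟨E, ?_⟩
    intro x y
    unfold extQ
    by_cases hx : x = v
    · rw [cond_true ((beq_iff _ _).mpr (by rw [hx, hE.top])), in4_iff, lab_inj, lab_inj, lab_inj,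
        lab_inj, hx]
      exact hN y
    · have hx' := hE.lt x hx
      rw [cond_false (fun h => by rw [beq_iff] at h; omega)]
      by_cases hy : y = v
      · rw [cond_true ((beq_iff _ _).mpr (by rw [hy, hE.top])), in4_iff, lab_inj, lab_inj,
          lab_inj, lab_inj, hy, adj_comm]
        exact hN x
      · have hy' := hE.lt y hy
        rw [cond_false (fun h => by rw [beq_iff] at h; omega)]
        have hc1 : (Nat.beq (E x) (E a) && Nat.beq (E y) (E c) ||
            Nat.beq (E x) (E c) && Nat.beq (E y) (E a)) = true ↔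
            (x = a ∧ y = c) ∨ (x = c ∧ y = a) := by
          rw [Bool.or_eq_true, Bool.and_eq_true, Bool.and_eq_true, beq_iff, beq_iff, beq_iff,
            beq_iff, lab_inj, lab_inj, lab_inj, lab_inj]
        by_cases hxy : (x = a ∧ y = c) ∨ (x = c ∧ y = a)
        · rw [cond_true (hc1.mpr hxy)]
          constructor
          · intro h
            rcases hxy with ⟨h1, h2⟩ | ⟨h1, h2⟩
            · rw [h1, h2] at h; exact absurd h hnac
            · rw [h1, h2] at h; exact absurd h.symm hnac
          · intro h; exact absurd h (by simp)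
        · rw [cond_false (fun h => hxy (hc1.mp h)), ← hg x y hx hy]
          constructor
          · exact Or.inl
          · rintro (h | h)
            · exact h
            · exact absurd h hxy
  have lab : ∀ x0 < m, ∃ x : V, x ≠ v ∧ ((E x : Fin (m + 1)) : ℕ) = x0 := by
    intro x0 hx0
    refine ⟨E.symm ⟨x0, by omega⟩, ?_, by simp⟩
    intro h
    have := hE.top
    rw [← h] at this
    simp at this
    omega
  -- separation
  have sep : ∀ b d : V, b ≠ v → d ≠ v → H.Adj a b → H.Adj b c → (∀ x, H.Adj v x → x = a ∨ x = b ∨ x = c ∨ x = d) →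
      ∀ K : ℕ, ckS g m (E a) (E c) (E b) K = true → ¬ K.testBit (E d : Fin (m + 1)) = true →
      False := by
    intro b d hvb hvd hab hbc hN' K h1 hd
    obtain ⟨h3, x0, hx0m, hx0⟩ := ckS_spec _ _ _ _ _ _ h1
    obtain ⟨x, hxv, hxl⟩ := lab x0 hx0m
    refine hH.sepQ (by omega) a b c hab hbc hne hnac (mset E v K) ?_ ?_ ⟨x, hxv, ?_⟩ v ?_ ?_
    · rintro u ⟨huv, hu⟩ w huw
      obtain ⟨h4, h5⟩ := h3 (E u) (hE.lt u huv) hu
      rw [lab_inj, lab_inj, lab_inj] at h4
      by_cases hwv : w = v
      · exfalso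
        rw [hwv] at huw
        rcases hN' u huw.symm with h | h | h | h
        · exact h4 (Or.inl h)
        · exact h4 (Or.inr (Or.inr h))
        · exact h4 (Or.inr (Or.inl h))
        · rw [h] at hu; exact hd hu
      · rcases h5 (E w) (hE.lt w hwv) with h6 | h6 | h6
        · exact Or.inl ⟨hwv, h6⟩
        · rw [lab_inj, lab_inj, lab_inj] at h6
          right
          rcases h6 with h6 | h6 | h6
          · exact Or.inl h6
          · exact Or.inr (Or.inr h6)
          · exact Or.inr (Or.inl h6)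
        · exact absurd ((hg u w huv hwv).mp (Or.inl huw)) h6
    · rw [Set.disjoint_left]
      rintro u ⟨huv, hu⟩ hu'
      apply (h3 (E u) (hE.lt u huv) hu).1
      rw [lab_inj, lab_inj, lab_inj]
      rcases hu' with h | h | h
      · exact Or.inl h
      · exact Or.inr (Or.inr h)
      · exact Or.inr (Or.inl h)
    · rw [hxl]; exact hx0
    · exact fun h => h.1 rfl
    · rintro (h | h | h)
      · exact hva h.symm
      · exact hvb h.symm
      · exact hvc h.symm
  unfold ckQ at hct
  by_cases t0 : Nat.land ct 3 = 0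
  · rw [cond_true ((beq_iff _ _).mpr t0)] at hct
    exact absurd (P6_of_ckP H m _ _ hrep hct) hH.1.2.2
  · rw [cond_false (fun h => t0 ((beq_iff _ _).mp h))] at hct
    by_cases t1 : Nat.land ct 3 = 1
    · rw [cond_true ((beq_iff _ _).mpr t1), Bool.and_eq_true] at hct
      exfalso
      refine sep b d hvb hvd hab hbc (fun x hx => (hN x).mp hx) _ hct.1 ?_
      intro h
      have := hct.2
      rw [(bit_iff _ _).mpr h] at this
      exact absurd this (by decide)
    · rw [cond_false (fun h => t1 ((beq_iff _ _).mp h))] at hct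
      by_cases t3 : Nat.land ct 3 = 3
      · rw [cond_true ((beq_iff _ _).mpr t3), Bool.and_eq_true] at hct
        exfalso
        refine sep d b hvd hvb hda.symm hcd.symm (fun x hx => ?_) _ hct.1 ?_
        · rcases (hN x).mp hx with h | h | h | h
          · exact Or.inl h
          · exact Or.inr (Or.inr (Or.inr h))
          · exact Or.inr (Or.inr (Or.inl h))
          · exact Or.inr (Or.inl h)
        · intro h
          have := hct.2
          rw [(bit_iff _ _).mpr h] at this
          exact absurd this (by decide)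
      · rw [cond_false (fun h => t3 ((beq_iff _ _).mp h)), Bool.and_eq_true] at hct
        obtain ⟨h1, h2⟩ := hct
        exact ⟨_, look_mem L _ ((blt_iff _ _).mp h1), rep_of_ckI H _ _ _ _ hrep h2⟩

end

end Pool.Agent.Helper36.P6
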